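import Pool.Agent.Lib.MP_509488_nt.Wt.Stmts
import Pool.Agent.Lib.MP_509488_nt.Surf.Fixed

/-!
# (14) The choice of the parameters for one signature
-/

namespace Pool.Agent.Lib.MP_509488_nt.Wt

open Finset

namespace AllAAux

lemma pb_mono {S S' : Set Pt} {b b' : ℕ} (h : PB S b) (hS : S' ⊆ S) (hb : b ≤ b') : PB S' b' :=
  fun T hT => (h T fun P hP => hS (hT P hP)).trans hb

lemma root_le {N τ D A p : ℕ} {x : ℤ} (hx : 0 ≤ x) (hp : 1 ≤ p) (hN : 1 ≤ N)
    (hxp : x ^ p ≤ (N : ℤ) ^ τ) (hA : τ * D ≤ p * A) : x ^ D ≤ (N : ℤ) ^ A := by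
  have hN' : (1 : ℤ) ≤ N := by exact_mod_cast hN
  have h1 : (x ^ D) ^ p ≤ ((N : ℤ) ^ A) ^ p := by
    calc (x ^ D) ^ p = (x ^ p) ^ D := by rw [← pow_mul, ← pow_mul, mul_comm]
      _ ≤ ((N : ℤ) ^ τ) ^ D := pow_le_pow_left₀ (pow_nonneg hx _) hxp _
      _ = (N : ℤ) ^ (τ * D) := by rw [← pow_mul]
      _ ≤ (N : ℤ) ^ (p * A) := pow_le_pow_right₀ hN' hA
      _ = ((N : ℤ) ^ A) ^ p := by rw [← pow_mul, mul_comm]
  exact (pow_le_pow_iff_left₀ (pow_nonneg hx _) (by positivity) (by omega)).1 h1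

lemma gB_le {N E l A H : ℕ} (hH : 1 ≤ H) (hA : 1 ≤ A)
    (hDI : 64 * H * A ≤ N ^ A) (hl : l ^ H ≤ N) (hE : (E ^ 2 * (64 * H + A)) ^ (65 * H) ≤ N)
    (hE1 : 1 ≤ E) : gB E (64 * H) A (l ^ (4 * H * A)) (N ^ (A + A)) ≤ N ^ (8 * A) := by
  unfold gB
  have hHA : 1 ≤ H * A := Nat.mul_pos hH hA
  have h1 : l ^ (4 * H * A) ≤ N ^ (4 * A) := by
    calc l ^ (4 * H * A) = (l ^ H) ^ (4 * A) := by rw [← pow_mul]; congr 1; ring
      _ ≤ N ^ (4 * A) := Nat.pow_le_pow_left hl _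
  have hb : 1 ≤ E ^ 2 * (64 * H + A) := Nat.mul_pos (pow_pos hE1 2) (by omega)
  have h2 : (E ^ 2 * (64 * H + A)) ^ (64 * H * A + 1) ≤ N ^ A := by
    calc (E ^ 2 * (64 * H + A)) ^ (64 * H * A + 1)
        ≤ (E ^ 2 * (64 * H + A)) ^ (65 * H * A) := by
          apply Nat.pow_le_pow_right hb
          nlinarith
      _ = ((E ^ 2 * (64 * H + A)) ^ (65 * H)) ^ A := by rw [← pow_mul]
      _ ≤ N ^ A := Nat.pow_le_pow_left hE _
  calc 64 * H * A * l ^ (4 * H * A) * (E ^ 2 * (64 * H + A)) ^ (64 * H * A + 1) * N ^ (A + A)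
      ≤ N ^ A * N ^ (4 * A) * N ^ A * N ^ (A + A) := by gcongr
    _ = N ^ (8 * A) := by rw [← pow_add, ← pow_add, ← pow_add]; congr 1; ring

lemma small_of {N τ h E X A : ℕ} (hX : X ≤ N ^ (8 * A)) (hE : E ≤ N) (hN : 6 ≤ N)
    (hτ : h * (9 + 64 * A) < τ) : Small N τ h E X := by
  unfold Small
  calc (2 * (6 * E * X ^ 2) ^ 4) ^ h ≤ (N * (N * N * (N ^ (8 * A)) ^ 2) ^ 4) ^ h := by
        gcongr
        omega
    _ = N ^ (h * (9 + 64 * A)) := by ring
    _ < N ^ τ := Nat.pow_lt_pow_right (by omega) hτ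

lemma cond3 {N l A H : ℕ} (hA : 1 ≤ A) (hN : 2 ≤ N) (hDI : 64 * H * A ≤ N ^ A)
    (hl : N ≤ l ^ (2 * H)) (hl0 : 0 < l) :
    64 * H * A * l ^ (4 * H * A) * N ^ (A + A) < l ^ (4 * (4 * H * A)) := by
  have h1 : N ^ (6 * A) ≤ l ^ (3 * (4 * H * A)) := by
    calc N ^ (6 * A) ≤ (l ^ (2 * H)) ^ (6 * A) := Nat.pow_le_pow_left hl _
      _ = l ^ (3 * (4 * H * A)) := by rw [← pow_mul]; congr 1; ring
  have h2 : 64 * H * A * N ^ (A + A) < l ^ (3 * (4 * H * A)) := by
    calc 64 * H * A * N ^ (A + A) ≤ N ^ A * N ^ (A + A) := by gcongr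
      _ = N ^ (3 * A) := by rw [← pow_add]; congr 1; ring
      _ < N ^ (6 * A) := Nat.pow_lt_pow_right (by omega) (by omega)
      _ ≤ _ := h1
  calc 64 * H * A * l ^ (4 * H * A) * N ^ (A + A)
      = l ^ (4 * H * A) * (64 * H * A * N ^ (A + A)) := by ring
    _ < l ^ (4 * H * A) * l ^ (3 * (4 * H * A)) :=
        Nat.mul_lt_mul_of_pos_left h2 (pow_pos hl0 _)
    _ = l ^ (4 * (4 * H * A)) := by rw [← pow_add]; congr 1; ring

/-- The trivial bound. -/
lemma triv {p q r N τ h B : ℕ} {s₁ s₂ : ℤ} (hE : Exps p q r s₁ s₂)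
    (hB : ∀ P ∈ Good p q r s₁ s₂ N τ h, P 0 ≤ B ∧ P 1 ≤ B) :
    PB (Good p q r s₁ s₂ N τ h) (B * B) := by
  intro T hT
  have hinj : Set.InjOn (fun P : Pt => (P 0, P 1)) (T : Set Pt) := by
    intro P hP Q hQ hPQ
    have h0 : P 0 = Q 0 := congrArg Prod.fst hPQ
    have h1 : P 1 = Q 1 := congrArg Prod.snd hPQ
    obtain ⟨eP, pP, -⟩ := hT P hP
    obtain ⟨eQ, pQ, -⟩ := hT Q hQ
    unfold Surf.Eqn at eP eQ
    have h3 : s₁ * P 2 ^ r = s₁ * Q 2 ^ r := by rw [h0, h1] at eP; linarith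
    have hs : s₁ ≠ 0 := by rcases hE.e₁ with h | h <;> rw [h] <;> norm_num
    have h4 : P 2 ^ r = Q 2 ^ r := mul_left_cancel₀ hs h3
    have h5 : P 2 = Q 2 := by
      have hP2 := pP 2
      have hQ2 := pQ 2
      exact (pow_left_inj₀ (by linarith) (by linarith) hE.hr.pos.ne').1 h4
    funext i
    fin_cases i
    · exact h0
    · exact h1
    · exact h5
  have hmap : ∀ P ∈ T, (fun P : Pt => (P 0, P 1)) P ∈
      (Finset.Icc (1 : ℤ) B) ×ˢ (Finset.Icc (1 : ℤ) B) := by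
    intro P hP
    have h1 := hB P (hT P hP)
    have h2 := (hT P hP).2.1
    simp only [Finset.mem_product, Finset.mem_Icc]
    exact ⟨⟨h2 0, h1.1⟩, ⟨h2 1, h1.2⟩⟩
  have := Finset.card_le_card_of_injOn _ hmap hinj
  simpa using this

end AllAAux

open AllAAux

/-- (14) Asymptotic form of (12). -/
theorem stAllA (hC : StCnt) (hK : StCls) (hF : StFixA) (hL : Surf.StPrimes) : StAllA := by
  intro ε h hε hh
  obtain ⟨H, hH⟩ := exists_nat_ge (100 / ε)
  have hHpos : (0 : ℝ) < H := lt_of_lt_of_le (by positivity) hH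
  have hH1 : 1 ≤ H := by
    have : 0 < H := by exact_mod_cast hHpos
    omega
  have hH1' : (1 : ℝ) ≤ H := by exact_mod_cast hH1
  have hHε : 100 ≤ ε * H := by rw [div_le_iff₀ hε] at hH; linarith
  obtain ⟨K₁, c₁, δ₁, hc₁, hδ₁, N₁, hN₁⟩ := hF (10 / H) h (by positivity) hh
  obtain ⟨N₂, hN₂⟩ := hL (1 / (2 * H)) (1 / H) (by positivity)
    (one_div_lt_one_div_of_lt hHpos (by linarith))
  set δ₀ : ℝ := 1 / (1000 * H) with hδ₀
  have hδ₀pos : 0 < δ₀ := by positivity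
  obtain ⟨N₃, hN₃⟩ : ∃ N₃ : ℕ, ∀ N : ℕ, N₃ ≤ N → 10 ^ 6 * (H : ℝ) ^ 2 ≤ (N : ℝ) ^ δ₀ := by
    have := (tendsto_rpow_atTop hδ₀pos).comp tendsto_natCast_atTop_atTop
    exact (Filter.eventually_atTop.1 (this.eventually_ge_atTop (10 ^ 6 * (H : ℝ) ^ 2)))
  refine ⟨max K₁ (40000 * h * H), min c₁ (1 / (1000 * H ^ 2)), min δ₁ δ₀,
    lt_min hc₁ (by positivity), lt_min hδ₁ hδ₀pos, max (max N₁ N₂) (max N₃ 6), ?_⟩
  intro N hN p q r τ s₁ s₂ hE hKp hKq hrτ hτc hpN hqN hrN
  have hNN₁ : N₁ ≤ N := (le_max_left _ _).trans ((le_max_left _ _).trans hN)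
  have hNN₂ : N₂ ≤ N := (le_max_right _ _).trans ((le_max_left _ _).trans hN)
  have hNN₃ : N₃ ≤ N := (le_max_left _ _).trans ((le_max_right _ _).trans hN)
  have hN6 : 6 ≤ N := (le_max_right _ _).trans ((le_max_right _ _).trans hN)
  have hNR : (1 : ℝ) < N := by exact_mod_cast (by omega : 1 < N)
  have hKp1 : K₁ ≤ p := (le_max_left _ _).trans hKp
  have hKq1 : K₁ ≤ q := (le_max_left _ _).trans hKq
  have hKp2 : 40000 * h * H ≤ p := (le_max_right _ _).trans hKp
  have hKq2 : 40000 * h * H ≤ q := (le_max_right _ _).trans hKq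
  have hpq0 : (0 : ℝ) ≤ p * q := by positivity
  have hτc₁ : (τ : ℝ) ≤ c₁ * (p * q) :=
    hτc.trans (mul_le_mul_of_nonneg_right (min_le_left _ _) hpq0)
  have hτc₂ : (τ : ℝ) ≤ 1 / (1000 * H ^ 2) * (p * q) :=
    hτc.trans (mul_le_mul_of_nonneg_right (min_le_right _ _) hpq0)
  have hle₁ : (N : ℝ) ^ (min δ₁ δ₀) ≤ (N : ℝ) ^ δ₁ :=
    Real.rpow_le_rpow_of_exponent_le hNR.le (min_le_left _ _)
  have hle₂ : (N : ℝ) ^ (min δ₁ δ₀) ≤ (N : ℝ) ^ δ₀ :=
    Real.rpow_le_rpow_of_exponent_le hNR.le (min_le_right _ _)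
  set G : ℝ := (N : ℝ) ^ δ₀ with hG
  set X : ℝ := (N : ℝ) ^ (1 / (H : ℝ)) with hX
  set Y : ℝ := (N : ℝ) ^ (1 / (2 * (H : ℝ))) with hY
  have hpG : (p : ℝ) ≤ G := hpN.trans hle₂
  have hqG : (q : ℝ) ≤ G := hqN.trans hle₂
  have hrG : (r : ℝ) ≤ G := hrN.trans hle₂
  have hGH : 10 ^ 6 * (H : ℝ) ^ 2 ≤ G := hN₃ N hNN₃
  have hHsq : (H : ℝ) ≤ (H : ℝ) ^ 2 := by
    rw [sq]; exact le_mul_of_one_le_left (by positivity) hH1'
  have hG6 : (10 : ℝ) ^ 6 ≤ G := by
    refine le_trans ?_ hGH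
    have : (1 : ℝ) ≤ (H : ℝ) ^ 2 := one_le_pow₀ hH1'
    linarith
  have hG1 : 1 ≤ G := by linarith
  have hG0 : 0 < G := by linarith
  have hX0 : 0 < X := by positivity
  have hGpow : ∀ k : ℕ, G ^ k = (N : ℝ) ^ (k * δ₀) := by
    intro k
    rw [hG, ← Real.rpow_natCast, ← Real.rpow_mul (by positivity), mul_comm]
  have hGY : ∀ k : ℕ, k ≤ 500 → G ^ k ≤ Y := by
    intro k hk
    rw [hGpow, hY]
    apply Real.rpow_le_rpow_of_exponent_le hNR.le
    have hk' : (k : ℝ) ≤ 500 := by exact_mod_cast hk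
    calc (k : ℝ) * δ₀ ≤ 500 * δ₀ := by gcongr
      _ = 1 / (2 * (H : ℝ)) := by rw [hδ₀]; field_simp; norm_num
  have hGX : ∀ k : ℕ, k ≤ 1000 → G ^ k ≤ X := by
    intro k hk
    rw [hGpow, hX]
    apply Real.rpow_le_rpow_of_exponent_le hNR.le
    have hk' : (k : ℝ) ≤ 1000 := by exact_mod_cast hk
    calc (k : ℝ) * δ₀ ≤ 1000 * δ₀ := by gcongr
      _ = 1 / (H : ℝ) := by rw [hδ₀]; field_simp
  have hXN : X ≤ N := by
    rw [hX]
    calc (N : ℝ) ^ (1 / (H : ℝ)) ≤ (N : ℝ) ^ (1 : ℝ) :=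
          Real.rpow_le_rpow_of_exponent_le hNR.le (by rw [div_le_one hHpos]; exact hH1')
      _ = N := Real.rpow_one _
  have hGN : ∀ k : ℕ, k ≤ 1000 → G ^ k ≤ N := fun k hk => (hGX k hk).trans hXN
  -- the fibres
  set M := ⌊(N : ℝ) ^ (10 / (H : ℝ))⌋₊ with hM
  have hfib : ∀ z, PB (Fib (Good p q r s₁ s₂ N τ h) z) M := fun z =>
    hN₁ N hNN₁ p q r τ s₁ s₂ z hE hKp1 hKq1 hτc₁ (hpN.trans hle₁) (hqN.trans hle₁)
      (hrN.trans hle₁)
  have hp0 : 0 < p := hE.hp.pos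
  have hq0 : 0 < q := hE.hq.pos
  have hr2 : 2 ≤ r := hE.hr.two_le
  have hτ2 : 2 ≤ τ := hr2.trans hrτ
  rcases lt_or_ge τ (300 * h) with hτh | hτh
  · -- the trivial case
    set s : ℝ := 1 / (100 * H) with hs
    have hs0 : 0 < s := by positivity
    have key : ∀ (x : ℤ) (n : ℕ), 1 ≤ x → 40000 * h * H ≤ n → 0 < n → x ^ n ≤ (N : ℤ) ^ τ →
        x ≤ (⌊(N : ℝ) ^ s⌋₊ : ℤ) := by
      intro x n hx hn hn0 hxn
      have h1 : (x : ℝ) ≤ (N : ℝ) ^ s := by
        by_contra hcon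
        push Not at hcon
        have h2 : ((N : ℝ) ^ s) ^ n < (x : ℝ) ^ n :=
          pow_lt_pow_left₀ hcon (by positivity) hn0.ne'
        have h3 : (x : ℝ) ^ n ≤ (N : ℝ) ^ τ := by exact_mod_cast hxn
        have h4 : (N : ℝ) ^ τ ≤ ((N : ℝ) ^ s) ^ n := by
          rw [← Real.rpow_natCast ((N : ℝ) ^ s), ← Real.rpow_mul (by positivity),
            ← Real.rpow_natCast (N : ℝ) τ]
          apply Real.rpow_le_rpow_of_exponent_le hNR.le
          have h5 : (40000 * h * H : ℝ) ≤ n := by exact_mod_cast hn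
          have h6 : (τ : ℝ) ≤ 300 * h := by exact_mod_cast hτh.le
          have h7 : s * (40000 * h * H) = 400 * h := by rw [hs]; field_simp; norm_num
          have h8 : s * (40000 * h * H) ≤ s * n := by gcongr
          have h9 : (0 : ℝ) ≤ h := by positivity
          linarith
        linarith
      have h2 : x.toNat ≤ ⌊(N : ℝ) ^ s⌋₊ := by
        apply Nat.le_floor
        have : ((x.toNat : ℤ) : ℝ) = x := by rw [Int.toNat_of_nonneg (by omega)]
        rw [← Int.cast_natCast, this]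
        exact h1
      omega
    refine pb_mono (triv hE (B := ⌊(N : ℝ) ^ s⌋₊) ?_) (fun P hP => hP) ?_
    · intro P hP
      exact ⟨key _ p (hP.2.1 0) hKp2 hp0 hP.2.2.2.1, key _ q (hP.2.1 1) hKq2 hq0 hP.2.2.2.2.1⟩
    · apply Nat.le_floor
      push_cast
      have h1 : (⌊(N : ℝ) ^ s⌋₊ : ℝ) ≤ (N : ℝ) ^ s := Nat.floor_le (by positivity)
      calc (⌊(N : ℝ) ^ s⌋₊ : ℝ) * ⌊(N : ℝ) ^ s⌋₊ ≤ (N : ℝ) ^ s * (N : ℝ) ^ s := by gcongr
        _ = (N : ℝ) ^ (s + s) := by rw [← Real.rpow_add (by linarith)]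
        _ ≤ (N : ℝ) ^ ε := by
            apply Real.rpow_le_rpow_of_exponent_le hNR.le
            have h2 : s + s = 1 / (50 * H) := by rw [hs]; field_simp; norm_num
            rw [h2, div_le_iff₀ (by positivity)]
            linarith
  · -- the main case
    have hpqG : (p * q : ℝ) ≤ G ^ 2 := by
      rw [sq]; exact mul_le_mul hpG hqG (by positivity) hG0.le
    have hτG : (τ : ℝ) ≤ G ^ 2 := by
      refine hτc₂.trans (le_trans ?_ hpqG)
      apply mul_le_of_le_one_left hpq0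
      rw [div_le_one (by positivity)]
      have : (1 : ℝ) ≤ (H : ℝ) ^ 2 := one_le_pow₀ hH1'
      linarith
    set m := min p q with hm
    have hm0 : 0 < m := lt_min hp0 hq0
    have hmK : 40000 * h * H ≤ m := le_min hKp2 hKq2
    set A₀ := 64 * H * τ / m with hA₀
    set A := A₀ + 1 with hA
    have hA1 : 1 ≤ A := Nat.le_add_left 1 A₀
    have hAm : τ * (64 * H) ≤ m * A := by
      rw [hA, hA₀, show τ * (64 * H) = 64 * H * τ from Nat.mul_comm _ _]
      exact (Nat.lt_mul_div_succ (64 * H * τ) hm0).le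
    have hAp : τ * (64 * H) ≤ p * A := hAm.trans (Nat.mul_le_mul_right _ (min_le_left _ _))
    have hAq : τ * (64 * H) ≤ q * A := hAm.trans (Nat.mul_le_mul_right _ (min_le_right _ _))
    have hA₀m : 625 * (h * A₀) ≤ τ := by
      have h1 : A₀ * m ≤ 64 * H * τ := Nat.div_mul_le_self _ _
      have h2 : A₀ * (40000 * h * H) ≤ 64 * H * τ := (Nat.mul_le_mul_left _ hmK).trans h1
      have h3 : (64 * H) * (625 * (h * A₀)) ≤ (64 * H) * τ := by
        calc (64 * H) * (625 * (h * A₀)) = A₀ * (40000 * h * H) := by ring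
          _ ≤ _ := h2
      exact Nat.le_of_mul_le_mul_left h3 (by omega)
    have hsm : h * (9 + 64 * A) < τ := by
      have : h * (9 + 64 * A) = 73 * h + 64 * (h * A₀) := by rw [hA]; ring
      rw [this]
      omega
    have hA₀le : A₀ ≤ 64 * H * τ := Nat.div_le_self _ _
    have hAG : (A : ℝ) ≤ 65 * H * G ^ 2 := by
      have h1 : (A₀ : ℝ) ≤ 64 * H * τ := by exact_mod_cast hA₀le
      have h2 : (64 * H * τ : ℝ) ≤ 64 * H * G ^ 2 := by gcongr
      have h3 : (1 : ℝ) ≤ H * G ^ 2 := one_le_mul_of_one_le_of_one_le hH1' (one_le_pow₀ hG1)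
      rw [hA]; push_cast
      linarith
    have h130 : (130 * H : ℝ) ≤ G := by
      refine le_trans ?_ hGH
      have h0 := sq_nonneg (H : ℝ)
      clear_value G X Y δ₀
      linarith only [h0, hHsq]
    have hDAG : (64 * H + A : ℝ) ≤ G ^ 3 := by
      have h1 : (64 * H : ℝ) ≤ 65 * H * G ^ 2 := by
        have h0 : (H : ℝ) ≤ H * G ^ 2 := le_mul_of_one_le_right hHpos.le (one_le_pow₀ hG1)
        linarith only [h0, hHpos]
      have h2 : (130 * H) * G ^ 2 ≤ G * G ^ 2 := by gcongr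
      have h3 : G ^ 3 = G * G ^ 2 := by ring
      rw [h3]
      linarith
    have hAG3 : (A : ℝ) ≤ G ^ 3 := by
      have : (0 : ℝ) ≤ 64 * H := by positivity
      linarith
    -- the primes
    obtain ⟨LL, hLL, hcard⟩ := hN₂ N hNN₂
    set L := ⌊X⌋₊ with hLdef
    have hLX : (L : ℝ) ≤ X := Nat.floor_le hX0.le
    have hLL1 : ∀ l ∈ LL, l.Prime ∧ l ≤ L := fun l hl =>
      ⟨(hLL l hl).1, Nat.le_floor (hLL l hl).2.2⟩
    have hcardX : (LL.card : ℝ) ≤ X := by
      refine le_trans ?_ hLX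
      have h1 : LL ⊆ Finset.Icc 1 L := fun l hl =>
        Finset.mem_Icc.2 ⟨(hLL1 l hl).1.one_lt.le, (hLL1 l hl).2⟩
      have h2 := Finset.card_le_card h1
      rw [Nat.card_Icc] at h2
      exact_mod_cast (by omega : LL.card ≤ L)
    have hlH : ∀ l ∈ LL, l ^ H ≤ N := by
      intro l hl
      have h1 : (l : ℝ) ^ H ≤ N := by
        calc (l : ℝ) ^ H ≤ ((N : ℝ) ^ (1 / (H : ℝ))) ^ H := by
              gcongr; exact (hLL l hl).2.2
          _ = N := by
              rw [← Real.rpow_natCast, ← Real.rpow_mul (by positivity)]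
              rw [one_div, inv_mul_cancel₀ hHpos.ne', Real.rpow_one]
      exact_mod_cast h1
    have hl2H : ∀ l ∈ LL, N ≤ l ^ (2 * H) := by
      intro l hl
      have h1 : (N : ℝ) ≤ (l : ℝ) ^ (2 * H) := by
        calc (N : ℝ) = ((N : ℝ) ^ (1 / (2 * (H : ℝ)))) ^ (2 * H) := by
              rw [← Real.rpow_natCast, ← Real.rpow_mul (by positivity)]
              push_cast
              rw [one_div, inv_mul_cancel₀ (by positivity), Real.rpow_one]
          _ ≤ (l : ℝ) ^ (2 * H) := by gcongr; exact (hLL l hl).2.1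
      exact_mod_cast h1
    set E := ⌊G⌋₊ with hEdef
    have hpE : p ≤ E := Nat.le_floor hpG
    have hqE : q ≤ E := Nat.le_floor hqG
    have hrE : r ≤ E := Nat.le_floor hrG
    have hEG : (E : ℝ) ≤ G := Nat.floor_le hG0.le
    have hEN : E ≤ N := by
      have h1 : (E : ℝ) ≤ N := hEG.trans (by simpa using hGN 1 (by norm_num))
      exact_mod_cast h1
    have hEpow : (E ^ 2 * (64 * H + A)) ^ (65 * H) ≤ N := by
      have h1 : ((E : ℝ) ^ 2 * (64 * H + A)) ^ (65 * H) ≤ N := by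
        calc ((E : ℝ) ^ 2 * (64 * H + A)) ^ (65 * H) ≤ (G ^ 2 * G ^ 3) ^ (65 * H) := by gcongr
          _ = G ^ (325 * H) := by rw [← pow_add, ← pow_mul]; congr 1; ring
          _ ≤ (N : ℝ) ^ (1 : ℝ) := by
              rw [hGpow]
              apply Real.rpow_le_rpow_of_exponent_le hNR.le
              rw [hδ₀]; push_cast
              rw [mul_one_div, div_le_one (by positivity)]
              linarith only [hHpos]
          _ = N := Real.rpow_one _
      exact_mod_cast h1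
    have hDIN : 64 * H * A ≤ N ^ A := by
      have h1 : 64 * H * A ≤ N := by
        have : (64 * H * A : ℝ) ≤ N := by
          calc (64 * H * A : ℝ) ≤ G * G ^ 3 := by
                gcongr
                linarith
            _ = G ^ 4 := by ring
            _ ≤ N := hGN 4 (by norm_num)
        exact_mod_cast this
      exact h1.trans (Nat.le_self_pow (by omega) _)
    have hcardY : ∀ k : ℕ, k ≤ 500 → G ^ k ≤ (LL.card : ℝ) := fun k hk => (hGY k hk).trans hcard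
    have hHG : (24 * H : ℝ) ≤ G := by linarith
    have hprod2τ : N ^ (2 * τ) ≤ ∏ l ∈ LL, l := by
      apply le_of_lt
      apply Surf.FixedAux.prod_ge (a := 1 / (2 * (H : ℝ))) (by omega) (fun l hl => (hLL l hl).2.1)
      push_cast
      rw [one_div, inv_mul_eq_div, lt_div_iff₀ (by positivity)]
      calc (2 * τ * (2 * H) : ℝ) = 4 * H * τ := by ring
        _ ≤ 4 * H * G ^ 2 := by gcongr
        _ < 24 * H * G ^ 2 := by
            have : 0 < (H : ℝ) * G ^ 2 := by positivity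
            linarith
        _ ≤ G * G ^ 2 := by gcongr
        _ = G ^ 3 := by ring
        _ ≤ LL.card := hcardY 3 (by norm_num)
    set C := A * M + 64 * H * (64 * H * A * (LL.card * L ^ 3)) with hCdef
    have hDq : 64 * H ≤ q := by
      refine le_trans ?_ hKq2
      exact Nat.mul_le_mul_right _ (by omega)
    have hclass : ∀ l ∈ LL, ∀ S' : Set Pt, S' ⊆ Good p q r s₁ s₂ N τ h → Surf.Loc 1 l S' →
        PB S' C := by
      intro l hl S' hS' hloc
      refine hK p q r s₁ s₂ hE N τ h E l (4 * H * A) (64 * H) A A M L LL S' (by omega) hpE hqE hrE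
        (hLL l hl).1 (Nat.mul_pos (by omega) hA1) (le_of_eq (by ring)) hDq hloc hS' ?_ ?_ ?_
        hLL1 hprod2τ ?_
      · intro P hP
        obtain ⟨-, h1, -, h2, h3, -⟩ := hS' hP
        exact ⟨root_le (by linarith [h1 0]) hp0 (by omega) h2 hAp,
          root_le (by linarith [h1 1]) hq0 (by omega) h3 hAq⟩
      · exact cond3 hA1 (by omega) hDIN (hl2H l hl) (hLL l hl).1.pos
      · exact small_of (gB_le hH1 hA1 hDIN (hlH l hl) hEpow (by omega)) hEN hN6 hsm
      · exact fun z => pb_mono (hfib z) (fun P hP => ⟨hS' hP.1, hP.2⟩) le_rfl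
    -- the parameter of the determinant method
    set K := p * q * τ with hKdef
    set Q := Nat.sqrt K with hQ
    have hQK : Q ^ 2 ≤ K := by rw [sq]; exact Nat.sqrt_le K
    have hKG : (K : ℝ) ≤ G ^ 4 := by
      rw [hKdef]; push_cast
      calc (p * q * τ : ℝ) ≤ G ^ 2 * G ^ 2 := by gcongr
        _ = G ^ 4 := by ring
    have hKN : K ≤ N := by
      have : (K : ℝ) ≤ N := hKG.trans (hGN 4 (by norm_num))
      exact_mod_cast this
    have hK1 : 1 ≤ K := Nat.mul_pos (Nat.mul_pos hp0 hq0) (by omega)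
    have hKτ : (31 * H * τ : ℝ) ^ 2 ≤ K := by
      have h1 : (τ : ℝ) ^ 2 ≤ 1 / (1000 * H ^ 2) * K := by
        rw [hKdef]; push_cast
        calc (τ : ℝ) ^ 2 = τ * τ := sq _
          _ ≤ 1 / (1000 * H ^ 2) * (p * q) * τ := by gcongr
          _ = 1 / (1000 * H ^ 2) * (p * q * τ) := by ring
      rw [one_div, inv_mul_eq_div, le_div_iff₀ (by positivity)] at h1
      have h2 : (31 * H * τ : ℝ) ^ 2 = 961 * ((τ : ℝ) ^ 2 * H ^ 2) := by ring
      have h3 : (0 : ℝ) ≤ (τ : ℝ) ^ 2 * H ^ 2 := by positivity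
      rw [h2]
      linarith only [h1, h3]
    have hQ1 : (31 * H * τ : ℝ) < Q + 1 := by
      have h1 : K < (Q + 1) ^ 2 := by rw [sq]; exact Nat.lt_succ_sqrt K
      have h2 : (K : ℝ) < ((Q : ℝ) + 1) ^ 2 := by exact_mod_cast h1
      exact lt_of_pow_lt_pow_left₀ 2 (by positivity) (hKτ.trans_lt h2)
    have hHτ : (2 : ℝ) ≤ H * τ := by
      have h1 : (2 : ℝ) ≤ τ := by exact_mod_cast hτ2
      exact h1.trans (le_mul_of_one_le_left (by positivity) hH1')
    have hQ2 : 2 ≤ Q := by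
      have : (2 : ℝ) ≤ Q := by linarith only [hQ1, hHτ]
      exact_mod_cast this
    have haQ : 9 * (τ : ℝ) ≤ 1 / (2 * (H : ℝ)) * Q := by
      rw [one_div, inv_mul_eq_div, le_div_iff₀ (by positivity)]
      linarith only [hQ1, hHτ]
    have hb1 : 2 * p * q ≤ N := by
      have : ((2 * p * q : ℕ) : ℝ) ≤ N := by
        push_cast
        calc (2 * p * q : ℝ) = 2 * (p * q) := by ring
          _ ≤ G * G ^ 2 := by gcongr; linarith
          _ = G ^ 3 := by ring
          _ ≤ N := hGN 3 (by norm_num)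
      exact_mod_cast this
    have hb2 : 2 * q * τ ≤ N := by
      have : ((2 * q * τ : ℕ) : ℝ) ≤ N := by
        push_cast
        calc (2 * q * τ : ℝ) ≤ G * G * G ^ 2 := by gcongr; linarith
          _ = G ^ 4 := by ring
          _ ≤ N := hGN 4 (by norm_num)
      exact_mod_cast this
    have hpN' : p ≤ N := by
      calc p ≤ p * (2 * q) := Nat.le_mul_of_pos_right _ (by omega)
        _ = 2 * p * q := by ring
        _ ≤ N := hb1
    have hmain := hC p q r s₁ s₂ hE N τ h M C Q L L LL LL hrτ (by omega)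
      (fun l hl => ⟨(hLL1 l hl).1, (hLL1 l hl).2, Surf.FixedAux.cond1 (by omega) (by positivity)
        (hLL l hl).2.1 hKN hK1 hτ2 hQ2 hQK haQ⟩)
      (fun l hl => ⟨(hLL1 l hl).1, (hLL1 l hl).2, hclass l hl⟩)
      (by
        refine lt_of_le_of_lt (b := N ^ (τ + 1)) ?_ (Surf.FixedAux.prod_ge (by omega)
          (a := 1 / (2 * (H : ℝ))) (fun l hl => (hLL l hl).2.1) ?_)
        · rw [pow_succ, mul_comm]
          exact Nat.mul_le_mul_left _ hpN'
        · push_cast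
          rw [one_div, inv_mul_eq_div, lt_div_iff₀ (by positivity)]
          calc ((τ + 1) * (2 * H) : ℝ) ≤ (G ^ 2 + G ^ 2) * (2 * H) := by
                gcongr; exact one_le_pow₀ hG1
            _ = 4 * H * G ^ 2 := by ring
            _ < 24 * H * G ^ 2 := by
                have : 0 < (H : ℝ) * G ^ 2 := by positivity
                linarith
            _ ≤ G * G ^ 2 := by gcongr
            _ = G ^ 3 := by ring
            _ ≤ LL.card := hcardY 3 (by norm_num))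
      (by
        refine lt_of_le_of_lt (b := N ^ (Surf.FixedAux.E₁ p q τ + 1 + τ)) ?_
          (Surf.FixedAux.prod_ge (by omega) (a := 1 / (2 * (H : ℝ)))
          (fun l hl => (hLL l hl).2.1) ?_)
        · rw [pow_add, pow_add, pow_one]
          have := Surf.FixedAux.eB_le (τ := τ) (N := N) hE.hp.two_le hE.hq.two_le hτ2 (by omega)
            hb1 hb2 hKN
          gcongr
        · have h1 : ((Surf.FixedAux.E₁ p q τ + 1 + τ : ℕ) : ℝ) ≤ ((12 * (p * τ * K) : ℕ) : ℝ) := by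
            exact_mod_cast Surf.FixedAux.E₁_le hE.hp.two_le hE.hq.two_le hτ2
          refine lt_of_le_of_lt h1 ?_
          push_cast
          rw [one_div, inv_mul_eq_div, lt_div_iff₀ (by positivity)]
          have h2 : (p * τ * K : ℝ) ≤ G ^ 7 := by
            calc (p * τ * K : ℝ) ≤ G * G ^ 2 * G ^ 4 := by gcongr
              _ = G ^ 7 := by ring
          calc (12 * (p * τ * K) * (2 * H) : ℝ) ≤ 12 * G ^ 7 * (2 * H) := by gcongr
            _ = 24 * H * G ^ 7 := by ring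
            _ ≤ G * G ^ 7 := by gcongr
            _ = G ^ 8 := by ring
            _ < G ^ 9 := pow_lt_pow_right₀ (by linarith) (by norm_num)
            _ ≤ LL.card := hcardY 9 (by norm_num))
      hfib
    refine pb_mono hmain (fun P hP => hP) (Nat.le_floor ?_)
    have hMX : (M : ℝ) ≤ X ^ 10 := by
      refine (Nat.floor_le (by positivity)).trans (le_of_eq ?_)
      rw [hX, ← Real.rpow_natCast, ← Real.rpow_mul (by positivity)]
      congr 1
      push_cast
      ring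
    have hX1 : 1 ≤ X := Real.one_le_rpow hNR.le (by positivity)
    have hCX : (C : ℝ) ≤ G ^ 5 * X ^ 10 := by
      rw [hCdef]; push_cast
      have h1 : (A * M : ℝ) ≤ G ^ 3 * X ^ 10 := by gcongr
      have h2 : (64 * H * (64 * H * A * (LL.card * (L : ℝ) ^ 3)) : ℝ) ≤ G ^ 4 * X ^ 10 := by
        have h3 : (4096 * (H : ℝ) ^ 2) ≤ G := by
          have : (0 : ℝ) ≤ (H : ℝ) ^ 2 := by positivity
          linarith
        calc (64 * H * (64 * H * A * (LL.card * (L : ℝ) ^ 3)) : ℝ)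
            = (4096 * (H : ℝ) ^ 2) * A * (LL.card * (L : ℝ) ^ 3) := by ring
          _ ≤ G * G ^ 3 * (X * X ^ 3) := by gcongr
          _ = G ^ 4 * X ^ 4 := by ring
          _ ≤ G ^ 4 * X ^ 10 := by
              gcongr
              norm_num
      have h4 : G ^ 3 * X ^ 10 ≤ G ^ 4 * X ^ 10 := by
        gcongr
        norm_num
      have h5 : 2 * (G ^ 4 * X ^ 10) ≤ G * (G ^ 4 * X ^ 10) := by gcongr; linarith
      have h6 : G ^ 5 * X ^ 10 = G * (G ^ 4 * X ^ 10) := by ring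
      rw [h6]
      linarith
    push_cast
    calc (LL.card : ℝ) * ((L : ℝ) ^ 3 * (2 * p * τ * M + 2 * p * q * (LL.card *
          ((L : ℝ) ^ 3 * C))))
        ≤ X * (X ^ 3 * (2 * G * G ^ 2 * X ^ 10 + 2 * G * G * (X * (X ^ 3 *
          (G ^ 5 * X ^ 10))))) := by gcongr
      _ = 2 * G ^ 3 * X ^ 14 + 2 * G ^ 7 * X ^ 18 := by ring
      _ ≤ 2 * G ^ 7 * X ^ 18 + 2 * G ^ 7 * X ^ 18 := by
          have h1 : G ^ 3 * X ^ 14 ≤ G ^ 7 * X ^ 18 := by
            gcongr
            · norm_num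
            · norm_num
          linarith
      _ = 4 * (G ^ 7 * X ^ 18) := by ring
      _ ≤ G * (G ^ 7 * X ^ 18) := by gcongr; linarith
      _ = G ^ 8 * X ^ 18 := by ring
      _ ≤ X * X ^ 18 := by gcongr; exact hGX 8 (by norm_num)
      _ = X ^ 19 := by ring
      _ = (N : ℝ) ^ (19 / (H : ℝ)) := by
          rw [hX, ← Real.rpow_natCast, ← Real.rpow_mul (by positivity)]
          congr 1
          push_cast
          ring
      _ ≤ (N : ℝ) ^ ε := by
          apply Real.rpow_le_rpow_of_exponent_le hNR.le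
          rw [div_le_iff₀ hHpos]
          linarith

end Pool.Agent.Lib.MP_509488_nt.Wt
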