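import Pool.Agent.Lib.MP_509488_nt.Wt.Stmts
import Pool.Agent.Lib.MP_509488_nt.Surf.Curve
import Pool.Agent.Lib.MP_509488_nt.Sparse.Tay
import Pool.Agent.Lib.MP_509488_nt.Sparse.Wei

/-!
# Module Cls: the points of a one-dimensional class
-/

namespace Pool.Agent.Lib.MP_509488_nt.Wt

open Finset

namespace ClsAux

/-- The exponents of `X_a ^ i X_2 ^ k`, `i < D`, `k < I` (`a = 0` or `a = 1`). -/
noncomputable def ex (a : Fin 3) (D I : ℕ) : Finset (Fin 3 →₀ ℕ) :=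
  (Finset.range D ×ˢ Finset.range I).image
    (fun v => Finsupp.single a v.1 + Finsupp.single 2 v.2)

theorem ex_inj {a : Fin 3} (ha : a ≠ 2) :
    Function.Injective (fun v : ℕ × ℕ => (Finsupp.single a v.1 + Finsupp.single 2 v.2 :
      Fin 3 →₀ ℕ)) := by
  intro v w h
  have h1 := DFunLike.congr_fun h a
  have h2 := DFunLike.congr_fun h 2
  simp only [Finsupp.add_apply, Finsupp.single_eq_same, Finsupp.single_eq_of_ne ha,
    Finsupp.single_eq_of_ne ha.symm, add_zero, zero_add] at h1 h2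
  exact Prod.ext h1 h2

theorem ex_card {a : Fin 3} (ha : a ≠ 2) (D I : ℕ) : (ex a D I).card = D * I := by
  unfold ex
  rw [Finset.card_image_of_injective _ (ex_inj ha), Finset.card_product, Finset.card_range,
    Finset.card_range]

theorem mem_ex {a : Fin 3} (ha : a ≠ 2) {D I : ℕ} {m : Fin 3 →₀ ℕ} (hm : m ∈ ex a D I) :
    m a < D ∧ m 2 < I ∧ ∀ i, i ≠ a → i ≠ 2 → m i = 0 := by
  unfold ex at hm
  rw [Finset.mem_image] at hm
  obtain ⟨v, hv, rfl⟩ := hm
  rw [Finset.mem_product, Finset.mem_range, Finset.mem_range] at hv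
  refine ⟨?_, ?_, ?_⟩
  · simpa [Finsupp.single_eq_of_ne ha] using hv.1
  · simpa [Finsupp.single_eq_of_ne ha.symm] using hv.2
  · intro i h1 h2
    simp [Finsupp.single_eq_of_ne h1, Finsupp.single_eq_of_ne h2]

/-- Size of the monomials. -/
theorem ex_val {a : Fin 3} (ha : a ≠ 2) {D I A N : ℕ} {P : Pt} (hP : ∀ i, 1 ≤ P i)
    (hD : P a ^ D ≤ (N : ℤ) ^ A) (hz : P 2 ≤ N) {m : Fin 3 →₀ ℕ} (hm : m ∈ ex a D I) :
    ∏ i, P i ^ m i ≤ ((N ^ (A + I) : ℕ) : ℤ) := by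
  obtain ⟨h1, h2, h3⟩ := mem_ex ha hm
  have hN : (1 : ℤ) ≤ N := le_trans (hP 2) hz
  have e1 : ∏ i, P i ^ m i = ∏ i ∈ ({a, 2} : Finset (Fin 3)), P i ^ m i := by
    symm
    apply Finset.prod_subset (Finset.subset_univ _)
    intro i _ hi
    simp only [Finset.mem_insert, Finset.mem_singleton, not_or] at hi
    rw [h3 i hi.1 hi.2, pow_zero]
  rw [e1, Finset.prod_pair ha]
  have h4 : P a ^ m a ≤ (N : ℤ) ^ A := le_trans (pow_le_pow_right₀ (hP a) h1.le) hD
  have h5 : P 2 ^ m 2 ≤ (N : ℤ) ^ I := by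
    calc P 2 ^ m 2 ≤ (N : ℤ) ^ m 2 := pow_le_pow_left₀ (by have := hP 2; omega) hz _
      _ ≤ (N : ℤ) ^ I := pow_le_pow_right₀ hN h2.le
  push_cast
  rw [pow_add]
  exact mul_le_mul h4 h5 (pow_nonneg (by have := hP 2; omega) _) (by positivity)

theorem ex_abs {a : Fin 3} (ha : a ≠ 2) {D I A N : ℕ} {P : Pt} (hP : ∀ i, 1 ≤ P i)
    (hD : P a ^ D ≤ (N : ℤ) ^ A) (hz : P 2 ≤ N) {m : Fin 3 →₀ ℕ} (hm : m ∈ ex a D I) :
    |∏ i, P i ^ m i| ≤ ((N ^ (A + I) : ℕ) : ℤ) := by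
  rw [abs_of_nonneg (Finset.prod_nonneg fun i _ => pow_nonneg (by have := hP i; omega) _)]
  exact ex_val ha hP hD hz hm

/-- All exponents are at most `D + I`. -/
theorem ex_le {a : Fin 3} (ha : a ≠ 2) {D I : ℕ} {m : Fin 3 →₀ ℕ} (hm : m ∈ ex a D I)
    (i : Fin 3) : m i ≤ D + I := by
  obtain ⟨h1, h2, h3⟩ := mem_ex ha hm
  by_cases h4 : i = a
  · rw [h4]; omega
  · by_cases h5 : i = 2
    · rw [h5]; omega
    · rw [h3 i h4 h5]; omega

/-- The weights. -/
theorem wt_eq (p q r : ℕ) {m : Fin 3 →₀ ℕ} (h0 : m 0 = 0) :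
    Sparse.wt (ev p q r) m = (r * p) * m 1 + (p * q) * m 2 := by
  have h1 : Sparse.wt (ev p q r) m =
      ∑ i : Fin 3, (ev p q r (i + 1) * ev p q r (i + 2)) * m i := rfl
  rw [h1, Fin.sum_univ_three, h0]
  have h2 : ev p q r (1 + 1) = r := rfl
  have h3 : ev p q r (1 + 2) = p := rfl
  have h4 : ev p q r (2 + 1) = p := rfl
  have h5 : ev p q r (2 + 2) = q := rfl
  rw [h2, h3, h4, h5]
  ring

theorem wt_ex {p q r E D I : ℕ} (hp : p ≤ E) (hq : q ≤ E) (hr : r ≤ E) {m : Fin 3 →₀ ℕ}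
    (hm : m ∈ ex 1 D I) : Sparse.wt (ev p q r) m ≤ E ^ 2 * (D + I) := by
  obtain ⟨h1, h2, h3⟩ := mem_ex (by decide) hm
  have h0 := h3 0 (by decide) (by decide)
  have e1 : Sparse.wt (ev p q r) m = (r * p) * m 1 + (p * q) * m 2 := wt_eq p q r h0
  rw [e1]
  have a1 : r * p ≤ E ^ 2 := by rw [sq]; exact Nat.mul_le_mul hr hp
  have a2 : p * q ≤ E ^ 2 := by rw [sq]; exact Nat.mul_le_mul hp hq
  calc (r * p) * m 1 + (p * q) * m 2 ≤ E ^ 2 * D + E ^ 2 * I :=
        Nat.add_le_add (Nat.mul_le_mul a1 h1.le) (Nat.mul_le_mul a2 h2.le)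
    _ = E ^ 2 * (D + I) := by ring

theorem wt_inj {p q r D I : ℕ} (hp : p.Prime) (hq : q.Prime) (hr : r.Prime) (hqr : q ≠ r)
    (hD : D ≤ q) : Set.InjOn (Sparse.wt (ev p q r)) (ex 1 D I : Set (Fin 3 →₀ ℕ)) := by
  intro m hm m' hm' h
  rw [Finset.mem_coe] at hm hm'
  obtain ⟨h1, h2, h3⟩ := mem_ex (by decide) hm
  obtain ⟨h1', h2', h3'⟩ := mem_ex (by decide) hm'
  have h0 := h3 0 (by decide) (by decide)
  have h0' := h3' 0 (by decide) (by decide)
  have e1 : Sparse.wt (ev p q r) m = (r * p) * m 1 + (p * q) * m 2 := wt_eq p q r h0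
  have e2 : Sparse.wt (ev p q r) m' = (r * p) * m' 1 + (p * q) * m' 2 := wt_eq p q r h0'
  rw [e1, e2] at h
  have e3 : p * (r * m 1 + q * m 2) = p * (r * m' 1 + q * m' 2) := by linarith
  have e4 : r * m 1 + q * m 2 = r * m' 1 + q * m' 2 := Nat.eq_of_mul_eq_mul_left hp.pos e3
  have hcop : IsCoprime (q : ℤ) (r : ℤ) :=
    Nat.isCoprime_iff_coprime.2 ((Nat.coprime_primes hq hr).2 hqr)
  have e5 : (r : ℤ) * ((m 1 : ℤ) - m' 1) = q * ((m' 2 : ℤ) - m 2) := by
    have : ((r * m 1 + q * m 2 : ℕ) : ℤ) = ((r * m' 1 + q * m' 2 : ℕ) : ℤ) := by rw [e4]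
    push_cast at this
    linarith
  have e6 : (q : ℤ) ∣ (m 1 : ℤ) - m' 1 := hcop.dvd_of_dvd_mul_left ⟨_, e5⟩
  have e7 : (m 1 : ℤ) - m' 1 = 0 := by
    apply Int.eq_zero_of_abs_lt_dvd e6
    rw [abs_lt]
    constructor <;> omega
  have e8 : m 1 = m' 1 := by omega
  have e9 : m 2 = m' 2 := by
    rw [e8] at e4
    have : q * m 2 = q * m' 2 := by omega
    exact Nat.eq_of_mul_eq_mul_left hq.pos this
  ext i
  fin_cases i
  · exact h0.trans h0'.symm
  · exact e8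
  · exact e9

theorem eval_fpoly {p q r : ℕ} {s₁ s₂ : ℤ} {P : Pt} (h : Surf.Eqn p q r s₁ s₂ P) :
    MvPolynomial.eval P (Sparse.fpoly (sg s₁ s₂) (ev p q r)) = 0 := by
  unfold Surf.Eqn at h
  rw [Sparse.fpoly, map_sum, Fin.sum_univ_three]
  simp only [map_mul, MvPolynomial.eval_C, map_pow, MvPolynomial.eval_X]
  have h1 : sg s₁ s₂ 0 = -1 := rfl
  have h2 : sg s₁ s₂ 1 = s₂ := rfl
  have h3 : sg s₁ s₂ 2 = s₁ := rfl
  have h4 : ev p q r 0 = p := rfl
  have h5 : ev p q r 1 = q := rfl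
  have h6 : ev p q r 2 = r := rfl
  rw [h1, h2, h3, h4, h5, h6, h]
  ring

end ClsAux

open ClsAux in
theorem stCls (hP : StPig) (hS : StSep) (hI : StInj) (hM : StMult) (hD : StDer) (hJ : StJac) :
    StCls := by
  classical
  intro p q r s₁ s₂ hx N τ h E ℓ b D I A M R LL S hN hpE hqE hrE hℓ hb hbD hDq hloc hSG hsz hlt
    hsm hLL hprod hfib
  have hDI : 0 < D * I := by omega
  have hD0 : 0 < D := Nat.pos_of_mul_pos_right hDI
  have hI0 : 0 < I := Nat.pos_of_mul_pos_left hDI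
  have hE0 : 1 ≤ E := le_trans hx.hp.one_le hpE
  set V : ℕ := N ^ (A + I) with hV
  set B : ℕ := ℓ ^ b with hB
  set W : ℕ := E ^ 2 * (D + I) with hW
  set X : ℕ := gB E D I B V with hX
  have hW1 : D + I ≤ W := by
    rw [hW]
    exact Nat.le_mul_of_pos_left _ (by positivity)
  have hW0 : 1 ≤ W := by omega
  have hpos : ∀ P ∈ S, ∀ i, 1 ≤ P i := fun P hPS => (hSG hPS).2.1
  have hz : ∀ P ∈ S, P 2 ≤ N := fun P hPS => (hSG hPS).2.2.2.2.2.1
  -- the two auxiliary polynomials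
  obtain ⟨G₁, hG₁, hG₁s, hG₁c, hG₁v⟩ := hP ℓ b V (ex 0 D I) S hℓ hb
    (by rw [ex_card (by decide)]; exact hbD) hloc
    (fun P hPS m hm => ex_abs (by decide) (hpos P hPS) (hsz P hPS).1 (hz P hPS) hm)
    (by rw [ex_card (by decide)]; exact hlt)
  obtain ⟨G₂, hG₂, hG₂s, hG₂c, hG₂v⟩ := hP ℓ b V (ex 1 D I) S hℓ hb
    (by rw [ex_card (by decide)]; exact hbD) hloc
    (fun P hPS m hm => ex_abs (by decide) (hpos P hPS) (hsz P hPS).2 (hz P hPS) hm)
    (by rw [ex_card (by decide)]; exact hlt)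
  have hG₁c' : ∀ d, |G₁.coeff d| ≤ ((B : ℕ) : ℤ) := by
    intro d
    rw [hB]
    push_cast
    exact hG₁c d
  have hG₂c' : ∀ d, |G₂.coeff d| ≤ ((B : ℕ) : ℤ) := by
    intro d
    rw [hB]
    push_cast
    exact hG₂c d
  obtain ⟨Z, hZ, hZP⟩ := hM D I G₁ hG₁ (fun m hm => by
    obtain ⟨h1, h2, h3⟩ := mem_ex (by decide) (hG₁s hm)
    exact ⟨h1, h3 1 (by decide) (by decide), h2⟩)
  have hcard₂ : G₂.support.card ≤ D * I := by
    rw [← ex_card (a := 1) (by decide) D I]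
    exact Finset.card_le_card hG₂s
  -- every point of `S` with `z` not in `Z`
  have hkey : ∀ P ∈ S, P 2 ∉ Z → ∃ j < D, ∃ k < D * I,
      MvPolynomial.eval P (dit 0 j G₁) = 0 ∧
      MvPolynomial.eval P (Sparse.eulk (ev p q r) k G₂) = 0 ∧
      ∃ l ∈ LL, ¬ (l : ℤ) ∣ Sparse.jac ![Sparse.fpoly (sg s₁ s₂) (ev p q r), dit 0 j G₁,
        Sparse.eulk (ev p q r) k G₂] P := by
    intro P hPS hPZ
    obtain ⟨j, hj, hj0, hj1⟩ := hZP P (hG₁v P hPS) hPZ
    have hinj : Set.InjOn (Sparse.wt (ev p q r)) (G₂.support : Set (Fin 3 →₀ ℕ)) := by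
      refine Set.InjOn.mono ?_ (wt_inj (I := I) hx.hp hx.hq hx.hr hx.qr hDq)
      exact_mod_cast hG₂s
    have hno : ¬ ∀ w, Sparse.comp (ev p q r) w G₂ P = 0 :=
      hI (ev p q r) G₂ P hG₂ (fun i => by have := hpos P hPS i; omega) hinj
    obtain ⟨k, hk, hk0, hk1⟩ := (hS (ev p q r) G₂ P (hG₂v P hPS)).resolve_right hno
    have hk' : k < D * I := lt_of_lt_of_le hk hcard₂
    refine ⟨j, hj, k, hk', hj0, hk0, ?_⟩
    have hd1 := (hD (ex 0 D I) B V (D + I) G₁ P hG₁s hG₁c' (fun m hm i => ex_le (by decide) hm i)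
      (hpos P hPS) (fun m hm => ex_val (by decide) (hpos P hPS) (hsz P hPS).1 (hz P hPS) hm)).1
    have hd2 := (hD (ex 1 D I) B V (D + I) G₂ P hG₂s hG₂c' (fun m hm i => ex_le (by decide) hm i)
      (hpos P hPS) (fun m hm => ex_val (by decide) (hpos P hPS) (hsz P hPS).2 (hz P hPS) hm)).2
    have hb1 : ∀ i, |MvPolynomial.eval P (MvPolynomial.pderiv i (dit 0 j G₁))| ≤ (X : ℤ) := by
      intro i
      refine (hd1 0 i j).trans ?_
      rw [ex_card (by decide), hX, gB]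
      have e1 : (D + I) ^ (j + 1) ≤ (E ^ 2 * (D + I)) ^ (D * I + 1) := by
        calc (D + I) ^ (j + 1) ≤ W ^ (j + 1) := Nat.pow_le_pow_left hW1 _
          _ ≤ W ^ (D * I + 1) := by
            apply Nat.pow_le_pow_right hW0
            have : D ≤ D * I := Nat.le_mul_of_pos_right _ hI0
            omega
      exact_mod_cast Nat.mul_le_mul_right V (Nat.mul_le_mul_left (D * I * B) e1)
    have hb2 : ∀ i, |MvPolynomial.eval P (MvPolynomial.pderiv i
        (Sparse.eulk (ev p q r) k G₂))| ≤ (X : ℤ) := by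
      intro i
      refine (hd2 (ev p q r) W k i (fun m hm => wt_ex hpE hqE hrE hm)).trans ?_
      rw [ex_card (by decide), hX, gB]
      have e1 : W ^ k * (D + I) ≤ (E ^ 2 * (D + I)) ^ (D * I + 1) := by
        calc W ^ k * (D + I) ≤ W ^ k * W := Nat.mul_le_mul_left _ hW1
          _ = W ^ (k + 1) := by rw [pow_succ]
          _ ≤ W ^ (D * I + 1) := Nat.pow_le_pow_right hW0 (by omega)
      have e2 : D * I * B * W ^ k * (D + I) * V ≤
          D * I * B * (E ^ 2 * (D + I)) ^ (D * I + 1) * V := by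
        calc D * I * B * W ^ k * (D + I) * V = D * I * B * (W ^ k * (D + I)) * V := by ring
          _ ≤ _ := Nat.mul_le_mul_right V (Nat.mul_le_mul_left (D * I * B) e1)
      exact_mod_cast e2
    have hv : (0 : Fin 3) ∉ (Sparse.eulk (ev p q r) k G₂).vars := by
      intro h0
      rw [MvPolynomial.mem_vars_iff_mem_support] at h0
      obtain ⟨d, hd, hd0⟩ := h0
      rw [MvPolynomial.mem_support_iff, Sparse.coeff_eulk] at hd
      have hd' : d ∈ G₂.support := MvPolynomial.mem_support_iff.2 (left_ne_zero_of_mul hd)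
      have := (mem_ex (by decide) (hG₂s hd')).2.2 0 (by decide) (by decide)
      exact (Finsupp.mem_support_iff.1 hd0) this
    obtain ⟨hj1', hj2'⟩ := hJ p q r s₁ s₂ hx N τ h E X P 0 (dit 0 j G₁)
      (Sparse.eulk (ev p q r) k G₂) (hSG hPS) hpE hqE hrE hsm hb1 hb2 hk1 hj1 hv
    apply Surf.CurveAux.exists_not_dvd LL (fun l hl => (hLL l hl).1) _ hj1'
    refine lt_of_lt_of_le hj2' ?_
    exact_mod_cast hprod
  -- counting
  intro T hT
  have hsub : T ⊆ (Z.biUnion fun z => T.filter fun P => P 2 = z) ∪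
      ((Finset.range D ×ˢ Finset.range (D * I)).biUnion fun v => T.filter fun P =>
        MvPolynomial.eval P (dit 0 v.1 G₁) = 0 ∧
        MvPolynomial.eval P (Sparse.eulk (ev p q r) v.2 G₂) = 0 ∧
        ∃ l ∈ LL, ¬ (l : ℤ) ∣ Sparse.jac ![Sparse.fpoly (sg s₁ s₂) (ev p q r), dit 0 v.1 G₁,
          Sparse.eulk (ev p q r) v.2 G₂] P) := by
    intro P hPT
    rw [Finset.mem_union]
    by_cases hPZ : P 2 ∈ Z
    · left
      rw [Finset.mem_biUnion]
      exact ⟨P 2, hPZ, Finset.mem_filter.2 ⟨hPT, rfl⟩⟩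
    · right
      obtain ⟨j, hj, k, hk, h1, h2, h3⟩ := hkey P (hT P hPT) hPZ
      rw [Finset.mem_biUnion]
      refine ⟨(j, k), ?_, Finset.mem_filter.2 ⟨hPT, h1, h2, h3⟩⟩
      rw [Finset.mem_product, Finset.mem_range, Finset.mem_range]
      exact ⟨hj, hk⟩
  have hc1 : (Z.biUnion fun z => T.filter fun P => P 2 = z).card ≤ I * M := by
    calc _ ≤ ∑ z ∈ Z, (T.filter fun P => P 2 = z).card := Finset.card_biUnion_le
      _ ≤ ∑ z ∈ Z, M := by
          refine Finset.sum_le_sum fun z _ => hfib z _ ?_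
          intro P hPT
          rw [Finset.mem_filter] at hPT
          exact ⟨hT P hPT.1, hPT.2⟩
      _ = Z.card * M := by rw [Finset.sum_const, smul_eq_mul]
      _ ≤ I * M := Nat.mul_le_mul_right _ hZ
  have hc2 : ((Finset.range D ×ˢ Finset.range (D * I)).biUnion fun v => T.filter fun P =>
        MvPolynomial.eval P (dit 0 v.1 G₁) = 0 ∧
        MvPolynomial.eval P (Sparse.eulk (ev p q r) v.2 G₂) = 0 ∧
        ∃ l ∈ LL, ¬ (l : ℤ) ∣ Sparse.jac ![Sparse.fpoly (sg s₁ s₂) (ev p q r), dit 0 v.1 G₁,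
          Sparse.eulk (ev p q r) v.2 G₂] P).card ≤ D * (D * I * (LL.card * R ^ 3)) := by
    calc _ ≤ ∑ v ∈ Finset.range D ×ˢ Finset.range (D * I), _ := Finset.card_biUnion_le
      _ ≤ ∑ v ∈ Finset.range D ×ˢ Finset.range (D * I), LL.card * R ^ 3 := by
          refine Finset.sum_le_sum fun v _ => ?_
          refine Sparse.nonDeg Sparse.taylor ![Sparse.fpoly (sg s₁ s₂) (ev p q r), dit 0 v.1 G₁,
            Sparse.eulk (ev p q r) v.2 G₂] _ LL R hLL ?_
          intro P hPT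
          rw [Finset.mem_filter] at hPT
          obtain ⟨hPT, h1, h2, h3⟩ := hPT
          refine ⟨?_, h3⟩
          intro i
          fin_cases i
          · exact eval_fpoly (hSG (hT P hPT)).1
          · exact h1
          · exact h2
      _ = D * (D * I * (LL.card * R ^ 3)) := by
          rw [Finset.sum_const, smul_eq_mul, Finset.card_product, Finset.card_range,
            Finset.card_range]
          ring
  calc T.card ≤ _ := Finset.card_le_card hsub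
    _ ≤ _ := Finset.card_union_le _ _
    _ ≤ I * M + D * (D * I * (LL.card * R ^ 3)) := Nat.add_le_add hc1 hc2

end Pool.Agent.Lib.MP_509488_nt.Wt
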