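import Pool.Agent.Lib.MP_509488_nt.Wt.Crv

/-!
# Module Cnt: all solutions for one signature, non-asymptotic form
-/

namespace Pool.Agent.Lib.MP_509488_nt.Wt

open Finset Polynomial

open CrvAux in
theorem stCnt (hD : Surf.StLocSurf) (hJ : Surf.StSurf) (hK : Surf.StElim) (hI : StCrv) :
    StCnt := by
  classical
  intro p q r s₁ s₂ hx N τ h M C K L₁ L₂ LL₁ LL₂ hrτ hN hLL₁ hLL₂ hp₁ hp₂ hfib
  have hp1 : 1 ≤ p := hx.hp.one_lt.le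
  have hq1 : 1 ≤ q := hx.hq.one_lt.le
  have hr1 : 1 ≤ r := hx.hr.one_lt.le
  have hτ1 : 1 ≤ τ := by omega
  have hNZ : (1 : ℤ) ≤ N := by exact_mod_cast hN
  have hNτ : (N : ℤ) ≤ (N : ℤ) ^ τ := by
    calc (N : ℤ) = (N : ℤ) ^ 1 := (pow_one _).symm
      _ ≤ (N : ℤ) ^ τ := pow_le_pow_right₀ hNZ hτ1
  -- the bound for one class
  set b : ℕ := 2 * p * τ * M + 2 * p * q * (LL₂.card * (L₂ ^ 3 * C)) with hb
  have hclass : ∀ ℓ ∈ LL₁, ∀ T : Set Pt, (∀ P ∈ T, P ∈ Good p q r s₁ s₂ N τ h) → ∀ P₀ : Pt,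
      (∀ P ∈ T, ∀ i, (ℓ : ℤ) ∣ P i - P₀ i) → ¬ (ℓ : ℤ) ∣ p * P₀ 0 → PB T b := by
    intro ℓ hℓ T hT P₀ hres hnd
    obtain ⟨l1, l2, l3⟩ := hLL₁ ℓ hℓ
    have hloc : Surf.Loc 2 ℓ T := hD ℓ p q r s₁ s₂ T P₀ l1 (fun P hP => (hT P hP).1) hres hnd
    obtain ⟨c, hc0, hcB, hcv⟩ := hJ p q τ N K ℓ T hp1 hq1 hτ1 hN hloc
      (fun P hP => by
        obtain ⟨g1, g2, g3, g4, g5, g6, g7⟩ := hT P hP
        rw [abs_of_nonneg (by have := g2 0; omega), abs_of_nonneg (by have := g2 1; omega),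
          abs_of_nonneg (by have := g2 2; omega)]
        exact ⟨g4, g5, g6⟩) l3
    obtain ⟨H, hH0, hH1, hH2, hHv, hHB⟩ := hK p q r τ (Surf.hB p q τ N) s₁ s₂ c hp1 hq1 hr1 hrτ
      (exps_coprime hx) hx.e₁ hx.e₂ hc0 hcB
    refine hI p q r s₁ s₂ hx N τ h (2 * p * q) (2 * p * τ)
      (Surf.eB p q τ (Surf.hB p q τ N) (N ^ τ)) L₂ M C H
      LL₂ T hN hT hH0 hH1 hH2 ?_ hp₂ ?_ ?_ ?_
    · intro l hl
      obtain ⟨m1, m2, m3⟩ := hLL₂ l hl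
      exact ⟨m1, m2, fun S' hS' hloc' => m3 S' (fun P hP => hT P (hS' hP)) hloc'⟩
    · intro P hP k
      obtain ⟨g1, g2, g3, g4, g5, g6, g7⟩ := hT P hP
      refine hHB k (N ^ τ) (P 1) (P 2) ?_ ?_
      · push_cast
        exact abs_le_of_pow hq1 (g2 1) g5
      · push_cast
        rw [abs_of_nonneg (by have := g2 2; omega)]
        exact g6.trans hNτ
    · intro P hP
      exact hHv _ _ _ (hT P hP).1 (hcv P hP)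
    · intro z
      refine pb_mono ?_ (hfib z)
      intro P hP
      exact ⟨hT P hP.1, hP.2⟩
  refine pb_biUnion LL₁ (fun ℓ => {P | P ∈ Good p q r s₁ s₂ N τ h ∧ ¬ (ℓ : ℤ) ∣ p * P 0})
    (L₁ ^ 3 * b) _ ?_ ?_
  · intro P hP
    obtain ⟨g1, g2, g3, g4, g5, g6, g7⟩ := id hP
    have hp0 : (p : ℤ) ≠ 0 := by omega
    have g20 : P 0 ≠ 0 := by have := g2 0; omega
    have hne : (p : ℤ) * P 0 ≠ 0 := mul_ne_zero hp0 g20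
    have hlt : |(p : ℤ) * P 0| < ((∏ ℓ ∈ LL₁, ℓ : ℕ) : ℤ) := by
      have h3 : |(p : ℤ) * P 0| ≤ (p : ℤ) * (N : ℤ) ^ τ := by
        rw [abs_mul, Nat.abs_cast]
        exact mul_le_mul_of_nonneg_left (abs_le_of_pow hp1 (g2 0) g4) (by positivity)
      have h5 : ((p * N ^ τ : ℕ) : ℤ) < ((∏ ℓ ∈ LL₁, ℓ : ℕ) : ℤ) := by exact_mod_cast hp₁
      push_cast at h5 ⊢
      exact lt_of_le_of_lt h3 h5
    obtain ⟨ℓ, hℓ, hnd⟩ := Surf.CurveAux.exists_not_dvd LL₁ (fun ℓ hℓ => (hLL₁ ℓ hℓ).1) _ hne hlt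
    exact ⟨ℓ, hℓ, hP, hnd⟩
  · intro ℓ hℓ
    obtain ⟨l1, l2, l3⟩ := hLL₁ ℓ hℓ
    refine pb_res l1 l2 _ ?_
    intro P₀ hP₀
    exact hclass ℓ hℓ _ (fun P hP => hP.1.1) P₀ (fun P hP => hP.2) hP₀.2

end Pool.Agent.Lib.MP_509488_nt.Wt
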