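import Pool.Agent.Lib.MP_509488_nt.Wt.Stmts

/-!
# One small base, few solutions: few coprime pairs on binary forms (module 4)
-/

namespace Pool.Agent.Lib.MP_509488_nt.Wt

open Finset

namespace CompAux

theorem wt_eq (p q r : ℕ) (m : Fin 3 →₀ ℕ) :
    Sparse.wt (ev p q r) m = q * r * m 0 + r * p * m 1 + p * q * m 2 := by
  rw [Sparse.wt, Fin.sum_univ_three]
  rfl

theorem ext3 {m m' : Fin 3 →₀ ℕ} (h0 : m 0 = m' 0) (h1 : m 1 = m' 1) (h2 : m 2 = m' 2) :
    m = m' := by
  ext i
  fin_cases i <;> assumption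

/-- Two coprime positive pairs with the same quotient are equal. -/
theorem pair_eq {x y x' y' : ℤ} (hx : 1 ≤ x) (hx' : 1 ≤ x')
    (hc : IsCoprime x y) (hc' : IsCoprime x' y') (h : x * y' = x' * y) : x = x' ∧ y = y' := by
  have h1 : x ∣ x' := by
    have : x ∣ x' * y := ⟨y', h.symm⟩
    exact hc.dvd_of_dvd_mul_right this
  have h2 : x' ∣ x := by
    have : x' ∣ x * y' := ⟨y, h⟩
    exact hc'.dvd_of_dvd_mul_right this
  have h3 : x = x' := Int.dvd_antisymm (by omega) (by omega) h1 h2
  subst h3
  refine ⟨rfl, ?_⟩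
  have h4 := mul_left_cancel₀ (by omega : x ≠ 0) h
  exact h4.symm

end CompAux

open CompAux in
theorem stComp (hI : StInj) : StComp := by
  classical
  intro p q r hp hq hr D G hG hsupp hD z T hT
  by_cases hpq : p = q
  · -- all weights are multiples of the degree
    subst hpq
    obtain ⟨m₀, hm₀⟩ := MvPolynomial.support_nonempty.mpr hG
    set w := Sparse.wt (ev p p r) m₀ with hw
    have hpr : 0 < r * p := Nat.mul_pos hr.pos hp.pos
    have hdeg : ∀ m ∈ G.support.filter (fun m => Sparse.wt (ev p p r) m = w),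
        m 0 + m 1 = m₀ 0 + m₀ 1 := by
      intro m hm
      rw [mem_filter] at hm
      have h1 := hm.2
      rw [hw, wt_eq, wt_eq, (hsupp m hm.1).2, (hsupp m₀ hm₀).2] at h1
      have h2 : r * p * (m 0 + m 1) = r * p * (m₀ 0 + m₀ 1) := by linarith
      exact Nat.eq_of_mul_eq_mul_left hpr h2
    set f : Polynomial ℚ := ∑ m ∈ G.support.filter (fun m => Sparse.wt (ev p p r) m = w),
      Polynomial.monomial (m 0) ((G.coeff m : ℤ) : ℚ) with hf
    have hmem : m₀ ∈ G.support.filter (fun m => Sparse.wt (ev p p r) m = w) :=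
      mem_filter.mpr ⟨hm₀, rfl⟩
    have hcoeff : f.coeff (m₀ 0) = ((G.coeff m₀ : ℤ) : ℚ) := by
      rw [hf, Polynomial.finsetSum_coeff]
      rw [Finset.sum_eq_single m₀]
      · simp
      · intro m hm hne
        rw [Polynomial.coeff_monomial, if_neg]
        intro h0
        apply hne
        have h1 := hdeg m hm
        rw [mem_filter] at hm
        exact ext3 h0 (by omega) (by rw [(hsupp m hm.1).2, (hsupp m₀ hm₀).2])
      · intro h; exact absurd hmem h
    have hf0 : f ≠ 0 := by
      intro h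
      rw [h, Polynomial.coeff_zero] at hcoeff
      rw [MvPolynomial.mem_support_iff] at hm₀
      exact hm₀ (by exact_mod_cast hcoeff.symm)
    have hfd : f.natDegree < D := by
      have h0 : 0 < D := lt_of_le_of_lt (Nat.zero_le _) (hsupp m₀ hm₀).1
      have : f.natDegree ≤ D - 1 := by
        rw [hf]
        refine Polynomial.natDegree_sum_le_of_forall_le _ _ fun m hm => ?_
        rw [mem_filter] at hm
        refine (Polynomial.natDegree_monomial_le _).trans ?_
        have := (hsupp m hm.1).1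
        omega
      omega
    -- the quotients are roots
    have hroot : ∀ P ∈ T, ((P 0 : ℤ) : ℚ) / ((P 1 : ℤ) : ℚ) ∈ f.roots.toFinset := by
      intro P hP
      obtain ⟨hpos, hcop, hz, hcomp⟩ := hT P hP
      rw [Multiset.mem_toFinset, Polynomial.mem_roots hf0, Polynomial.IsRoot.def]
      have hy : ((P 1 : ℤ) : ℚ) ≠ 0 := by
        have := hpos 1
        exact_mod_cast (by omega : P 1 ≠ 0)
      have h1 := hcomp w
      rw [Sparse.comp] at h1
      have h2 : ((P 1 : ℤ) : ℚ) ^ (m₀ 0 + m₀ 1) * f.eval (((P 0 : ℤ) : ℚ) / ((P 1 : ℤ) : ℚ)) =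
          ((∑ m ∈ G.support.filter (fun m => Sparse.wt (ev p p r) m = w),
            G.coeff m * ∏ i, P i ^ m i : ℤ) : ℚ) := by
        rw [hf, Polynomial.eval_finsetSum, mul_sum]
        push_cast
        refine sum_congr rfl fun m hm => ?_
        rw [Polynomial.eval_monomial, ← hdeg m hm, Fin.prod_univ_three]
        rw [mem_filter] at hm
        rw [(hsupp m hm.1).2, pow_zero, mul_one, pow_add, div_pow]
        field_simp
      rw [h1] at h2
      have h3 := mul_eq_zero.mp (h2.trans Int.cast_zero)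
      exact h3.resolve_left (pow_ne_zero _ hy)
    have hinj : Set.InjOn (fun P : Pt => ((P 0 : ℤ) : ℚ) / ((P 1 : ℤ) : ℚ)) (T : Set Pt) := by
      intro P hP P' hP' hPP
      obtain ⟨hpos, hcop, hz, -⟩ := hT P hP
      obtain ⟨hpos', hcop', hz', -⟩ := hT P' hP'
      have hy : ((P 1 : ℤ) : ℚ) ≠ 0 := by
        have := hpos 1
        exact_mod_cast (by omega : P 1 ≠ 0)
      have hy' : ((P' 1 : ℤ) : ℚ) ≠ 0 := by
        have := hpos' 1
        exact_mod_cast (by omega : P' 1 ≠ 0)
      simp only [] at hPP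
      rw [div_eq_div_iff hy hy'] at hPP
      have h4 : P 0 * P' 1 = P' 0 * P 1 := by exact_mod_cast hPP
      obtain ⟨e0, e1⟩ := pair_eq (hpos 0) (hpos' 0)
        (hcop 0 1 (by decide)) (hcop' 0 1 (by decide)) h4
      funext i
      fin_cases i
      · exact e0
      · exact e1
      · exact hz.trans hz'.symm
    calc T.card ≤ f.roots.toFinset.card := card_le_card_of_injOn _ hroot hinj
      _ ≤ f.natDegree := (Multiset.toFinset_card_le _).trans (Polynomial.card_roots' f)
      _ ≤ D := hfd.le
  · -- different weights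
    have hinj : Set.InjOn (Sparse.wt (ev p q r)) (G.support : Set (Fin 3 →₀ ℕ)) := by
      intro m hm m' hm' h
      have hm1 := hsupp m hm
      have hm2 := hsupp m' hm'
      rw [wt_eq, wt_eq, hm1.2, hm2.2] at h
      have h1 : r * (q * m 0 + p * m 1) = r * (q * m' 0 + p * m' 1) := by linarith
      have h2 := Nat.eq_of_mul_eq_mul_left hr.pos h1
      have h3 : m 0 = m' 0 := by
        have h4 : (q * m 0) ≡ (q * m' 0) [MOD p] := by
          have h5 : (q * m 0 + p * m 1) ≡ (q * m' 0 + p * m' 1) [MOD p] := by rw [h2]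
          have h6 : q * m 0 + p * m 1 ≡ q * m 0 [MOD p] := by
            simp [Nat.ModEq]
          have h7 : q * m' 0 + p * m' 1 ≡ q * m' 0 [MOD p] := by
            simp [Nat.ModEq]
          exact h6.symm.trans (h5.trans h7)
        have h8 : Nat.gcd p q = 1 := (Nat.coprime_primes hp hq).mpr hpq
        have h9 := Nat.ModEq.cancel_left_of_coprime h8 h4
        exact Nat.ModEq.eq_of_lt_of_lt h9 (lt_of_lt_of_le hm1.1 hD) (lt_of_lt_of_le hm2.1 hD)
      rw [h3] at h2
      have h5 : p * m 1 = p * m' 1 := by omega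
      exact ext3 h3 (Nat.eq_of_mul_eq_mul_left hp.pos h5) (hm1.2.trans hm2.2.symm)
    have hemp : T = ∅ := by
      rw [Finset.eq_empty_iff_forall_notMem]
      intro P hP
      obtain ⟨hpos, -, -, hcomp⟩ := hT P hP
      refine hI (ev p q r) G P hG (fun i => ?_) hinj hcomp
      have := hpos i
      omega
    rw [hemp, card_empty]
    exact Nat.zero_le _

end Pool.Agent.Lib.MP_509488_nt.Wt
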