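import Pool.Agent.Lib.MP_509488_nt.Wt.Stmts

/-! Module (6) of Wt: bounds for the gradients. -/

namespace Pool.Agent.Lib.MP_509488_nt.Wt

open Finset MvPolynomial

namespace DerAux

/-- The value of a monomial. -/
def mv (P : Pt) (m : Fin 3 →₀ ℕ) : ℤ := ∏ i, P i ^ m i

lemma mv_pos {P : Pt} (hP : ∀ i, 1 ≤ P i) (m : Fin 3 →₀ ℕ) : 0 < mv P m :=
  prod_pos fun i _ => pow_pos (by linarith [hP i]) _

lemma mv_mono {P : Pt} (hP : ∀ i, 1 ≤ P i) {m m' : Fin 3 →₀ ℕ} (h : m ≤ m') :
    mv P m ≤ mv P m' :=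
  prod_le_prod (fun i _ => (pow_pos (by linarith [hP i]) _).le)
    fun i _ => pow_le_pow_right₀ (hP i) (h i)

lemma eval_mono (P : Pt) (m : Fin 3 →₀ ℕ) (a : ℤ) : eval P (monomial m a) = a * mv P m := by
  rw [eval_monomial, Finsupp.prod_fintype _ _ (by simp)]
  rfl

/-- one derivative of a monomial -/
lemma one {P : Pt} (hP : ∀ i, 1 ≤ P i) {D : ℕ} {m : Fin 3 →₀ ℕ} (hm : ∀ i, m i ≤ D) (a : ℤ)
    (i : Fin 3) : |eval P (pderiv i (monomial m a))| ≤ |a| * D * mv P m := by
  rw [pderiv_monomial, eval_mono, abs_mul, abs_mul, abs_of_pos (mv_pos hP _)]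
  have h1 : |((m i : ℕ) : ℤ)| ≤ D := by
    rw [abs_of_nonneg (by positivity)]
    exact_mod_cast hm i
  have h2 := mv_mono hP (tsub_le_self : m - Finsupp.single i 1 ≤ m)
  have h3 := (mv_pos hP (m - Finsupp.single i 1)).le
  have h4 := abs_nonneg a
  gcongr

lemma dit_zero (t : Fin 3) (G : Pol) : dit t 0 G = G := rfl

lemma dit_succ (t : Fin 3) (j : ℕ) (G : Pol) : dit t (j + 1) G = dit t j (pderiv t G) := rfl

lemma dit_sum (t : Fin 3) (j : ℕ) (E : Finset (Fin 3 →₀ ℕ)) (f : (Fin 3 →₀ ℕ) → Pol) :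
    dit t j (∑ m ∈ E, f m) = ∑ m ∈ E, dit t j (f m) := by
  induction j generalizing f with
  | zero => rfl
  | succ j ih =>
    rw [dit_succ, map_sum, ih]
    rfl

/-- iterated derivative of a monomial -/
lemma iter {P : Pt} (hP : ∀ i, 1 ≤ P i) {D : ℕ} (t i : Fin 3) (j : ℕ) :
    ∀ (m : Fin 3 →₀ ℕ) (_ : ∀ i, m i ≤ D) (a : ℤ),
      |eval P (pderiv i (dit t j (monomial m a)))| ≤ |a| * D ^ (j + 1) * mv P m := by
  induction j with
  | zero =>
    intro m hm a
    rw [dit_zero, zero_add, pow_one]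
    exact one hP hm a i
  | succ j ih =>
    intro m hm a
    rw [dit_succ, pderiv_monomial]
    have hm' : ∀ i, (m - Finsupp.single t 1 : Fin 3 →₀ ℕ) i ≤ D := fun i =>
      le_trans ((tsub_le_self : m - Finsupp.single t 1 ≤ m) i) (hm i)
    refine (ih _ hm' _).trans ?_
    rw [abs_mul]
    have h1 : |((m t : ℕ) : ℤ)| ≤ D := by
      rw [abs_of_nonneg (by positivity)]
      exact_mod_cast hm t
    have h2 := mv_mono hP (tsub_le_self : m - Finsupp.single t 1 ≤ m)
    have h3 := (mv_pos hP (m - Finsupp.single t 1)).le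
    have h4 := abs_nonneg a
    calc |a| * |((m t : ℕ) : ℤ)| * (D : ℤ) ^ (j + 1) * mv P (m - Finsupp.single t 1)
        ≤ |a| * D * (D : ℤ) ^ (j + 1) * mv P m := by gcongr
      _ = |a| * (D : ℤ) ^ (j + 1 + 1) * mv P m := by ring

end DerAux

open DerAux in
theorem stDer : StDer := by
  intro E B V D G P hE hB hD hP hV
  have hG : G = ∑ m ∈ E, monomial m (G.coeff m) := by
    conv_lhs => rw [G.as_sum]
    refine sum_subset hE fun m _ hm => ?_
    rw [notMem_support_iff.1 hm, map_zero]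
  constructor
  · intro t i j
    rw [hG, dit_sum, map_sum, map_sum]
    refine (abs_sum_le_sum_abs _ _).trans ?_
    have h1 : ∀ m ∈ E, |eval P (pderiv i (dit t j (monomial m (G.coeff m))))| ≤
        ((B * D ^ (j + 1) * V : ℕ) : ℤ) := by
      intro m hm
      refine (iter hP t i j m (hD m hm) _).trans ?_
      have h2 := hB m
      have h3 : mv P m ≤ V := hV m hm
      have h4 := (mv_pos hP m).le
      push_cast
      gcongr
    refine (sum_le_sum h1).trans (le_of_eq ?_)
    rw [sum_const, nsmul_eq_mul]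
    push_cast
    ring
  · intro e W k i hW
    unfold Sparse.eulk
    rw [map_sum, map_sum]
    refine (abs_sum_le_sum_abs _ _).trans ?_
    have h1 : ∀ m ∈ G.support, |eval P (pderiv i (monomial m
        (G.coeff m * (Sparse.wt e m : ℤ) ^ k)))| ≤ ((B * W ^ k * D * V : ℕ) : ℤ) := by
      intro m hm
      refine (one hP (hD m (hE hm)) _ i).trans ?_
      have h2 := hB m
      have h3 : mv P m ≤ V := hV m (hE hm)
      have h4 := (mv_pos hP m).le
      have h5 : |(Sparse.wt e m : ℤ)| ≤ W := by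
        rw [abs_of_nonneg (by positivity)]
        exact_mod_cast hW m (hE hm)
      rw [abs_mul, abs_pow]
      push_cast
      gcongr
    refine (sum_le_sum h1).trans ?_
    rw [sum_const, nsmul_eq_mul]
    have h6 : (G.support.card : ℤ) ≤ E.card := by exact_mod_cast card_le_card hE
    calc (G.support.card : ℤ) * ((B * W ^ k * D * V : ℕ) : ℤ)
        ≤ E.card * ((B * W ^ k * D * V : ℕ) : ℤ) := by gcongr
      _ = ((E.card * B * W ^ k * D * V : ℕ) : ℤ) := by push_cast; ring

end Pool.Agent.Lib.MP_509488_nt.Wt
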