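import Pool.Agent.Lib.MP_509488_nt.Wt.Stmts
import Pool.Agent.Lib.MP_509488_nt.Sparse.Tay
import Pool.Agent.Lib.MP_509488_nt.Sparse.Wei
import Pool.Agent.Lib.MP_509488_nt.Surf.Curve

/-!
# One small base, few solutions: the solutions with given `z` (module 10)
-/

namespace Pool.Agent.Lib.MP_509488_nt.Wt

open Finset

namespace FixAux

theorem pb_mono {S : Set Pt} {a b : ℕ} (h : a ≤ b) (hS : PB S a) : PB S b :=
  fun T hT => (hS T hT).trans h

theorem pb_empty {S : Set Pt} (h : ∀ P, P ∉ S) (b : ℕ) : PB S b := by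
  intro T hT
  have : T = ∅ := Finset.eq_empty_of_forall_notMem fun P hP => h P (hT P hP)
  rw [this]
  simp

theorem pb_biUnion {ι : Type*} (J : Finset ι) (f : ι → Set Pt) (b : ℕ) (S : Set Pt)
    (hS : ∀ P ∈ S, ∃ j ∈ J, P ∈ f j) (hf : ∀ j ∈ J, PB (f j) b) : PB S (J.card * b) := by
  classical
  intro T hT
  have h1 : T ⊆ J.biUnion fun j => T.filter fun P => P ∈ f j := by
    intro P hP
    obtain ⟨j, hj, hPj⟩ := hS P (hT P hP)
    exact Finset.mem_biUnion.2 ⟨j, hj, Finset.mem_filter.2 ⟨hP, hPj⟩⟩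
  refine (Finset.card_le_card h1).trans ?_
  refine Finset.card_biUnion_le_card_mul _ _ _ fun j hj => hf j hj _ ?_
  intro P hP
  exact (Finset.mem_filter.1 hP).2

theorem pb_union {S S₁ S₂ : Set Pt} {a b : ℕ} (hS : ∀ P ∈ S, P ∈ S₁ ∨ P ∈ S₂) (h₁ : PB S₁ a)
    (h₂ : PB S₂ b) : PB S (a + b) := by
  classical
  intro T hT
  have h1 : T ⊆ (T.filter fun P => P ∈ S₁) ∪ (T.filter fun P => P ∈ S₂) := by
    intro P hP
    rcases hS P (hT P hP) with h | h
    · exact Finset.mem_union_left _ (Finset.mem_filter.2 ⟨hP, h⟩)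
    · exact Finset.mem_union_right _ (Finset.mem_filter.2 ⟨hP, h⟩)
  refine (Finset.card_le_card h1).trans ((Finset.card_union_le _ _).trans (add_le_add ?_ ?_))
  · exact h₁ _ fun P hP => (Finset.mem_filter.1 hP).2
  · exact h₂ _ fun P hP => (Finset.mem_filter.1 hP).2

/-- the exponents of the monomials `x ^ i y ^ j`, `i < D`, `j < I` -/
noncomputable def eS (D I : ℕ) : Finset (Fin 3 →₀ ℕ) :=
  ({0, 1} : Finset (Fin 3)).finsupp fun i => if i = 0 then range D else range I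

theorem card_eS (D I : ℕ) : (eS D I).card = D * I := by
  unfold eS
  rw [Finset.card_finsupp]
  simp

theorem mem_eS {D I : ℕ} {m : Fin 3 →₀ ℕ} (hm : m ∈ eS D I) : m 0 < D ∧ m 1 < I ∧ m 2 = 0 := by
  unfold eS at hm
  rw [Finset.mem_finsupp_iff] at hm
  obtain ⟨h1, h2⟩ := hm
  have h3 := h2 0 (by simp)
  have h4 := h2 1 (by simp)
  refine ⟨by simpa using h3, by simpa using h4, ?_⟩
  by_contra hne
  have := h1 (Finsupp.mem_support_iff.2 hne)
  simp at this

theorem prod_eS {D I : ℕ} {m : Fin 3 →₀ ℕ} (hm : m ∈ eS D I) {P : Pt} (hP : ∀ i, 1 ≤ P i) :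
    ∏ i, P i ^ m i ≤ P 0 ^ D * P 1 ^ I := by
  obtain ⟨h0, h1, h2⟩ := mem_eS hm
  rw [Fin.prod_univ_three, h2, pow_zero, mul_one]
  have a0 := hP 0
  have a1 := hP 1
  have b0 : P 0 ^ m 0 ≤ P 0 ^ D := pow_le_pow_right₀ a0 h0.le
  have b1 : P 1 ^ m 1 ≤ P 1 ^ I := pow_le_pow_right₀ a1 h1.le
  exact mul_le_mul b0 b1 (by positivity) (by positivity)

/-- the points of a class modulo `l` with given `z` -/
theorem cls_bound (hPig : StPig) (hSep : StSep) (hC : StComp) (hDer : StDer) (hJ : StJac)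
    {p q r : ℕ} {s₁ s₂ : ℤ} (hx : Exps p q r s₁ s₂) {N τ h E l b D I A R : ℕ} {LL : Finset ℕ}
    {z : ℤ} {S : Set Pt} (hN : 1 ≤ N) (hpE : p ≤ E) (hqE : q ≤ E) (hrE : r ≤ E) (hb : 1 ≤ b)
    (hDI : 16 * b ≤ D * I) (hDp : D ≤ p) (hl : l.Prime)
    (hS : S ⊆ Fib (Good p q r s₁ s₂ N τ h) z) (hloc : Surf.Loc 1 l S)
    (hA : ∀ P ∈ S, P 0 ^ D * P 1 ^ I ≤ (N : ℤ) ^ A)
    (hsize : D * I * l ^ b * N ^ A < l ^ (4 * b))
    (hsm : Small N τ h E (gB E D I (l ^ b) (N ^ A)))
    (hLL : ∀ l ∈ LL, l.Prime ∧ l ≤ R) (hprod : N ^ (2 * τ) ≤ ∏ l ∈ LL, l) :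
    PB S (D + D * I * (LL.card * R ^ 3)) := by
  classical
  have hpos : ∀ P ∈ S, ∀ i, 1 ≤ P i := fun P hP => (hS hP).1.2.1
  have hV : ∀ P ∈ S, ∀ m ∈ eS D I, ∏ i, P i ^ m i ≤ ((N ^ A : ℕ) : ℤ) := by
    intro P hP m hm
    push_cast
    exact (prod_eS hm (hpos P hP)).trans (hA P hP)
  have hV' : ∀ P ∈ S, ∀ m ∈ eS D I, |∏ i, P i ^ m i| ≤ ((N ^ A : ℕ) : ℤ) := by
    intro P hP m hm
    rw [abs_of_nonneg (Finset.prod_nonneg fun i _ => by
      have := hpos P hP i
      positivity)]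
    exact hV P hP m hm
  obtain ⟨G, hG0, hGs, hGc, hGv⟩ := hPig l b (N ^ A) (eS D I) S hl hb (by rw [card_eS]; exact hDI)
    hloc hV' (by rw [card_eS]; exact hsize)
  have hE1 : 1 ≤ E := by
    have := hx.p4
    omega
  have hDpos : 0 < D * I := by omega
  have hD1 : 1 ≤ D := Nat.pos_of_mul_pos_right hDpos
  have hlpos : 1 ≤ l ^ b := Nat.one_le_pow _ _ hl.pos
  have hNA : 1 ≤ N ^ A := Nat.one_le_pow _ _ hN
  set e : Fin 3 → ℕ := ev p q r with he
  set W : ℕ := E ^ 2 * (D + I) with hW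
  have hW1 : 1 ≤ W := by
    rw [hW]
    exact Nat.one_le_iff_ne_zero.2 (by positivity)
  have hwt : ∀ m ∈ eS D I, Sparse.wt e m ≤ W := by
    intro m hm
    obtain ⟨h0, h1, h2⟩ := mem_eS hm
    have e1 : Sparse.wt e m = q * r * m 0 + r * p * m 1 := by
      unfold Sparse.wt Sparse.cof
      rw [Fin.sum_univ_three, h2, mul_zero, add_zero]
      rfl
    rw [e1, hW]
    have h3 : q * r ≤ E ^ 2 := by
      rw [sq]
      exact Nat.mul_le_mul hqE hrE
    have h4 : r * p ≤ E ^ 2 := by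
      rw [sq]
      exact Nat.mul_le_mul hrE hpE
    calc q * r * m 0 + r * p * m 1 ≤ E ^ 2 * D + E ^ 2 * I :=
          add_le_add (Nat.mul_le_mul h3 h0.le) (Nat.mul_le_mul h4 h1.le)
      _ = _ := by ring
  have hGcard : G.support.card ≤ D * I := by
    rw [← card_eS]
    exact Finset.card_le_card hGs
  have hX1 : 1 ≤ gB E D I (l ^ b) (N ^ A) := by
    unfold gB
    exact Nat.one_le_iff_ne_zero.2 (by positivity)
  have hsplit : ∀ P ∈ S, P ∈ {P : Pt | (∀ i, 1 ≤ P i) ∧ Sparse.Cop P ∧ P 2 = z ∧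
      ∀ w, Sparse.comp (ev p q r) w G P = 0} ∨
      P ∈ {P : Pt | P ∈ S ∧ ∃ k ∈ range (D * I), MvPolynomial.eval P (Sparse.eulk e k G) = 0 ∧
        Sparse.eul e (Sparse.eulk e k G) P ≠ 0} := by
    intro P hP
    rcases hSep e G P (hGv P hP) with ⟨k, hk, h1, h2⟩ | h
    · exact Or.inr ⟨hP, k, Finset.mem_range.2 (hk.trans_le hGcard), h1, h2⟩
    · exact Or.inl ⟨hpos P hP, (hS hP).1.2.2.1, (hS hP).2, h⟩
  refine pb_union hsplit ?_ ?_
  · exact hC p q r hx.hp hx.hq hx.hr D G hG0 (fun m hm => ⟨(mem_eS (hGs hm)).1,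
      (mem_eS (hGs hm)).2.2⟩) hDp z
  · have hcard : (range (D * I)).card = D * I := Finset.card_range _
    have hmain := pb_biUnion (range (D * I))
      (fun k => {P : Pt | P ∈ S ∧ MvPolynomial.eval P (Sparse.eulk e k G) = 0 ∧
        Sparse.eul e (Sparse.eulk e k G) P ≠ 0}) (LL.card * R ^ 3)
      {P : Pt | P ∈ S ∧ ∃ k ∈ range (D * I), MvPolynomial.eval P (Sparse.eulk e k G) = 0 ∧
        Sparse.eul e (Sparse.eulk e k G) P ≠ 0}
      (fun P hP => by
        obtain ⟨hP1, k, hk, h1, h2⟩ := hP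
        exact ⟨k, hk, hP1, h1, h2⟩) ?_
    · rw [hcard] at hmain
      exact hmain
    intro k hk T hT
    rw [Finset.mem_range] at hk
    set H : Pol := Sparse.eulk e k G with hH
    set g : Pol := MvPolynomial.X 2 - MvPolynomial.C z with hg
    have hnd := Sparse.nonDeg Sparse.taylor
      ![Sparse.fpoly (sg s₁ s₂) e, g, H] T LL R hLL
    refine hnd fun P hP => ?_
    obtain ⟨hPS, hP1, hP2⟩ := hT P hP
    have hPg : P ∈ Good p q r s₁ s₂ N τ h := (hS hPS).1
    have hPz : P 2 = z := (hS hPS).2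
    refine ⟨?_, ?_⟩
    · intro i
      fin_cases i
      · have heq : P 0 ^ p = s₁ * P 2 ^ r + s₂ * P 1 ^ q := hPg.1
        change MvPolynomial.eval P (Sparse.fpoly (sg s₁ s₂) e) = 0
        unfold Sparse.fpoly
        rw [Fin.sum_univ_three]
        simp only [map_add, map_mul, map_pow, MvPolynomial.eval_C, MvPolynomial.eval_X]
        change -1 * P 0 ^ p + s₂ * P 1 ^ q + s₁ * P 2 ^ r = 0
        rw [heq]
        ring
      · change MvPolynomial.eval P g = 0
        rw [hg, map_sub, MvPolynomial.eval_X, MvPolynomial.eval_C, hPz, sub_self]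
      · exact hP1
    · have hder := hDer (eS D I) (l ^ b) (N ^ A) (D + I) G P hGs (by
        intro d
        push_cast
        exact hGc d) (by
        intro m hm i
        obtain ⟨h0, h1, h2⟩ := mem_eS hm
        fin_cases i
        · change m 0 ≤ D + I
          omega
        · change m 1 ≤ D + I
          omega
        · change m 2 ≤ D + I
          omega) (hpos P hPS) (hV P hPS)
      have hHb : ∀ i, |MvPolynomial.eval P (MvPolynomial.pderiv i H)| ≤
          ((gB E D I (l ^ b) (N ^ A) : ℕ) : ℤ) := by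
        intro i
        refine (hder.2 e W k i hwt).trans ?_
        rw [card_eS]
        have h1 : D * I * l ^ b * W ^ k * (D + I) * N ^ A ≤ gB E D I (l ^ b) (N ^ A) := by
          unfold gB
          rw [← hW]
          have h2 : W ^ k * (D + I) ≤ W ^ (D * I + 1) := by
            have h3 : D + I ≤ W := by
              rw [hW]
              exact Nat.le_mul_of_pos_left _ (by positivity)
            calc W ^ k * (D + I) ≤ W ^ (D * I) * W :=
                  Nat.mul_le_mul (Nat.pow_le_pow_right hW1 hk.le) h3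
              _ = _ := (pow_succ _ _).symm
          calc D * I * l ^ b * W ^ k * (D + I) * N ^ A =
              D * I * l ^ b * (W ^ k * (D + I)) * N ^ A := by ring
            _ ≤ D * I * l ^ b * W ^ (D * I + 1) * N ^ A :=
              Nat.mul_le_mul_right _ (Nat.mul_le_mul_left _ h2)
        exact_mod_cast h1
      have hgd : ∀ i : Fin 3, MvPolynomial.eval P (MvPolynomial.pderiv i g) =
          if i = 2 then 1 else 0 := by
        intro i
        rw [hg, map_sub, MvPolynomial.pderiv_C, sub_zero, MvPolynomial.pderiv_X]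
        by_cases hi : i = 2
        · subst hi
          simp
        · rw [if_neg hi, Pi.single_eq_of_ne (by exact fun h => hi h.symm), map_zero]
      have hgb : ∀ i, |MvPolynomial.eval P (MvPolynomial.pderiv i g)| ≤
          ((gB E D I (l ^ b) (N ^ A) : ℕ) : ℤ) := by
        intro i
        rw [hgd]
        have : (1 : ℤ) ≤ ((gB E D I (l ^ b) (N ^ A) : ℕ) : ℤ) := by exact_mod_cast hX1
        split_ifs
        · rw [abs_one]
          exact this
        · rw [abs_zero]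
          linarith
      have hvars : (2 : Fin 3) ∉ H.vars := by
        intro hmem
        rw [MvPolynomial.mem_vars_iff_mem_support] at hmem
        obtain ⟨d, hd, h2d⟩ := hmem
        have hdG : d ∈ G.support := by
          rw [MvPolynomial.mem_support_iff, hH, Sparse.coeff_eulk] at hd
          rw [MvPolynomial.mem_support_iff]
          exact left_ne_zero_of_mul hd
        rw [Finsupp.mem_support_iff] at h2d
        exact h2d (mem_eS (hGs hdG)).2.2
      obtain ⟨hj0, hjlt⟩ := hJ p q r s₁ s₂ hx N τ h E (gB E D I (l ^ b) (N ^ A)) P 2 g H hPg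
        hpE hqE hrE hsm hgb hHb hP2 (by rw [hgd, if_pos rfl]; exact one_ne_zero) hvars
      have hlt : |Sparse.jac ![Sparse.fpoly (sg s₁ s₂) (ev p q r), g, H] P| <
          ((∏ l ∈ LL, l : ℕ) : ℤ) := by
        refine lt_of_lt_of_le hjlt ?_
        exact_mod_cast hprod
      obtain ⟨l', hl', hnd'⟩ := Surf.CurveAux.exists_not_dvd LL (fun l hl => (hLL l hl).1) _
        hj0 hlt
      exact ⟨l', hl', hnd'⟩

end FixAux

open FixAux in
theorem stFix (hP : StPig) (hS : StSep) (hC : StComp) (hD : StDer) (hJ : StJac)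
    (hL : StLocFix) : StFix := by
  classical
  intro p q r s₁ s₂ hx N τ h E b D I A R R' LL LL' z hN hpE hqE hrE hb hDI hDp hA hLL' hprod'
    hLL hprod
  refine pb_biUnion LL' (fun l => {P | P ∈ Fib (Good p q r s₁ s₂ N τ h) z ∧
    ¬ (l : ℤ) ∣ p * P 0}) (R' ^ 3 * (D + D * I * (LL.card * R ^ 3))) _ ?_ ?_
  · intro P hPF
    have hp0 : (p : ℤ) ≠ 0 := by
      have := hx.p4
      omega
    have hP0 : 1 ≤ P 0 := hPF.1.2.1 0
    have hne : (p : ℤ) * P 0 ≠ 0 := mul_ne_zero hp0 (by omega)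
    have hlt : |(p : ℤ) * P 0| < ((∏ l ∈ LL', l : ℕ) : ℤ) := by
      have h1 : P 0 ≤ P 0 ^ p := le_self_pow₀ hP0 (by have := hx.p4; omega)
      have h2 : P 0 ^ p ≤ (N : ℤ) ^ τ := hPF.1.2.2.2.1
      have h3 : |(p : ℤ) * P 0| ≤ (p : ℤ) * (N : ℤ) ^ τ := by
        rw [abs_of_nonneg (by positivity)]
        exact mul_le_mul_of_nonneg_left (h1.trans h2) (by positivity)
      have h5 : ((p * N ^ τ : ℕ) : ℤ) < ((∏ l ∈ LL', l : ℕ) : ℤ) := by exact_mod_cast hprod'
      push_cast at h5 ⊢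
      exact lt_of_le_of_lt h3 h5
    obtain ⟨l, hl, hnd⟩ := Surf.CurveAux.exists_not_dvd LL' (fun l hl => (hLL' l hl).1) _ hne hlt
    exact ⟨l, hl, hPF, hnd⟩
  · intro l hl
    obtain ⟨l1, l2, l3, l4⟩ := hLL' l hl
    have : Fact l.Prime := ⟨l1⟩
    have hcard : (univ : Finset (Fin 3 → ZMod l)).card ≤ R' ^ 3 := by
      rw [Finset.card_univ, Fintype.card_fun, ZMod.card, Fintype.card_fin]
      exact Nat.pow_le_pow_left l2 3
    refine pb_mono (Nat.mul_le_mul_right _ hcard) ?_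
    refine pb_biUnion univ (fun Q : Fin 3 → ZMod l => {P | (P ∈ Fib (Good p q r s₁ s₂ N τ h) z ∧
      ¬ (l : ℤ) ∣ p * P 0) ∧ ∀ i, ((P i : ℤ) : ZMod l) = Q i}) _ _ ?_ ?_
    · intro P hP
      exact ⟨fun i => ((P i : ℤ) : ZMod l), mem_univ _, hP, fun i => rfl⟩
    · intro Q _
      by_cases hq : ∃ P : Pt, (P ∈ Fib (Good p q r s₁ s₂ N τ h) z ∧ ¬ (l : ℤ) ∣ p * P 0) ∧
          ∀ i, ((P i : ℤ) : ZMod l) = Q i
      swap
      · exact pb_empty (fun P hP => hq ⟨P, hP⟩) _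
      obtain ⟨P₀, hP₀, hQ₀⟩ := hq
      have hsub : {P | (P ∈ Fib (Good p q r s₁ s₂ N τ h) z ∧ ¬ (l : ℤ) ∣ p * P 0) ∧
          ∀ i, ((P i : ℤ) : ZMod l) = Q i} ⊆ Fib (Good p q r s₁ s₂ N τ h) z :=
        fun P hP => hP.1.1
      refine cls_bound hP hS hC hD hJ hx hN hpE hqE hrE hb hDI hDp l1 hsub ?_
        (fun P hP => hA P (hsub hP)) l3 l4 hLL hprod
      refine hL l p q r s₁ s₂ z _ P₀ l1 (fun P hP => ⟨hP.1.1.1.1, hP.1.1.2⟩) ?_ hP₀.2
      rintro P ⟨-, hPQ⟩ i
      have h3 : ((P₀ i : ℤ) : ZMod l) = ((P i : ℤ) : ZMod l) := (hQ₀ i).trans (hPQ i).symm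
      exact (ZMod.intCast_eq_intCast_iff_dvd_sub _ _ _).1 h3

end Pool.Agent.Lib.MP_509488_nt.Wt
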