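import Pool.Agent.Lib.MP_509488_nt.Wt.Stmts
import Pool.Agent.Lib.MP_509488_nt.Surf.Fixed

/-!
# The points of one fibre, asymptotic form
-/

namespace Pool.Agent.Lib.MP_509488_nt.Wt

open Finset

namespace FixAAux

lemma PB_mono {S : Set Pt} {b b' : ℕ} (h : PB S b) (hb : b ≤ b') : PB S b' :=
  fun T hT => (h T hT).trans hb

lemma root_le {N τ p K τ₀ : ℕ} {a : ℤ} (hN : 1 ≤ N) (ha : 1 ≤ a) (hK : 1 ≤ K) (hKp : K ≤ p)
    (hτ : τ ≤ τ₀) (h : a ^ p ≤ (N : ℤ) ^ τ) : (a : ℝ) ≤ (N : ℝ) ^ ((τ₀ : ℝ) / K) := by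
  have hp : 1 ≤ p := hK.trans hKp
  have h1 : (a : ℝ) ^ p ≤ (N : ℝ) ^ τ := by exact_mod_cast h
  have hN' : (1 : ℝ) ≤ N := by exact_mod_cast hN
  have ha' : (0 : ℝ) ≤ a := by exact_mod_cast (by omega : (0 : ℤ) ≤ a)
  have hp' : (0 : ℝ) < p := by exact_mod_cast hp
  have hK' : (0 : ℝ) < K := by exact_mod_cast hK
  have h2 : (a : ℝ) ≤ (N : ℝ) ^ ((τ : ℝ) / p) := by
    have e : ((N : ℝ) ^ ((τ : ℝ) / p)) ^ p = (N : ℝ) ^ τ := by
      rw [← Real.rpow_natCast, ← Real.rpow_mul (by positivity), div_mul_cancel₀ _ hp'.ne',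
        Real.rpow_natCast]
    rw [← e] at h1
    exact (pow_le_pow_iff_left₀ ha' (by positivity) (by omega)).1 h1
  refine h2.trans (Real.rpow_le_rpow_of_exponent_le hN' ?_)
  rw [div_le_div_iff₀ hp' hK']
  have h3 : (τ : ℝ) ≤ τ₀ := by exact_mod_cast hτ
  have h4 : (K : ℝ) ≤ p := by exact_mod_cast hKp
  exact mul_le_mul h3 h4 hK'.le (by positivity)

lemma smallTau {N τ h p q r K τ₀ : ℕ} {s₁ s₂ z : ℤ} (hN : 1 ≤ N) (hK : 1 ≤ K) (hKp : K ≤ p)
    (hKq : K ≤ q) (hτ : τ ≤ τ₀) :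
    PB (Fib (Good p q r s₁ s₂ N τ h) z) (⌊(N : ℝ) ^ ((τ₀ : ℝ) / K)⌋₊ ^ 2) := by
  intro T hT
  set L := ⌊(N : ℝ) ^ ((τ₀ : ℝ) / K)⌋₊ with hL
  have key : ∀ P ∈ T, (P 0, P 1) ∈ (Finset.Icc (1 : ℤ) L) ×ˢ (Finset.Icc (1 : ℤ) L) := by
    intro P hP
    obtain ⟨⟨-, hpos, -, h0, h1, -, -⟩, -⟩ := hT P hP
    have a0 := root_le hN (hpos 0) hK hKp hτ h0
    have a1 := root_le hN (hpos 1) hK hKq hτ h1
    have up : ∀ a : ℤ, 1 ≤ a → (a : ℝ) ≤ (N : ℝ) ^ ((τ₀ : ℝ) / K) → a ≤ L := by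
      intro a ha hle
      have h3 : ((a.toNat : ℕ) : ℝ) ≤ (N : ℝ) ^ ((τ₀ : ℝ) / K) := by
        have : ((a.toNat : ℕ) : ℝ) = (a : ℝ) := by
          have : ((a.toNat : ℕ) : ℤ) = a := Int.toNat_of_nonneg (by omega)
          exact_mod_cast this
        rw [this]; exact hle
      have h4 : a.toNat ≤ L := Nat.le_floor h3
      omega
    rw [Finset.mem_product, Finset.mem_Icc, Finset.mem_Icc]
    exact ⟨⟨hpos 0, up _ (hpos 0) a0⟩, ⟨hpos 1, up _ (hpos 1) a1⟩⟩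
  have inj : Set.InjOn (fun P : Pt => (P 0, P 1)) (T : Set Pt) := by
    intro P hP Q hQ hPQ
    have hP2 : P 2 = z := (hT P hP).2
    have hQ2 : Q 2 = z := (hT Q hQ).2
    simp only [Prod.mk.injEq] at hPQ
    funext i
    fin_cases i
    · exact hPQ.1
    · exact hPQ.2
    · exact hP2.trans hQ2.symm
  have h1 : T.card ≤ ((Finset.Icc (1 : ℤ) L) ×ˢ (Finset.Icc (1 : ℤ) L)).card :=
    Finset.card_le_card_of_injOn _ key inj
  rw [Finset.card_product, Int.card_Icc] at h1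
  have h2 : ((L : ℤ) + 1 - 1).toNat = L := by simp
  rw [h2] at h1
  rw [sq]
  exact h1

/-- natural number form of the exponent condition -/
lemma exp_le {H τ p q : ℕ} (hp : 0 < p) (hq : 0 < q) (hH : 1 ≤ H) :
    2 * H * (τ * (4 * (8 * H * (τ / q + 1))) / p + τ * (4 * (8 * H * (τ / p + 1))) / q + 2 + 1) ≤
      3 * (8 * H * (τ / q + 1) * (8 * H * (τ / p + 1))) := by
  have h1 : τ < p * (τ / p + 1) := Nat.lt_mul_div_succ τ hp
  have h2 : τ < q * (τ / q + 1) := Nat.lt_mul_div_succ τ hq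
  set t := τ / p with ht
  set u := τ / q with hu
  set d0 := 8 * H * (u + 1) with hd0
  set d1 := 8 * H * (t + 1) with hd1
  have h3 : τ * (4 * d0) / p ≤ (t + 1) * (4 * d0) := by
    apply Nat.div_le_of_le_mul
    calc τ * (4 * d0) ≤ (p * (t + 1)) * (4 * d0) := Nat.mul_le_mul_right _ h1.le
      _ = p * ((t + 1) * (4 * d0)) := by ring
  have h4 : τ * (4 * d1) / q ≤ (u + 1) * (4 * d1) := by
    apply Nat.div_le_of_le_mul
    calc τ * (4 * d1) ≤ (q * (u + 1)) * (4 * d1) := Nat.mul_le_mul_right _ h2.le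
      _ = q * ((u + 1) * (4 * d1)) := by ring
  have h5 : 2 * H * ((t + 1) * (4 * d0)) = d0 * d1 := by rw [hd1]; ring
  have h6 : 2 * H * ((u + 1) * (4 * d1)) = d0 * d1 := by rw [hd0]; ring
  have h7 : 6 * H ≤ d0 * d1 := by
    have a : 8 * H ≤ d0 := by rw [hd0]; exact Nat.le_mul_of_pos_right _ (Nat.succ_pos _)
    have b : 1 ≤ d1 := by
      rw [hd1]
      have : 0 < 8 * H * (t + 1) := by positivity
      omega
    calc 6 * H ≤ 8 * H := by omega
      _ ≤ d0 := a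
      _ = d0 * 1 := (mul_one _).symm
      _ ≤ d0 * d1 := Nat.mul_le_mul_left _ b
  calc 2 * H * (τ * (4 * d0) / p + τ * (4 * d1) / q + 2 + 1)
      ≤ 2 * H * ((t + 1) * (4 * d0) + (u + 1) * (4 * d1) + 2 + 1) := by
        apply Nat.mul_le_mul_left
        exact Nat.add_le_add_right (Nat.add_le_add_right (Nat.add_le_add h3 h4) 2) 1
    _ = 2 * H * ((t + 1) * (4 * d0)) + 2 * H * ((u + 1) * (4 * d1)) + 6 * H := by ring
    _ ≤ d0 * d1 + d0 * d1 + d0 * d1 := by rw [h5, h6]; exact Nat.add_le_add_left h7 _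
    _ = 3 * (d0 * d1) := by ring

/-- the exponent in `Small` -/
lemma small_exp {h H τ p q K : ℕ} {c : ℝ} (hh : 1 ≤ h) (hH : 1 ≤ H) (hp : 0 < p) (hq : 0 < q)
    (hc : c = 1 / (8000 * h * H)) (hK : 30000 * h * H ≤ K) (hKp : K ≤ p) (hKq : K ≤ q)
    (hτc : (τ : ℝ) ≤ c * (p * q)) (hτ : 10000 * h * H ≤ τ) :
    h * (13 + 16 * (64 * H * (τ / q + 1) * (τ / p + 1)) +
      8 * (τ * (4 * (8 * H * (τ / q + 1))) / p + τ * (4 * (8 * H * (τ / p + 1))) / q + 2)) < τ := by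
  have hh' : (1 : ℝ) ≤ h := by exact_mod_cast hh
  have hH' : (1 : ℝ) ≤ H := by exact_mod_cast hH
  have hp' : (0 : ℝ) < p := by exact_mod_cast hp
  have hq' : (0 : ℝ) < q := by exact_mod_cast hq
  have hhH : (1 : ℝ) ≤ h * H := one_le_mul_of_one_le_of_one_le hh' hH'
  have hK' : (30000 : ℝ) * (h * H) ≤ K := by
    have : ((30000 * h * H : ℕ) : ℝ) ≤ K := by exact_mod_cast hK
    push_cast at this; linarith
  have hK0 : (0 : ℝ) < K := by linarith
  have hτ' : (10000 : ℝ) * (h * H) ≤ τ := by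
    have : ((10000 * h * H : ℕ) : ℝ) ≤ τ := by exact_mod_cast hτ
    push_cast at this; linarith
  have hτ0 : (0 : ℝ) < τ := by linarith
  have hKp' : (K : ℝ) ≤ p := by exact_mod_cast hKp
  have hKq' : (K : ℝ) ≤ q := by exact_mod_cast hKq
  set a : ℝ := (τ : ℝ) / p with ha
  set b : ℝ := (τ : ℝ) / q with hb
  have ha0 : 0 ≤ a := by positivity
  have hb0 : 0 ≤ b := by positivity
  have haK : a ≤ τ / K := by
    rw [ha]; exact div_le_div_of_nonneg_left hτ0.le hK0 hKp'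
  have hbK : b ≤ τ / K := by
    rw [hb]; exact div_le_div_of_nonneg_left hτ0.le hK0 hKq'
  have hab : a * b ≤ c * τ := by
    have e1 : a * b = τ * (τ / (p * q)) := by rw [ha, hb]; field_simp
    have e2 : (τ : ℝ) / (p * q) ≤ c := by rw [div_le_iff₀ (by positivity)]; exact hτc
    rw [e1, mul_comm c]
    exact mul_le_mul_of_nonneg_left e2 hτ0.le
  have ht : ((τ / p : ℕ) : ℝ) ≤ a := Nat.cast_div_le
  have hu : ((τ / q : ℕ) : ℝ) ≤ b := Nat.cast_div_le
  have hA1 : ((τ * (4 * (8 * H * (τ / q + 1))) / p : ℕ) : ℝ) ≤ 32 * H * (a * b + a) := by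
    refine Nat.cast_div_le.trans ?_
    push_cast
    rw [div_le_iff₀ hp']
    have e : a * p = τ := by rw [ha]; field_simp
    have e2 : 32 * H * (a * b + a) * p = (a * p) * (4 * (8 * H * (b + 1))) := by ring
    rw [e2, e]
    gcongr
  have hA2 : ((τ * (4 * (8 * H * (τ / p + 1))) / q : ℕ) : ℝ) ≤ 32 * H * (a * b + b) := by
    refine Nat.cast_div_le.trans ?_
    push_cast
    rw [div_le_iff₀ hq']
    have e : b * q = τ := by rw [hb]; field_simp
    have e2 : 32 * H * (a * b + b) * q = (b * q) * (4 * (8 * H * (a + 1))) := by ring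
    rw [e2, e]
    gcongr
  have hB : ((64 * H * (τ / q + 1) * (τ / p + 1) : ℕ) : ℝ) ≤ 64 * H * (a * b + a + b + 1) := by
    push_cast
    have e : 64 * (H : ℝ) * (a * b + a + b + 1) = 64 * H * (b + 1) * (a + 1) := by ring
    rw [e]
    gcongr
  have main : ((h * (13 + 16 * (64 * H * (τ / q + 1) * (τ / p + 1)) +
      8 * (τ * (4 * (8 * H * (τ / q + 1))) / p + τ * (4 * (8 * H * (τ / p + 1))) / q + 2)) : ℕ)
        : ℝ) < τ := by
    rw [Nat.cast_mul, Nat.cast_add, Nat.cast_add, Nat.cast_mul 16, Nat.cast_mul 8, Nat.cast_add,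
      Nat.cast_add]
    have s1 : (h : ℝ) * (((13 : ℕ) : ℝ) + ((16 : ℕ) : ℝ) *
        ((64 * H * (τ / q + 1) * (τ / p + 1) : ℕ) : ℝ) +
        ((8 : ℕ) : ℝ) * (((τ * (4 * (8 * H * (τ / q + 1))) / p : ℕ) : ℝ) +
          ((τ * (4 * (8 * H * (τ / p + 1))) / q : ℕ) : ℝ) + ((2 : ℕ) : ℝ))) ≤
        h * (13 + 16 * (64 * H * (a * b + a + b + 1)) +
          8 * (32 * H * (a * b + a) + 32 * H * (a * b + b) + 2)) := by
      push_cast at hA1 hA2 hB ⊢
      gcongr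
    refine lt_of_le_of_lt s1 ?_
    have s2 : h * (13 + 16 * (64 * H * (a * b + a + b + 1)) +
          8 * (32 * H * (a * b + a) + 32 * H * (a * b + b) + 2)) =
        29 * h + 1024 * (h * H) + 1536 * (h * H) * (a * b) + 1280 * (h * H) * (a + b) := by ring
    rw [s2]
    have s3 : 1536 * ((h : ℝ) * H) * (a * b) ≤ 1536 / 8000 * τ := by
      calc 1536 * ((h : ℝ) * H) * (a * b) ≤ 1536 * ((h : ℝ) * H) * (c * τ) := by gcongr
        _ = 1536 / 8000 * τ := by rw [hc]; field_simp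
    have s4 : 1280 * ((h : ℝ) * H) * (a + b) ≤ 2560 / 30000 * τ := by
      have s5 : a + b ≤ 2 * (τ / K) := by linarith
      have s6 : ((h : ℝ) * H) * (τ / K) ≤ τ / 30000 := by
        rw [← mul_div_assoc, div_le_div_iff₀ hK0 (by norm_num)]
        have := mul_le_mul_of_nonneg_right hK' hτ0.le
        linarith
      calc 1280 * ((h : ℝ) * H) * (a + b) ≤ 1280 * ((h : ℝ) * H) * (2 * (τ / K)) := by gcongr
        _ = 2560 * (((h : ℝ) * H) * (τ / K)) := by ring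
        _ ≤ 2560 * (τ / 30000) := by gcongr
        _ = _ := by ring
    have s7 : (h : ℝ) ≤ h * H := le_mul_of_one_le_right (by linarith) hH'
    linarith
  exact_mod_cast main

/-- the size condition -/
lemma size_le {N τ h p q r D I : ℕ} {s₁ s₂ z : ℤ} (hp : 0 < p) (hq : 0 < q) (hN : 1 ≤ N) :
    ∀ P ∈ Fib (Good p q r s₁ s₂ N τ h) z,
      P 0 ^ D * P 1 ^ I ≤ (N : ℤ) ^ (τ * D / p + τ * I / q + 2) := by
  rintro P ⟨⟨-, hpos, -, h0, h1, -, -⟩, -⟩
  have key : ∀ (a : ℤ) (p D : ℕ), 0 < p → 1 ≤ a → a ^ p ≤ (N : ℤ) ^ τ →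
      a ^ D ≤ (N : ℤ) ^ (τ * D / p + 1) := by
    intro a p D hp ha h
    have h2 : (a ^ D) ^ p ≤ ((N : ℤ) ^ (τ * D / p + 1)) ^ p := by
      calc (a ^ D) ^ p = (a ^ p) ^ D := by rw [← pow_mul, ← pow_mul, mul_comm]
        _ ≤ ((N : ℤ) ^ τ) ^ D := pow_le_pow_left₀ (by positivity) h D
        _ = (N : ℤ) ^ (τ * D) := by rw [← pow_mul]
        _ ≤ (N : ℤ) ^ ((τ * D / p + 1) * p) := by
            apply pow_le_pow_right₀ (by exact_mod_cast hN)
            have := (Nat.lt_mul_div_succ (τ * D) hp).le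
            linarith [mul_comm p (τ * D / p + 1)]
        _ = _ := by rw [← pow_mul]
    exact (pow_le_pow_iff_left₀ (by positivity) (by positivity) (by omega)).1 h2
  have a0 := key (P 0) p D hp (hpos 0) h0
  have a1 := key (P 1) q I hq (hpos 1) h1
  have hb : 0 ≤ P 1 ^ I := by have := hpos 1; positivity
  calc P 0 ^ D * P 1 ^ I ≤ (N : ℤ) ^ (τ * D / p + 1) * (N : ℤ) ^ (τ * I / q + 1) :=
        mul_le_mul a0 a1 hb (by positivity)
    _ = _ := by rw [← pow_add]; congr 1; ring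

/-- the condition `Small` -/
lemma small_le {N τ h E X Y : ℕ} (hN : 2 ≤ N) (hE : 6 * E ≤ N) (hX : X ≤ N ^ Y)
    (hY : h * (5 + 8 * Y) < τ) : Small N τ h E X := by
  unfold Small
  have h1 : 6 * E * X ^ 2 ≤ N ^ (1 + 2 * Y) := by
    calc 6 * E * X ^ 2 ≤ N * (N ^ Y) ^ 2 := by gcongr
      _ = N ^ (1 + 2 * Y) := by rw [← pow_mul, pow_add, pow_one, mul_comm Y 2]
  have h2 : 2 * (6 * E * X ^ 2) ^ 4 ≤ N ^ (5 + 8 * Y) := by
    calc 2 * (6 * E * X ^ 2) ^ 4 ≤ N * (N ^ (1 + 2 * Y)) ^ 4 := by gcongr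
      _ = N ^ (5 + 8 * Y) := by
          rw [← pow_mul, ← pow_succ']; congr 1; ring
  calc (2 * (6 * E * X ^ 2) ^ 4) ^ h ≤ (N ^ (5 + 8 * Y)) ^ h := by gcongr
    _ = N ^ (h * (5 + 8 * Y)) := by rw [← pow_mul, mul_comm]
    _ < N ^ τ := Nat.pow_lt_pow_right (by omega) hY

/-- the bound for `gB` -/
lemma gB_le {N E D I l H b' A : ℕ} (hDI : D * I ≤ N) (hDI16 : D * I = 16 * (H * b'))
    (hb : 1 ≤ H * b') (hl : l ^ H ≤ N) (hE : 1 ≤ E ^ 2 * (D + I))
    (hEN : (E ^ 2 * (D + I)) ^ (17 * H) ≤ N) :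
    gB E D I (l ^ (H * b')) (N ^ A) ≤ N ^ (1 + 2 * b' + A) := by
  unfold gB
  have h1 : l ^ (H * b') ≤ N ^ b' := by rw [pow_mul]; exact Nat.pow_le_pow_left hl _
  have h2 : (E ^ 2 * (D + I)) ^ (D * I + 1) ≤ N ^ b' := by
    calc (E ^ 2 * (D + I)) ^ (D * I + 1) ≤ (E ^ 2 * (D + I)) ^ (17 * H * b') := by
          apply Nat.pow_le_pow_right hE
          rw [hDI16]
          have : 17 * H * b' = 17 * (H * b') := by ring
          rw [this]; omega
      _ = ((E ^ 2 * (D + I)) ^ (17 * H)) ^ b' := by rw [← pow_mul]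
      _ ≤ N ^ b' := Nat.pow_le_pow_left hEN _
  calc D * I * l ^ (H * b') * (E ^ 2 * (D + I)) ^ (D * I + 1) * N ^ A
      ≤ N * N ^ b' * N ^ b' * N ^ A := by gcongr
    _ = N ^ (1 + 2 * b' + A) := by
        rw [← pow_succ', ← pow_add, ← pow_add]; congr 1; ring

end FixAAux

open FixAAux

theorem stFixA (hF : StFix) (hL : Surf.StPrimes) : StFixA := by
  intro ε h hε hh
  obtain ⟨H, hH⟩ := exists_nat_ge (40 / ε)
  have hHpos : (0 : ℝ) < H := lt_of_lt_of_le (by positivity) hH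
  have hH1 : 1 ≤ H := by exact_mod_cast hHpos
  have hH1' : (1 : ℝ) ≤ H := by exact_mod_cast hH1
  have hεH : 40 ≤ ε * H := by rw [div_le_iff₀ hε] at hH; linarith
  have hh' : (1 : ℝ) ≤ h := by exact_mod_cast hh
  set τ₀ : ℕ := 10000 * h * H with hτ₀
  set K : ℕ := ⌈2 * (τ₀ : ℝ) / ε⌉₊ + 30000 * h * H with hKdef
  set c : ℝ := 1 / (8000 * h * H) with hcdef
  set δ : ℝ := 1 / (100 * H) with hδdef
  have hc0 : 0 < c := by positivity
  have hδ0 : 0 < δ := by positivity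
  have hK30 : 30000 * h * H ≤ K := by rw [hKdef]; omega
  have hK1 : 1 ≤ K := by
    have h1 : 0 < 30000 * h * H := Nat.mul_pos (Nat.mul_pos (by norm_num) hh) hH1
    omega
  have hKε : 2 * (τ₀ : ℝ) ≤ ε * K := by
    have h1 := Nat.le_ceil (2 * (τ₀ : ℝ) / ε)
    rw [div_le_iff₀ hε] at h1
    have h2 : ((⌈2 * (τ₀ : ℝ) / ε⌉₊ : ℕ) : ℝ) ≤ K := by
      have : ⌈2 * (τ₀ : ℝ) / ε⌉₊ ≤ K := by rw [hKdef]; omega
      exact_mod_cast this
    have h3 := mul_le_mul_of_nonneg_right h2 hε.le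
    linarith
  obtain ⟨N₁, hN₁⟩ := hL (1 / (2 * H)) (1 / H) (by positivity) (by
    rw [div_lt_div_iff₀ (by positivity) hHpos]; linarith)
  obtain ⟨N₂, hN₂⟩ : ∃ N₂ : ℕ, ∀ N : ℕ, N₂ ≤ N → (128 : ℝ) * H ≤ (N : ℝ) ^ δ := by
    have := (tendsto_rpow_atTop hδ0).comp tendsto_natCast_atTop_atTop
    exact (Filter.eventually_atTop.1 (this.eventually_ge_atTop (128 * (H : ℝ))))
  refine ⟨K, c, δ, hc0, hδ0, max (max N₁ N₂) 2, fun N hN => ?_⟩
  have hNN₁ : N₁ ≤ N := (le_max_left _ _).trans ((le_max_left _ _).trans hN)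
  have hNN₂ : N₂ ≤ N := (le_max_right _ _).trans ((le_max_left _ _).trans hN)
  have hN2 : 2 ≤ N := (le_max_right _ _).trans hN
  intro p q r τ s₁ s₂ z hE hKp hKq hτc hpN hqN hrN
  have hNR : (1 : ℝ) < N := by exact_mod_cast (by omega : 1 < N)
  have hN0 : (0 : ℝ) < N := by linarith
  rcases le_or_gt τ τ₀ with hτ | hτ
  · -- small `τ`
    refine PB_mono (smallTau (by omega) hK1 hKp hKq hτ) (Nat.le_floor ?_)
    push_cast
    have hK0 : (0 : ℝ) < K := by exact_mod_cast hK1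
    have h1 : ((⌊(N : ℝ) ^ ((τ₀ : ℝ) / K)⌋₊ : ℕ) : ℝ) ≤ (N : ℝ) ^ ((τ₀ : ℝ) / K) :=
      Nat.floor_le (by positivity)
    calc ((⌊(N : ℝ) ^ ((τ₀ : ℝ) / K)⌋₊ : ℕ) : ℝ) ^ 2 ≤ ((N : ℝ) ^ ((τ₀ : ℝ) / K)) ^ 2 := by gcongr
      _ = (N : ℝ) ^ ((τ₀ : ℝ) / K * 2) := by
          rw [← Real.rpow_natCast, ← Real.rpow_mul hN0.le]; norm_num
      _ ≤ (N : ℝ) ^ ε := by
          apply Real.rpow_le_rpow_of_exponent_le hNR.le
          rw [div_mul_eq_mul_div, div_le_iff₀ hK0]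
          linarith
  · -- large `τ`
    set A₀ : ℝ := (N : ℝ) ^ δ with hA₀
    have hA128 : (128 : ℝ) * H ≤ A₀ := hN₂ N hNN₂
    have hA1 : (128 : ℝ) ≤ A₀ := by linarith
    have hA0 : 0 < A₀ := by linarith
    have hA1' : (1 : ℝ) ≤ A₀ := by linarith
    have hApow : ∀ k : ℕ, A₀ ^ k = (N : ℝ) ^ (k * δ) := by
      intro k
      rw [hA₀, ← Real.rpow_natCast, ← Real.rpow_mul hN0.le, mul_comm]
    have hAN : A₀ ^ (100 * H) = N := by
      rw [hApow, hδdef]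
      push_cast
      rw [mul_one_div_cancel (by positivity), Real.rpow_one]
    have hAle : ∀ k : ℕ, k ≤ 100 * H → A₀ ^ k ≤ N := fun k hk =>
      (pow_le_pow_right₀ hA1' hk).trans (le_of_eq hAN)
    have h50 : A₀ ^ 50 = (N : ℝ) ^ ((1 : ℝ) / (2 * H)) := by
      rw [hApow, hδdef]; congr 1; push_cast; field_simp; norm_num
    have h100 : A₀ ^ 100 = (N : ℝ) ^ ((1 : ℝ) / H) := by
      rw [hApow, hδdef]; congr 1; push_cast; field_simp
    have hp0 : 0 < p := by have := hE.p4; omega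
    have hq0 : 0 < q := by have := hE.q4; omega
    have hp1 : (1 : ℝ) ≤ p := by exact_mod_cast hp0
    have hq1 : (1 : ℝ) ≤ q := by exact_mod_cast hq0
    have hc1 : c ≤ 1 := by
      rw [hcdef, div_le_one (by positivity)]
      have : (1 : ℝ) ≤ h * H := one_le_mul_of_one_le_of_one_le hh' hH1'
      linarith
    have hpq : (p * q : ℝ) ≤ A₀ ^ 2 := by
      rw [sq]; exact mul_le_mul hpN hqN (by linarith) hA0.le
    have hτA : (τ : ℝ) ≤ A₀ ^ 2 :=
      hτc.trans ((mul_le_of_le_one_left (by positivity) hc1).trans hpq)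
    -- parameters
    set t := τ / p with ht
    set u := τ / q with hu
    set d0 := 8 * H * (u + 1) with hd0
    set d1 := 8 * H * (t + 1) with hd1
    set b' := 64 * H * (u + 1) * (t + 1) with hb'
    have hbb : d0 * d1 = H * b' := by rw [hd0, hd1, hb']; ring
    have hb1 : 1 ≤ H * b' := by
      rw [← hbb]
      have : 0 < d0 * d1 := by rw [hd0, hd1]; positivity
      omega
    have hDI16 : 4 * d0 * (4 * d1) = 16 * (H * b') := by rw [← hbb]; ring
    have hA2sq : (1 : ℝ) ≤ A₀ ^ 2 := one_le_pow₀ hA1'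
    have hDA : ((4 * d0 : ℕ) : ℝ) ≤ A₀ ^ 3 / 2 := by
      have h1 : (u : ℝ) ≤ A₀ ^ 2 := by
        have : u ≤ τ := Nat.div_le_self _ _
        have : (u : ℝ) ≤ τ := by exact_mod_cast this
        linarith
      rw [hd0]; push_cast
      calc (4 : ℝ) * (8 * H * (u + 1)) = 32 * H * (u + 1) := by ring
        _ ≤ 32 * H * (A₀ ^ 2 + A₀ ^ 2) := by gcongr
        _ = (128 * H) * A₀ ^ 2 / 2 := by ring
        _ ≤ A₀ * A₀ ^ 2 / 2 := by gcongr
        _ = A₀ ^ 3 / 2 := by ring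
    have hIA : ((4 * d1 : ℕ) : ℝ) ≤ A₀ ^ 3 / 2 := by
      have h1 : (t : ℝ) ≤ A₀ ^ 2 := by
        have : t ≤ τ := Nat.div_le_self _ _
        have : (t : ℝ) ≤ τ := by exact_mod_cast this
        linarith
      rw [hd1]; push_cast
      calc (4 : ℝ) * (8 * H * (t + 1)) = 32 * H * (t + 1) := by ring
        _ ≤ 32 * H * (A₀ ^ 2 + A₀ ^ 2) := by gcongr
        _ = (128 * H) * A₀ ^ 2 / 2 := by ring
        _ ≤ A₀ * A₀ ^ 2 / 2 := by gcongr
        _ = A₀ ^ 3 / 2 := by ring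
    have hDIA : ((4 * d0 * (4 * d1) : ℕ) : ℝ) ≤ A₀ ^ 6 / 4 := by
      rw [Nat.cast_mul]
      calc ((4 * d0 : ℕ) : ℝ) * ((4 * d1 : ℕ) : ℝ) ≤ (A₀ ^ 3 / 2) * (A₀ ^ 3 / 2) := by gcongr
        _ = A₀ ^ 6 / 4 := by ring
    have hA6 : A₀ ^ 6 ≤ N := hAle 6 (by omega)
    have hDIN : 4 * d0 * (4 * d1) < N := by
      have h1 : (0 : ℝ) < A₀ ^ 6 := by positivity
      have : ((4 * d0 * (4 * d1) : ℕ) : ℝ) < N := by linarith
      exact_mod_cast this
    set E := ⌊A₀⌋₊ with hEdef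
    have hEA : (E : ℝ) ≤ A₀ := Nat.floor_le hA0.le
    have hpE : p ≤ E := Nat.le_floor hpN
    have hqE : q ≤ E := Nat.le_floor hqN
    have hrE : r ≤ E := Nat.le_floor hrN
    have h6E : 6 * E ≤ N := by
      have h1 : A₀ ^ 2 ≤ N := hAle 2 (by omega)
      have h2 : 6 * A₀ ≤ A₀ ^ 2 := by
        rw [sq]; exact mul_le_mul_of_nonneg_right (by linarith) hA0.le
      have : ((6 * E : ℕ) : ℝ) ≤ N := by
        push_cast
        linarith
      exact_mod_cast this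
    have hpN' : p ≤ N := by omega
    have hEb : (E ^ 2 * (4 * d0 + 4 * d1)) ^ (17 * H) ≤ N := by
      have h1 : ((E ^ 2 * (4 * d0 + 4 * d1) : ℕ) : ℝ) ≤ A₀ ^ 5 := by
        rw [Nat.cast_mul, Nat.cast_pow, Nat.cast_add]
        calc (E : ℝ) ^ 2 * (((4 * d0 : ℕ) : ℝ) + ((4 * d1 : ℕ) : ℝ))
            ≤ A₀ ^ 2 * (A₀ ^ 3 / 2 + A₀ ^ 3 / 2) := by gcongr
          _ = A₀ ^ 5 := by ring
      have h2 : (((E ^ 2 * (4 * d0 + 4 * d1)) ^ (17 * H) : ℕ) : ℝ) ≤ N := by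
        rw [Nat.cast_pow]
        calc ((E ^ 2 * (4 * d0 + 4 * d1) : ℕ) : ℝ) ^ (17 * H) ≤ (A₀ ^ 5) ^ (17 * H) := by gcongr
          _ = A₀ ^ (5 * (17 * H)) := by rw [← pow_mul]
          _ ≤ N := hAle _ (by omega)
      exact_mod_cast h2
    have hE1 : 1 ≤ E ^ 2 * (4 * d0 + 4 * d1) := by
      have h1 : 0 < E := by omega
      have h2 : 0 < d0 := by rw [hd0]; positivity
      have : 0 < E ^ 2 * (4 * d0 + 4 * d1) := by positivity
      omega
    -- the primes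
    obtain ⟨LL, hLL, hcard⟩ := hN₁ N hNN₁
    set R := ⌊A₀ ^ 100⌋₊ with hRdef
    have hRA : (R : ℝ) ≤ A₀ ^ 100 := Nat.floor_le (by positivity)
    have hlR : ∀ l ∈ LL, l ≤ R := by
      intro l hl
      apply Nat.le_floor
      rw [h100]; exact (hLL l hl).2.2
    have hcardR : LL.card ≤ R := by
      have h1 : LL ⊆ Finset.Icc 1 R := by
        intro l hl
        rw [Finset.mem_Icc]
        exact ⟨(hLL l hl).1.one_lt.le, hlR l hl⟩
      have h2 := Finset.card_le_card h1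
      rwa [Nat.card_Icc, Nat.add_sub_cancel] at h2
    have hlH : ∀ l ∈ LL, l ^ H ≤ N := by
      intro l hl
      have h1 : (l : ℝ) ≤ A₀ ^ 100 := by rw [h100]; exact (hLL l hl).2.2
      have h2 : ((l ^ H : ℕ) : ℝ) ≤ N := by
        rw [Nat.cast_pow]
        calc (l : ℝ) ^ H ≤ (A₀ ^ 100) ^ H := by gcongr
          _ = A₀ ^ (100 * H) := by rw [← pow_mul]
          _ = N := hAN
      exact_mod_cast h2
    have hlH2 : ∀ l ∈ LL, N ≤ l ^ (2 * H) := by
      intro l hl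
      have h1 : A₀ ^ 50 ≤ (l : ℝ) := by rw [h50]; exact (hLL l hl).2.1
      have h2 : (N : ℝ) ≤ ((l ^ (2 * H) : ℕ) : ℝ) := by
        rw [Nat.cast_pow]
        calc (N : ℝ) = A₀ ^ (100 * H) := hAN.symm
          _ = (A₀ ^ 50) ^ (2 * H) := by rw [← pow_mul]; congr 1; ring
          _ ≤ (l : ℝ) ^ (2 * H) := by gcongr
      exact_mod_cast h2
    have hcardA : (2 : ℝ) * H * (2 * τ + 1) < LL.card := by
      have h1 : A₀ ^ 50 ≤ (LL.card : ℝ) := by rw [h50]; exact hcard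
      have h2 : A₀ ^ 3 < A₀ ^ 50 := pow_lt_pow_right₀ (by linarith) (by norm_num)
      have h3 : (2 : ℝ) * H * (2 * τ + 1) ≤ A₀ ^ 3 := by
        calc (2 : ℝ) * H * (2 * τ + 1) ≤ 2 * H * (2 * A₀ ^ 2 + A₀ ^ 2) := by gcongr
          _ = (6 * H) * A₀ ^ 2 := by ring
          _ ≤ A₀ * A₀ ^ 2 := by gcongr; linarith
          _ = A₀ ^ 3 := by ring
      linarith
    have hprod : ∀ e : ℕ, e ≤ 2 * τ + 1 → N ^ e < ∏ l ∈ LL, l := by
      intro e he
      apply Surf.FixedAux.prod_ge hN2 (a := 1 / (2 * H)) (fun l hl => (hLL l hl).2.1)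
      rw [one_div, inv_mul_eq_div, lt_div_iff₀ (by positivity)]
      have h1 : (e : ℝ) ≤ 2 * τ + 1 := by exact_mod_cast he
      calc (e : ℝ) * (2 * H) ≤ (2 * τ + 1) * (2 * H) := by gcongr
        _ = 2 * H * (2 * τ + 1) := by ring
        _ < _ := hcardA
    -- the conditions of `StFix`
    set A := τ * (4 * d0) / p + τ * (4 * d1) / q + 2 with hAdef
    have hexp : 2 * H * (A + 1) ≤ 3 * (H * b') := by
      rw [← hbb, hAdef]
      exact exp_le hp0 hq0 hH1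
    have hsm : h * (5 + 8 * (1 + 2 * b' + A)) < τ := by
      have := small_exp (c := c) hh hH1 hp0 hq0 hcdef hK30 hKp hKq hτc hτ.le
      have e : h * (5 + 8 * (1 + 2 * b' + A)) = h * (13 + 16 * b' + 8 * A) := by ring
      rw [e]
      exact this
    have hDp : 4 * d0 ≤ p := by
      have h1 : (u : ℝ) ≤ τ / q := by rw [hu]; exact Nat.cast_div_le
      have h2 : (τ : ℝ) / q ≤ c * p := by
        rw [div_le_iff₀ (by linarith)]; linarith
      have h3 : ((4 * d0 : ℕ) : ℝ) ≤ p := by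
        rw [hd0]; push_cast
        have h4 : (u : ℝ) + 1 ≤ c * p + 1 := by linarith
        have h5 : (4 : ℝ) * (8 * H * (u + 1)) ≤ 32 * H * (c * p + 1) := by
          calc (4 : ℝ) * (8 * H * (u + 1)) = 32 * H * (u + 1) := by ring
            _ ≤ _ := by gcongr
        have h6 : 32 * H * (c * p) ≤ (p : ℝ) / 2 := by
          rw [hcdef]
          have : 32 * (H : ℝ) * (1 / (8000 * h * H) * p) = (32 / 8000) * (p / h) := by field_simp
          rw [this]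
          have h7 : (p : ℝ) / h ≤ p := div_le_self (by linarith) hh'
          linarith
        have h8 : 32 * (H : ℝ) ≤ (p : ℝ) / 2 := by
          have h9 : ((30000 * h * H : ℕ) : ℝ) ≤ p := by exact_mod_cast hK30.trans hKp
          push_cast at h9
          have h10 : (30000 : ℝ) * H ≤ 30000 * h * H := by
            have : (H : ℝ) ≤ h * H := le_mul_of_one_le_left hHpos.le hh'
            linarith
          linarith
        linarith
      exact_mod_cast h3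
    have hmain := hF p q r s₁ s₂ hE N τ h E (H * b') (4 * d0) (4 * d1) A R R LL LL z (by omega)
      hpE hqE hrE hb1 (by rw [hDI16]) hDp (size_le hp0 hq0 (by omega))
      (fun l hl => ⟨(hLL l hl).1, hlR l hl, by
        have h1 : 0 < N ^ A := pow_pos (by omega) _
        have h2 : 0 < l ^ (H * b') := pow_pos (hLL l hl).1.pos _
        calc 4 * d0 * (4 * d1) * l ^ (H * b') * N ^ A < N * l ^ (H * b') * N ^ A := by
              gcongr
          _ = l ^ (H * b') * N ^ (A + 1) := by rw [pow_succ]; ring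
          _ ≤ l ^ (H * b') * (l ^ (2 * H)) ^ (A + 1) := by
              gcongr; exact hlH2 l hl
          _ = l ^ (H * b' + 2 * H * (A + 1)) := by rw [← pow_mul, ← pow_add]
          _ ≤ l ^ (4 * (H * b')) := by
              apply Nat.pow_le_pow_right (hLL l hl).1.pos
              omega, by
        exact small_le hN2 h6E (gB_le hDIN.le hDI16 hb1 (hlH l hl) hE1 hEb) hsm⟩)
      (by
        refine lt_of_le_of_lt ?_ (hprod (τ + 1) (by omega))
        rw [pow_succ, mul_comm]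
        exact Nat.mul_le_mul_left _ hpN')
      (fun l hl => ⟨(hLL l hl).1, hlR l hl⟩) (hprod (2 * τ) (by omega)).le
    refine PB_mono hmain (Nat.le_floor ?_)
    have hfin : ((LL.card * (R ^ 3 * (4 * d0 + 4 * d0 * (4 * d1) * (LL.card * R ^ 3))) : ℕ) : ℝ) ≤
        A₀ ^ 807 := by
      have hc' : (LL.card : ℝ) ≤ A₀ ^ 100 := by
        have : (LL.card : ℝ) ≤ R := by exact_mod_cast hcardR
        linarith
      have e1 : ((LL.card * (R ^ 3 * (4 * d0 + 4 * d0 * (4 * d1) * (LL.card * R ^ 3))) : ℕ) : ℝ) =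
          (LL.card : ℝ) * ((R : ℝ) ^ 3 * (((4 * d0 : ℕ) : ℝ) +
            ((4 * d0 * (4 * d1) : ℕ) : ℝ) * ((LL.card : ℝ) * (R : ℝ) ^ 3))) := by
        push_cast; ring
      rw [e1]
      have hp3 : (0 : ℝ) < A₀ ^ 3 := by positivity
      have hp6 : (0 : ℝ) < A₀ ^ 6 := by positivity
      calc (LL.card : ℝ) * ((R : ℝ) ^ 3 * (((4 * d0 : ℕ) : ℝ) +
            ((4 * d0 * (4 * d1) : ℕ) : ℝ) * ((LL.card : ℝ) * (R : ℝ) ^ 3)))
          ≤ A₀ ^ 100 * ((A₀ ^ 100) ^ 3 * (A₀ ^ 3 + A₀ ^ 6 * (A₀ ^ 100 * (A₀ ^ 100) ^ 3))) := by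
            gcongr
            · linarith
            · linarith
        _ = A₀ ^ 403 + A₀ ^ 806 := by ring
        _ ≤ A₀ ^ 806 + A₀ ^ 806 :=
            add_le_add (pow_le_pow_right₀ hA1' (by norm_num)) le_rfl
        _ = 2 * A₀ ^ 806 := by ring
        _ ≤ A₀ * A₀ ^ 806 := by gcongr; linarith
        _ = A₀ ^ 807 := by ring
    refine hfin.trans ?_
    rw [hApow]
    apply Real.rpow_le_rpow_of_exponent_le hNR.le
    rw [hδdef]
    push_cast
    rw [mul_one_div, div_le_iff₀ (by positivity)]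
    have : ε * (100 * H) = 100 * (ε * H) := by ring
    rw [this]
    linarith

end Pool.Agent.Lib.MP_509488_nt.Wt
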