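import Pool.Agent.Lib.MP_509488_nt.Wt.Stmts
import Pool.Agent.Lib.MP_509488_nt.Sparse.Ari

/-!
# One small base, few solutions: the Jacobian (7)
-/

namespace Pool.Agent.Lib.MP_509488_nt.Wt

open MvPolynomial Finset

namespace JacAux

open Sparse

theorem crs_orth' (g H : Pol) (P : Pt) : ∑ j, crs g H j P * eval P (pderiv j H) = 0 := by
  unfold crs
  rw [Fin.sum_univ_three]
  show (eval P (pderiv 1 g) * eval P (pderiv 2 H) -
      eval P (pderiv 2 g) * eval P (pderiv 1 H)) * eval P (pderiv 0 H) +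
    (eval P (pderiv 2 g) * eval P (pderiv 0 H) -
      eval P (pderiv 0 g) * eval P (pderiv 2 H)) * eval P (pderiv 1 H) +
    (eval P (pderiv 0 g) * eval P (pderiv 1 H) -
      eval P (pderiv 1 g) * eval P (pderiv 0 H)) * eval P (pderiv 2 H) = 0
  ring

theorem crs_le {g H : Pol} {P : Pt} {X : ℤ} (hA : ∀ i, |eval P (pderiv i g)| ≤ X)
    (hB : ∀ i, |eval P (pderiv i H)| ≤ X) (a : Fin 3) : |crs g H a P| ≤ 2 * (X * X) := by
  have hX : 0 ≤ X := le_trans (abs_nonneg _) (hA 0)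
  unfold crs
  have m : ∀ i j, |eval P (pderiv i g) * eval P (pderiv j H)| ≤ X * X := by
    intro i j
    rw [abs_mul]
    exact mul_le_mul (hA i) (hB j) (abs_nonneg _) hX
  have t1 := abs_sub (eval P (pderiv (a + 1) g) * eval P (pderiv (a + 2) H))
    (eval P (pderiv (a + 2) g) * eval P (pderiv (a + 1) H))
  have t2 := m (a + 1) (a + 2)
  have t3 := m (a + 2) (a + 1)
  linarith

/-- The Jacobian does not vanish. -/
theorem jac_ne (s : Fin 3 → ℤ) (e : Fin 3 → ℕ) (P : Pt) (i₀ t : Fin 3) (g H : Pol) (X : ℤ)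
    (hs : Sgn s) (he : ∀ i, 1 ≤ e i) (hP : ∀ i, 1 ≤ P i) (hc : Cop P)
    (h0 : ∑ i, s i * P i ^ e i = 0) (heul : eul e H P ≠ 0) (hgt : eval P (pderiv t g) ≠ 0)
    (htH : t ∉ H.vars) (hA : ∀ i, |eval P (pderiv i g)| ≤ X)
    (hB : ∀ i, |eval P (pderiv i H)| ≤ X)
    (hb : ∀ i j, 4 * (e i * P j * (X * X)) < P i₀ ^ (e i₀ - 1)) :
    jac ![fpoly s e, g, H] P ≠ 0 := by
  intro hjac
  have hτ := crs_le hA hB
  rw [jac_expand] at hjac
  have h1 : ∑ i, s i * e i * P i ^ (e i - 1) * crs g H i P = 0 := by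
    rw [← hjac]
    apply Finset.sum_congr rfl
    intro i _
    rw [pderiv_fpoly]
  have hrel := arith s e P (fun a => crs g H a P) i₀ hs he hP hc h0 h1 (by
    intro i j
    refine lt_of_le_of_lt ?_ (hb i j)
    have hpos : (0 : ℤ) ≤ e i * P j := by
      have := hP j
      positivity
    rw [abs_mul, abs_of_nonneg hpos]
    have := mul_le_mul_of_nonneg_left (hτ i) hpos
    linarith)
  have hzero : ∀ j, crs g H j P = 0 := by
    intro j
    have hc1 : ∀ i, (cof e i : ℤ) * e i = e 0 * e 1 * e 2 := by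
      intro i
      unfold cof
      fin_cases i
      · show ((e 1 * e 2 : ℕ) : ℤ) * e 0 = _
        push_cast
        ring
      · show ((e 2 * e 0 : ℕ) : ℤ) * e 1 = _
        push_cast
        ring
      · show ((e 0 * e 1 : ℕ) : ℤ) * e 2 = _
        push_cast
        ring
    have hm : crs g H j P * (e j * eul e H P) = 0 := by
      unfold eul
      have e1 : crs g H j P * (e j * ∑ i, (cof e i : ℤ) * P i * eval P (pderiv i H)) =
          (e 0 * e 1 * e 2) * P j * ∑ i, crs g H i P * eval P (pderiv i H) := by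
        rw [Finset.mul_sum, Finset.mul_sum, Finset.mul_sum]
        apply Finset.sum_congr rfl
        intro i _
        have r := hrel i j
        have c1 := hc1 i
        linear_combination (cof e i * eval P (pderiv i H)) * (-r) +
          (P j * crs g H i P * eval P (pderiv i H)) * c1
      rw [e1, crs_orth', mul_zero]
    rcases mul_eq_zero.1 hm with h | h
    · exact h
    · exfalso
      rcases mul_eq_zero.1 h with h | h
      · have := he j
        omega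
      · exact heul h
  have hHt : eval P (pderiv t H) = 0 := by
    rw [pderiv_eq_zero_of_notMem_vars htH, map_zero]
  have hHj : ∃ j, eval P (pderiv j H) ≠ 0 := by
    by_contra hcon
    push Not at hcon
    apply heul
    unfold eul
    apply Finset.sum_eq_zero
    intro i _
    rw [hcon i, mul_zero]
  obtain ⟨j, hj⟩ := hHj
  rcases cases3 t j with h | h | h
  · rw [h] at hj
    exact hj hHt
  · have z := hzero (t + 2)
    unfold crs at z
    have e1 : t + 2 + 1 = t := by fin_cases t <;> decide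
    have e2 : t + 2 + 2 = t + 1 := by fin_cases t <;> decide
    rw [e1, e2, hHt, mul_zero, sub_zero, ← h] at z
    rcases mul_eq_zero.1 z with z | z
    · exact hgt z
    · exact hj z
  · have z := hzero (t + 1)
    unfold crs at z
    have e1 : t + 1 + 1 = t + 2 := by fin_cases t <;> decide
    have e2 : t + 1 + 2 = t := by fin_cases t <;> decide
    rw [e1, e2, hHt, mul_zero, zero_sub, neg_eq_zero, ← h] at z
    rcases mul_eq_zero.1 z with z | z
    · exact hgt z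
    · exact hj z

/-- The Jacobian is bounded. -/
theorem jac_le (s : Fin 3 → ℤ) (e : Fin 3 → ℕ) (P : Pt) (g H : Pol) (X E F : ℤ)
    (hs : Sgn s) (hP : ∀ i, 1 ≤ P i) (hE : ∀ i, (e i : ℤ) ≤ E)
    (hF : ∀ i, P i ^ (e i - 1) ≤ F)
    (hA : ∀ i, |eval P (pderiv i g)| ≤ X) (hB : ∀ i, |eval P (pderiv i H)| ≤ X) :
    |jac ![fpoly s e, g, H] P| ≤ 3 * (E * F * (2 * (X * X))) := by
  have hτ := crs_le hA hB
  rw [jac_expand]
  have hE0 : (0 : ℤ) ≤ E := le_trans (Int.natCast_nonneg _) (hE 0)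
  have hF0 : (0 : ℤ) ≤ F := le_trans (pow_nonneg (by have := hP 0; omega) _) (hF 0)
  have h1 : ∀ i, |eval P (pderiv i (fpoly s e)) * crs g H i P| ≤ E * F * (2 * (X * X)) := by
    intro i
    rw [abs_mul]
    refine mul_le_mul ?_ (hτ i) (abs_nonneg _) (mul_nonneg hE0 hF0)
    rw [pderiv_fpoly]
    have hpos : (0 : ℤ) ≤ P i ^ (e i - 1) := pow_nonneg (by have := hP i; omega) _
    rw [abs_mul, abs_mul, abs_of_nonneg hpos]
    have hsi : |s i| = 1 := by
      rcases hs i with h | h <;> simp [h]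
    rw [hsi, one_mul, Nat.abs_cast]
    exact mul_le_mul (hE i) (hF i) hpos hE0
  refine (Finset.abs_sum_le_sum_abs _ _).trans ?_
  rw [Fin.sum_univ_three]
  linarith [h1 0, h1 1, h1 2]

/-- `Y ^ 4 < M ^ 3 ≤ (b ^ (e - 1)) ^ 4`. -/
theorem lt_of_four {E X a b M : ℤ} {e : ℕ} (he : 4 ≤ e)
    (hb : 1 ≤ b) (hM : M = b ^ e) (ha2 : a ^ 2 ≤ 2 * M) (hS : (6 * E * X ^ 2) ^ 4 < M) :
    4 * (E * a * (X * X)) < b ^ (e - 1) := by
  have hM1 : 1 ≤ M := hM ▸ one_le_pow₀ hb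
  have hb0 : (0 : ℤ) ≤ b ^ (e - 1) := pow_nonneg (by omega) _
  apply lt_of_pow_lt_pow_left₀ 4 hb0
  have h3 : M ^ 3 ≤ (b ^ (e - 1)) ^ 4 := by
    rw [hM, ← pow_mul, ← pow_mul]
    exact pow_le_pow_right₀ hb (by omega)
  refine lt_of_lt_of_le ?_ h3
  have ha4 : a ^ 4 ≤ 4 * M ^ 2 := by
    have : (a ^ 2) ^ 2 ≤ (2 * M) ^ 2 := pow_le_pow_left₀ (by positivity) ha2 2
    nlinarith
  have hEX : (0 : ℤ) ≤ (E * X ^ 2) ^ 4 := by positivity
  calc (4 * (E * a * (X * X))) ^ 4 = 256 * (E * X ^ 2) ^ 4 * a ^ 4 := by ring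
    _ ≤ 256 * (E * X ^ 2) ^ 4 * (4 * M ^ 2) :=
        mul_le_mul_of_nonneg_left ha4 (by positivity)
    _ ≤ (6 * E * X ^ 2) ^ 4 * M ^ 2 := by
        have : (0 : ℤ) ≤ (E * X ^ 2) ^ 4 * M ^ 2 := by positivity
        nlinarith
    _ < M * M ^ 2 := mul_lt_mul_of_pos_right hS (by positivity)
    _ = M ^ 3 := by ring

end JacAux

open JacAux in
/-- Statement (7). -/
theorem stJac : StJac := by
  intro p q r s₁ s₂ hexp N τ h E X P t g H hG hpE hqE hrE hS hA hB heul hgt htH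
  obtain ⟨hEq, hP, hc, hx, hy, hz, hM⟩ := hG
  have hp4 := hexp.p4
  have hq4 := hexp.q4
  have hr2 := hexp.hr.two_le
  unfold Surf.Eqn at hEq
  -- the signs
  have hs : Sparse.Sgn (sg s₁ s₂) := by
    intro i
    fin_cases i
    · right; rfl
    · exact hexp.e₂
    · exact hexp.e₁
  have he1 : ∀ i, 1 ≤ ev p q r i := by
    intro i
    fin_cases i
    · show 1 ≤ p
      omega
    · show 1 ≤ q
      omega
    · show 1 ≤ r
      omega
  have heE : ∀ i, ((ev p q r i : ℕ) : ℤ) ≤ (E : ℤ) := by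
    intro i
    fin_cases i
    · exact_mod_cast hpE
    · exact_mod_cast hqE
    · exact_mod_cast hrE
  have h0 : ∑ i, sg s₁ s₂ i * P i ^ ev p q r i = 0 := by
    rw [Fin.sum_univ_three]
    show -1 * P 0 ^ p + s₂ * P 1 ^ q + s₁ * P 2 ^ r = 0
    linear_combination -hEq
  -- the maximum
  set M : ℤ := max (P 0 ^ p) (P 1 ^ q) with hMdef
  have hxM : P 0 ^ p ≤ M := le_max_left _ _
  have hyM : P 1 ^ q ≤ M := le_max_right _ _
  have hx1 : 1 ≤ P 0 ^ p := one_le_pow₀ (hP 0)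
  have hy1 : 1 ≤ P 1 ^ q := one_le_pow₀ (hP 1)
  have hz1 : 1 ≤ P 2 ^ r := one_le_pow₀ (hP 2)
  have hM1 : 1 ≤ M := hx1.trans hxM
  have hMN : M ≤ (N : ℤ) ^ τ := max_le hx hy
  have hz2 : P 2 ^ r ≤ P 0 ^ p + P 1 ^ q := by
    rcases hexp.e₁ with h1 | h1 <;> rcases hexp.e₂ with h2 | h2 <;> rw [h1, h2] at hEq <;>
      linarith
  -- `X ≥ 1`
  have hX1 : (1 : ℤ) ≤ X := (Int.one_le_abs hgt).trans (hA t)
  have hE1 : (1 : ℤ) ≤ E := by
    have : 1 ≤ E := by omega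
    exact_mod_cast this
  -- `h ≥ 1`
  unfold Small at hS
  have hSZ : (2 * (6 * (E : ℤ) * (X : ℤ) ^ 2) ^ 4) ^ h < (N : ℤ) ^ τ := by exact_mod_cast hS
  have hh : h ≠ 0 := by
    rintro rfl
    rw [pow_zero] at hM hSZ
    omega
  have hS' : (6 * (E : ℤ) * (X : ℤ) ^ 2) ^ 4 < M := by
    have h1 := lt_of_lt_of_le hSZ hM
    have h2 := lt_of_pow_lt_pow_left₀ h (by positivity) h1
    linarith
  have hsq : ∀ j, P j ^ 2 ≤ 2 * M := by
    intro j
    fin_cases j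
    · have : P 0 ^ 2 ≤ P 0 ^ p := pow_le_pow_right₀ (hP 0) (by omega)
      show P 0 ^ 2 ≤ 2 * M
      linarith
    · have : P 1 ^ 2 ≤ P 1 ^ q := pow_le_pow_right₀ (hP 1) (by omega)
      show P 1 ^ 2 ≤ 2 * M
      linarith
    · have : P 2 ^ 2 ≤ P 2 ^ r := pow_le_pow_right₀ (hP 2) (by omega)
      show P 2 ^ 2 ≤ 2 * M
      linarith
  constructor
  · obtain ⟨i₀, hi4, hiM⟩ : ∃ i₀ : Fin 3, 4 ≤ ev p q r i₀ ∧ M = P i₀ ^ ev p q r i₀ := by
      rcases le_total (P 0 ^ p) (P 1 ^ q) with hle | hle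
      · exact ⟨1, hq4, max_eq_right hle⟩
      · exact ⟨0, hp4, max_eq_left hle⟩
    refine jac_ne _ _ P i₀ t g H X hs he1 hP hc h0 heul hgt htH hA hB ?_
    intro i j
    have h1 := lt_of_four hi4 (hP i₀) hiM (hsq j) hS'
    refine lt_of_le_of_lt ?_ h1
    have hPj : (0 : ℤ) ≤ P j := by have := hP j; omega
    have h2 : ((ev p q r i : ℕ) : ℤ) * P j ≤ (E : ℤ) * P j :=
      mul_le_mul_of_nonneg_right (heE i) hPj
    have h3 := mul_le_mul_of_nonneg_right h2 (show (0 : ℤ) ≤ (X : ℤ) * X by positivity)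
    linarith
  · have hF : ∀ i, P i ^ (ev p q r i - 1) ≤ 2 * (N : ℤ) ^ τ := by
      intro i
      have h1 : P i ^ (ev p q r i - 1) ≤ P i ^ ev p q r i :=
        pow_le_pow_right₀ (hP i) (by omega)
      refine h1.trans ?_
      fin_cases i
      · show P 0 ^ p ≤ 2 * (N : ℤ) ^ τ
        linarith
      · show P 1 ^ q ≤ 2 * (N : ℤ) ^ τ
        linarith
      · show P 2 ^ r ≤ 2 * (N : ℤ) ^ τ
        linarith
    have h1 := jac_le _ _ P g H X E _ hs hP heE hF hA hB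
    refine lt_of_le_of_lt h1 ?_
    have hw : (1 : ℤ) ≤ 6 * (E : ℤ) * (X : ℤ) ^ 2 := by
      have h2 : (1 : ℤ) ≤ (X : ℤ) ^ 2 := one_le_pow₀ hX1
      nlinarith
    have h3 : 2 * (6 * (E : ℤ) * (X : ℤ) ^ 2) ≤ (2 * (6 * (E : ℤ) * (X : ℤ) ^ 2) ^ 4) ^ h := by
      have h4 : 6 * (E : ℤ) * (X : ℤ) ^ 2 ≤ (6 * (E : ℤ) * (X : ℤ) ^ 2) ^ 4 :=
        le_self_pow₀ hw (by norm_num)
      have h5 : 2 * (6 * (E : ℤ) * (X : ℤ) ^ 2) ^ 4 ≤ (2 * (6 * (E : ℤ) * (X : ℤ) ^ 2) ^ 4) ^ h :=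
        le_self_pow₀ (by linarith) hh
      linarith
    have h6 : 2 * (6 * (E : ℤ) * (X : ℤ) ^ 2) < (N : ℤ) ^ τ := lt_of_le_of_lt h3 hSZ
    have hN0 : (0 : ℤ) < (N : ℤ) ^ τ := by linarith
    have h7 := mul_lt_mul_of_pos_right h6 hN0
    have h8 : (N : ℤ) ^ (2 * τ) = (N : ℤ) ^ τ * (N : ℤ) ^ τ := by
      rw [two_mul, pow_add]
    rw [h8]
    calc 3 * ((E : ℤ) * (2 * (N : ℤ) ^ τ) * (2 * ((X : ℤ) * X)))
        = 2 * (6 * (E : ℤ) * (X : ℤ) ^ 2) * (N : ℤ) ^ τ := by ring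
      _ < _ := h7

end Pool.Agent.Lib.MP_509488_nt.Wt
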