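import Pool.Agent.Lib.MP_509488_nt.Wt.Stmts
import Pool.Agent.Lib.MP_509488_nt.Surf.LocSurf
import Pool.Agent.Lib.MP_509488_nt.Surf.Hensel

/-! Module (9) of Wt: the points of a class with given `z` are one-dimensional. -/

namespace Pool.Agent.Lib.MP_509488_nt.Wt

open Surf.LocAux in
theorem stLocFix : StLocFix := by
  intro ℓ p q r s₁ s₂ z S P₀ hℓ hE hP hp n
  choose w hw using fun (P : S) (i : Fin 3) => hP P.1 P.2 i
  set t : S → Fin 1 → ℤ := fun P => ![w P 1] with ht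
  set Φ₁ : MvPolynomial (Fin 1) ℤ := MvPolynomial.C (P₀ 1) + MvPolynomial.X 0 with hΦ₁
  set Φ₂ : MvPolynomial (Fin 1) ℤ := MvPolynomial.C z with hΦ₂
  have h₁ : ∀ P : S, (ℓ : ℤ) ^ n ∣ P.1 1 -
      MvPolynomial.eval (fun k => (ℓ : ℤ) * t P k) Φ₁ := by
    intro P
    have h2 : P.1 1 - MvPolynomial.eval (fun k => (ℓ : ℤ) * t P k) Φ₁ = 0 := by
      simp only [hΦ₁, map_add, MvPolynomial.eval_C, MvPolynomial.eval_X, ht,
        Matrix.cons_val_fin_one]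
      linear_combination hw P 1
    rw [h2]
    exact dvd_zero _
  have h₂ : ∀ P : S, (ℓ : ℤ) ^ n ∣ P.1 2 -
      MvPolynomial.eval (fun k => (ℓ : ℤ) * t P k) Φ₂ := by
    intro P
    have h2 : P.1 2 - MvPolynomial.eval (fun k => (ℓ : ℤ) * t P k) Φ₂ = 0 := by
      simp only [hΦ₂, MvPolynomial.eval_C]
      rw [(hE P.1 P.2).2, sub_self]
    rw [h2]
    exact dvd_zero _
  obtain ⟨Φ₀, h₀⟩ := exists_x (n := n) Surf.stHensel hℓ (fun P hPS => (hE P hPS).1)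
    (fun P hPS => hP P hPS 0) hp t Φ₁ Φ₂ h₁ h₂
  refine ⟨![Φ₀, Φ₁, Φ₂], fun P hPS => ⟨t ⟨P, hPS⟩, fun i => ?_⟩⟩
  fin_cases i
  · exact h₀ ⟨P, hPS⟩
  · exact h₁ ⟨P, hPS⟩
  · exact h₂ ⟨P, hPS⟩

end Pool.Agent.Lib.MP_509488_nt.Wt
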