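import Pool.Agent.Lib.MP_509488_nt.Wt.Main3

/-!
# One small base, few solutions: the main theorem, end
-/

namespace Pool.Agent.Lib.MP_509488_nt.Wt

open Finset

namespace MainAux

theorem finite_of {α : Type*} {S : Set α} {B : ℕ} (h : ∀ U : Finset α, (∀ v ∈ U, v ∈ S) →
    U.card ≤ B) : S.Finite ∧ S.ncard ≤ B := by
  have hf : S.Finite := by
    by_contra hinf
    obtain ⟨U, hU, hc⟩ := (show S.Infinite from hinf).exists_subset_card_eq (B + 1)
    have := h U (fun v hv => hU (Finset.mem_coe.2 hv))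
    omega
  refine ⟨hf, ?_⟩
  rw [Set.ncard_eq_toFinset_card _ hf]
  exact h _ (fun v hv => (hf.mem_toFinset).1 hv)

end MainAux

open MainAux in
/-- (16) The main theorem. -/
theorem stMain (hF : StFixA) (hA : StAllA) (hT : StTwoP) : StMain := by
  classical
  intro ε hε
  obtain ⟨ε', hε'⟩ : ∃ ε' : ℝ, ε' = min ε 1 := ⟨_, rfl⟩
  have hε'0 : 0 < ε' := by rw [hε']; positivity
  have hε'1 : ε' ≤ 1 := by rw [hε']; exact min_le_right _ _
  have hε'ε : ε' ≤ ε := by rw [hε']; exact min_le_left _ _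
  obtain ⟨c₁, hc₁0, hc₁ε, K, N₁, hK4, H⟩ := raw_asym hF hA ε' hε'0 hε'1
  obtain ⟨c, hc0, hred⟩ := red hT c₁ hc₁0
  obtain ⟨N₂, hN₂1, hN₂⟩ := eventually_pow_ge c₁ 576 hc₁0
  -- log N is small
  obtain ⟨N₃, hN₃⟩ : ∃ N₃ : ℕ, ∀ N : ℕ, N₃ ≤ N → Real.log N ≤ (N : ℝ) ^ c₁ / 8 := by
    have h1 : Filter.Tendsto (fun N : ℕ => (N : ℝ)) Filter.atTop Filter.atTop :=
      tendsto_natCast_atTop_atTop
    have h2 := (isLittleO_log_rpow_atTop hc₁0).bound (show (0 : ℝ) < 1 / 8 by norm_num)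
    obtain ⟨N₃, h3⟩ := Filter.eventually_atTop.1 (h1.eventually h2)
    refine ⟨N₃ + 1, fun N hN => ?_⟩
    have h4 := h3 N (by omega)
    rw [Real.norm_of_nonneg (Real.log_natCast_nonneg N), Real.norm_of_nonneg (by positivity)] at h4
    linarith
  refine ⟨c, hc0, K, N₁ + N₂ + N₃ + 2, ?_⟩
  intro N hN
  have hNR : (1 : ℝ) ≤ N := by exact_mod_cast (by omega : 1 ≤ N)
  have hN0 : (0 : ℝ) < N := by linarith
  have hpow : ∀ {u v : ℝ}, u ≤ v → (N : ℝ) ^ u ≤ (N : ℝ) ^ v :=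
    fun h => Real.rpow_le_rpow_of_exponent_le hNR h
  obtain ⟨T, hT'⟩ : ∃ T : ℕ, T = ⌊(N : ℝ) ^ c₁⌋₊ := ⟨_, rfl⟩
  have hTR : (T : ℝ) ≤ (N : ℝ) ^ c₁ := by rw [hT']; exact Nat.floor_le (by positivity)
  have h576 := hN₂ N (by omega)
  have hT576 : 576 ≤ T := by rw [hT']; exact Nat.le_floor (by exact_mod_cast h576)
  have hT576R : (576 : ℝ) ≤ T := by exact_mod_cast hT576
  have hTlow : (N : ℝ) ^ c₁ ≤ 2 * T := by
    have : (N : ℝ) ^ c₁ < T + 1 := by rw [hT']; exact Nat.lt_floor_add_one _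
    linarith
  have hlog : Real.log N ≤ T / 4 := by
    have := hN₃ N (by omega)
    linarith
  obtain ⟨B, hB⟩ : ∃ B : ℕ, B = ⌊(N : ℝ) ^ (ε' / 2)⌋₊ := ⟨_, rfl⟩
  have hBR : (B : ℝ) ≤ (N : ℝ) ^ (ε' / 2) := by rw [hB]; exact Nat.floor_le (by positivity)
  have hcard : ∀ U : Finset (ℕ × ℕ × ℕ × ℕ × ℕ × ℕ), (∀ v ∈ U, v ∈ Sols c K N) →
      U.card ≤ 8 * ((T + 1) ^ 2 * (T ^ 3 + 1)) * B := by
    intro U hU
    have hJ : ∀ v ∈ U, ∃ j ∈ J T, v ∈ V c₁ K N j := by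
      intro v hv
      obtain ⟨x, y, z, p, q, r, rfl, hx, hy, hz, hzN, hxy, hp, hq, hr, hne, hKp, hKq, he, hpN,
        hqN, hxs, hys⟩ := hred K N (by omega) (by omega) (hU v hv)
      have hp0 : (0 : ℝ) < p := by exact_mod_cast hp.pos
      have hq0 : (0 : ℝ) < q := by exact_mod_cast hq.pos
      have hpT : p ≤ T := by rw [hT']; exact Nat.le_floor hpN
      have hqT : q ≤ T := by rw [hT']; exact Nat.le_floor hqN
      have hpTR : (p : ℝ) ≤ T := by exact_mod_cast hpT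
      have hqTR : (q : ℝ) ≤ T := by exact_mod_cast hqT
      -- sizes
      have hsz : ∀ u k : ℕ, (u : ℝ) ^ k ≤ (N : ℝ) ^ (c₁ * (p * q)) →
          (u : ℤ) ^ k ≤ (N : ℤ) ^ (⌊c₁ * (p * q : ℝ)⌋₊ + 1) := by
        intro u k hu
        have h1 : (u : ℝ) ^ k ≤ (N : ℝ) ^ (⌊c₁ * (p * q : ℝ)⌋₊ + 1) := by
          refine hu.trans ?_
          rw [← Real.rpow_natCast]
          apply hpow
          push_cast
          exact (Nat.lt_floor_add_one _).le
        exact_mod_cast h1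
      -- the bound for `r`
      have hrT : r ≤ T ^ 3 := by
        have hzr : (z : ℝ) ^ r ≤ 2 * (N : ℝ) ^ (c₁ * (p * q)) := by
          have hxp : (0 : ℝ) ≤ (x : ℝ) ^ p := by positivity
          have hyq : (0 : ℝ) ≤ (y : ℝ) ^ q := by positivity
          rcases he with h | h | h
          · have : (x : ℝ) ^ p + (y : ℝ) ^ q = (z : ℝ) ^ r := by exact_mod_cast h
            linarith
          · have : (x : ℝ) ^ p + (z : ℝ) ^ r = (y : ℝ) ^ q := by exact_mod_cast h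
            linarith
          · have : (y : ℝ) ^ q + (z : ℝ) ^ r = (x : ℝ) ^ p := by exact_mod_cast h
            linarith
        have hz2 : (2 : ℝ) ≤ z := by exact_mod_cast hz
        have h1 : (r : ℝ) * Real.log 2 ≤ Real.log 2 + c₁ * (p * q) * Real.log N := by
          have h2 : Real.log ((2 : ℝ) ^ r) ≤ Real.log (2 * (N : ℝ) ^ (c₁ * (p * q))) := by
            apply Real.log_le_log (by positivity)
            exact (pow_le_pow_left₀ (by norm_num) hz2 r).trans hzr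
          rwa [Real.log_pow, Real.log_mul (by norm_num) (by positivity),
            Real.log_rpow hN0] at h2
        have hl2 := Real.log_two_gt_d9
        have hl2' := Real.log_two_lt_d9
        have hlN : 0 ≤ Real.log N := Real.log_nonneg hNR
        have hc1 : c₁ ≤ 1 := by linarith
        have h3 : c₁ * (p * q) * Real.log N ≤ 1 * (T * T) * (T / 4) := by gcongr
        have h4 : (r : ℝ) / 2 ≤ 1 + T ^ 3 / 4 := by nlinarith
        have hT3 : (576 : ℝ) ≤ T ^ 3 := by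
          calc (576 : ℝ) ≤ T := hT576R
            _ = T ^ 1 := (pow_one _).symm
            _ ≤ T ^ 3 := pow_le_pow_right₀ (by linarith) (by norm_num)
        have h5 : (r : ℝ) ≤ (T : ℝ) ^ 3 := by linarith
        exact_mod_cast h5
      have hrN : (r : ℝ) ≤ (N : ℝ) ^ (4 * c₁) := by
        have h1 : (r : ℝ) ≤ (T : ℝ) ^ 3 := by exact_mod_cast hrT
        calc (r : ℝ) ≤ (T : ℝ) ^ 3 := h1
          _ ≤ ((N : ℝ) ^ c₁) ^ 3 := by gcongr
          _ = (N : ℝ) ^ (c₁ * 3) := by rw [Real.rpow_mul hN0.le]; norm_cast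
          _ ≤ (N : ℝ) ^ (4 * c₁) := hpow (by linarith)
      obtain ⟨s₁, s₂, h1, h2, h3⟩ := orient (a := ⌊c₁ * (p * q : ℝ)⌋₊ + 1) hx hy hz hzN hxy hp hq
        hr hne (by omega) (by omega) he (hsz x p hxs) (hsz y q hys)
      rcases h3 with ⟨h4, h5⟩ | ⟨h4, h5⟩
      · refine ⟨(p, q, r, s₁, s₂, false), ?_, ?_⟩
        · unfold J
          simp only [Finset.mem_product, Finset.mem_range, Finset.mem_insert,
            Finset.mem_singleton, Finset.mem_univ, and_true]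
          exact ⟨by omega, by omega, by omega, h1, h2⟩
        · exact ⟨rfl, h4, hKp, hKq, hpN, hqN, hrN, h5⟩
      · refine ⟨(q, p, r, s₁, s₂, true), ?_, ?_⟩
        · unfold J
          simp only [Finset.mem_product, Finset.mem_range, Finset.mem_insert,
            Finset.mem_singleton, Finset.mem_univ, and_true]
          exact ⟨by omega, by omega, by omega, h1, h2⟩
        · refine ⟨rfl, h4, hKq, hKp, hqN, hpN, hrN, ?_⟩
          show pt true (x, y, z, p, q, r) ∈ Raw q p r s₁ s₂ N (⌊c₁ * ((q : ℝ) * (p : ℝ))⌋₊ + 1)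
          rw [mul_comm (q : ℝ) (p : ℝ)]
          exact h5
    have h1 : U ⊆ (J T).biUnion fun j => U.filter fun v => v ∈ V c₁ K N j := by
      intro v hv
      obtain ⟨j, hj, hvj⟩ := hJ v hv
      simp only [mem_biUnion, mem_filter]
      exact ⟨j, hj, hv, hvj⟩
    calc U.card ≤ _ := card_le_card h1
      _ ≤ (J T).card * B := card_biUnion_le_card_mul _ _ _ fun j _ =>
          V_bound (B := B) (by rw [hB]; exact H N (by omega)) j _ fun v hv => (mem_filter.1 hv).2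
      _ = 8 * ((T + 1) ^ 2 * (T ^ 3 + 1)) * B := by rw [card_J]
  obtain ⟨hfin, hle⟩ := finite_of hcard
  refine ⟨hfin, ?_⟩
  have h1 : ((Sols c K N).ncard : ℝ) ≤ 8 * (((T : ℝ) + 1) ^ 2 * ((T : ℝ) ^ 3 + 1)) * B := by
    exact_mod_cast hle
  have hT1 : (1 : ℝ) ≤ (T : ℝ) ^ 3 := one_le_pow₀ (by linarith)
  have hB0 : (0 : ℝ) ≤ B := by positivity
  calc ((Sols c K N).ncard : ℝ) ≤ 8 * (((T : ℝ) + 1) ^ 2 * ((T : ℝ) ^ 3 + 1)) * B := h1
    _ ≤ 8 * ((2 * (T : ℝ)) ^ 2 * (2 * (T : ℝ) ^ 3)) * (N : ℝ) ^ (ε' / 2) := by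
        gcongr
        · linarith
        · linarith
    _ = 64 * (T : ℝ) ^ 5 * (N : ℝ) ^ (ε' / 2) := by ring
    _ ≤ (T : ℝ) * (T : ℝ) ^ 5 * (N : ℝ) ^ (ε' / 2) := by
        gcongr
        linarith
    _ = (T : ℝ) ^ 6 * (N : ℝ) ^ (ε' / 2) := by ring
    _ ≤ ((N : ℝ) ^ c₁) ^ 6 * (N : ℝ) ^ (ε' / 2) := by gcongr
    _ = (N : ℝ) ^ (c₁ * 6 + ε' / 2) := by
        rw [Real.rpow_add hN0, Real.rpow_mul hN0.le]; norm_cast
    _ ≤ (N : ℝ) ^ ε := hpow (by linarith)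

end Pool.Agent.Lib.MP_509488_nt.Wt
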