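import Pool.Agent.Lib.MP_509488_nt.Wt.Stmts

/-!
# Module (5): exact multiplicity in the first variable
-/

namespace Pool.Agent.Lib.MP_509488_nt.Wt

open Finset

namespace MultAux

/-- The iterated derivative of a monomial. -/
lemma dit_monomial (t : Fin 3) (m : Fin 3 →₀ ℕ) (a : ℤ) (j : ℕ) :
    dit t j (MvPolynomial.monomial m a) =
      MvPolynomial.monomial (m - Finsupp.single t j) (a * ((m t).descFactorial j : ℕ)) := by
  unfold dit
  induction j with
  | zero => simp
  | succ j ih =>
    rw [Function.iterate_succ_apply', ih, MvPolynomial.pderiv_monomial]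
    have h1 : m - Finsupp.single t j - Finsupp.single t 1 = m - Finsupp.single t (j + 1) := by
      ext i
      simp only [Finsupp.coe_tsub, Pi.sub_apply]
      by_cases h : i = t
      · subst h
        simp only [Finsupp.single_eq_same]
        omega
      · simp [Finsupp.single_eq_of_ne h]
    have h2 : a * ((m t).descFactorial j : ℕ) * (((m - Finsupp.single t j : Fin 3 →₀ ℕ) t : ℕ) : ℤ) =
        a * ((m t).descFactorial (j + 1) : ℕ) := by
      rw [Nat.descFactorial_succ]
      simp only [Finsupp.coe_tsub, Pi.sub_apply, Finsupp.single_eq_same]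
      push_cast
      ring
    rw [h1, h2]

/-- The iterated derivative is additive. -/
lemma dit_sum (t : Fin 3) (j : ℕ) {ι : Type*} (s : Finset ι) (f : ι → Pol) :
    dit t j (∑ i ∈ s, f i) = ∑ i ∈ s, dit t j (f i) := by
  have key : ∀ G : Pol, dit t j G =
      (((MvPolynomial.pderiv t : Derivation ℤ Pol Pol) : Pol →ₗ[ℤ] Pol) ^ j) G := by
    intro G
    rw [Module.End.pow_apply]
    rfl
  simp only [key, map_sum]

lemma eval_dit (t : Fin 3) (j : ℕ) (G : Pol) (P : Pt) :
    MvPolynomial.eval P (dit t j G) = ∑ m ∈ G.support,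
      G.coeff m * ((m t).descFactorial j : ℕ) * ∏ i, P i ^ (m - Finsupp.single t j : Fin 3 →₀ ℕ) i := by
  conv_lhs => rw [G.as_sum, dit_sum]
  rw [map_sum]
  refine Finset.sum_congr rfl fun m _ => ?_
  rw [dit_monomial, MvPolynomial.eval_monomial]
  congr 1
  rw [Finsupp.prod_fintype]
  intro i
  simp

end MultAux

open MultAux in
theorem stMult : StMult := by
  classical
  intro D I G hG hsup
  -- the largest exponent of the first variable
  set i₀ : ℕ := G.support.sup (fun m => m 0) with hi₀
  have hne : G.support.Nonempty := MvPolynomial.support_nonempty.mpr hG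
  obtain ⟨m₀, hm₀, hm₀i⟩ := Finset.exists_mem_eq_sup G.support hne (fun m => m 0)
  have hle : ∀ m ∈ G.support, m 0 ≤ i₀ := fun m hm =>
    Finset.le_sup (f := fun m : Fin 3 →₀ ℕ => m 0) hm
  have hiD : i₀ < D := by
    rw [hi₀, hm₀i]
    exact (hsup m₀ hm₀).1
  -- the leading coefficient
  set c : Polynomial ℤ := ∑ m ∈ G.support.filter (fun m => m 0 = i₀),
    Polynomial.monomial (m 2) (G.coeff m) with hc
  have hcoeff : c.coeff (m₀ 2) = G.coeff m₀ := by
    rw [hc, Polynomial.finsetSum_coeff, Finset.sum_eq_single m₀]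
    · simp
    · intro m hm hmne
      rw [Polynomial.coeff_monomial, if_neg]
      intro h
      apply hmne
      have hm' := Finset.mem_filter.mp hm
      have h1 := hsup m hm'.1
      have h2 := hsup m₀ hm₀
      have h3 : m₀ 0 = i₀ := by rw [hi₀, hm₀i]
      ext i
      fin_cases i
      · change m 0 = m₀ 0
        rw [hm'.2, h3]
      · change m 1 = m₀ 1
        rw [h1.2.1, h2.2.1]
      · exact h
    · intro h
      exfalso
      apply h
      rw [Finset.mem_filter]
      exact ⟨hm₀, by rw [hi₀, hm₀i]⟩
  have hc0 : c ≠ 0 := by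
    intro h
    rw [h, Polynomial.coeff_zero] at hcoeff
    exact (MvPolynomial.mem_support_iff.mp hm₀) hcoeff.symm
  have hdeg : c.natDegree ≤ I := by
    rw [hc]
    refine Polynomial.natDegree_sum_le_of_forall_le _ _ fun m hm => ?_
    refine (Polynomial.natDegree_monomial_le _).trans ?_
    exact (hsup m (Finset.mem_filter.mp hm).1).2.2.le
  -- the value of the derivative
  have hval : ∀ P : Pt, MvPolynomial.eval P (dit 0 i₀ G) = (i₀.factorial : ℤ) * c.eval (P 2) := by
    intro P
    rw [eval_dit, hc, Polynomial.eval_finsetSum, Finset.mul_sum, Finset.sum_filter]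
    refine Finset.sum_congr rfl fun m hm => ?_
    by_cases h : m 0 = i₀
    · rw [if_pos h, h, Nat.descFactorial_self, Polynomial.eval_monomial, Fin.prod_univ_three]
      have e0 : (m - Finsupp.single 0 i₀ : Fin 3 →₀ ℕ) 0 = 0 := by
        simp [h]
      have e1 : (m - Finsupp.single 0 i₀ : Fin 3 →₀ ℕ) 1 = 0 := by
        simp [(hsup m hm).2.1]
      have e2 : (m - Finsupp.single 0 i₀ : Fin 3 →₀ ℕ) 2 = m 2 := by
        simp [Finsupp.single_eq_of_ne]
      rw [e0, e1, e2]
      ring
    · rw [if_neg h, Nat.descFactorial_of_lt (lt_of_le_of_ne (hle m hm) h)]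
      simp
  refine ⟨c.roots.toFinset, ?_, ?_⟩
  · calc c.roots.toFinset.card ≤ Multiset.card c.roots := Multiset.toFinset_card_le _
      _ ≤ c.natDegree := c.card_roots'
      _ ≤ I := hdeg
  · intro P hP hZ
    have hcP : c.eval (P 2) ≠ 0 := by
      intro h
      apply hZ
      rw [Multiset.mem_toFinset, Polynomial.mem_roots hc0]
      exact h
    have hex : ∃ j, MvPolynomial.eval P (dit 0 j G) ≠ 0 := by
      refine ⟨i₀, ?_⟩
      rw [hval]
      exact mul_ne_zero (by exact_mod_cast i₀.factorial_ne_zero) hcP
    have hfind := Nat.find_spec hex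
    have hmin := fun j => Nat.find_min hex (m := j)
    have hle' : Nat.find hex ≤ i₀ := by
      apply Nat.find_min'
      rw [hval]
      exact mul_ne_zero (by exact_mod_cast i₀.factorial_ne_zero) hcP
    have hpos : Nat.find hex ≠ 0 := by
      intro h
      rw [h] at hfind
      exact hfind hP
    obtain ⟨j, hj⟩ := Nat.exists_eq_succ_of_ne_zero hpos
    refine ⟨j, by omega, ?_, ?_⟩
    · have := hmin j (by omega)
      push Not at this
      exact this
    · rw [hj] at hfind
      have h1 : dit 0 (j + 1) G = MvPolynomial.pderiv 0 (dit 0 j G) := by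
        unfold dit
        rw [Function.iterate_succ_apply']
      rw [← h1]
      exact hfind

end Pool.Agent.Lib.MP_509488_nt.Wt
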