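import Pool.Agent.Lib.MP_509488_nt.Wt.Stmts
import Pool.Agent.Lib.MP_509488_nt.Sparse.Pig

/-!
# One small base, few solutions: the pigeonhole construction in one parameter
-/

namespace Pool.Agent.Lib.MP_509488_nt.Wt

namespace PigAux

open MvPolynomial Finset

/-- The polynomials whose coefficient at `a` is divisible by `l ^ |a|`. -/
def sub (l : ℕ) : Subring (MvPolynomial (Fin 1) ℤ) where
  carrier := {F | ∀ a : Fin 1 →₀ ℕ, (l : ℤ) ^ a.degree ∣ F.coeff a}
  zero_mem' := by
    intro a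
    simp
  one_mem' := by
    intro a
    by_cases h : a = 0
    · subst h
      simp
    · have h1 : (1 : MvPolynomial (Fin 1) ℤ).coeff a = 0 := by
        rw [MvPolynomial.coeff_one, if_neg (fun h' => h h'.symm)]
      rw [h1]
      simp
  add_mem' := by
    intro F G hF hG a
    rw [coeff_add]
    exact dvd_add (hF a) (hG a)
  neg_mem' := by
    intro F hF a
    rw [coeff_neg]
    exact (dvd_neg).2 (hF a)
  mul_mem' := by
    classical
    intro F G hF hG a
    rw [coeff_mul]
    apply Finset.dvd_sum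
    intro x hx
    rw [Finset.HasAntidiagonal.mem_antidiagonal] at hx
    rw [← hx, map_add, pow_add]
    exact mul_dvd_mul (hF _) (hG _)

theorem mem_sub {l : ℕ} {F : MvPolynomial (Fin 1) ℤ} : F ∈ sub l ↔
    ∀ a : Fin 1 →₀ ℕ, (l : ℤ) ^ a.degree ∣ F.coeff a :=
  Iff.rfl

theorem C_mem (l : ℕ) (z : ℤ) : (C z : MvPolynomial (Fin 1) ℤ) ∈ sub l := by
  have : (C z : MvPolynomial (Fin 1) ℤ) = (z : MvPolynomial (Fin 1) ℤ) := by simp
  rw [this]
  exact intCast_mem (sub l) z

theorem lX_mem (l : ℕ) (j : Fin 1) :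
    (C (l : ℤ) * X j : MvPolynomial (Fin 1) ℤ) ∈ sub l := by
  classical
  intro a
  rw [coeff_C_mul, coeff_X]
  split_ifs with h
  · subst h
    simp
  · simp

theorem aeval_mem {κ : Type*} (l : ℕ) (ψ : κ → MvPolynomial (Fin 1) ℤ) (hψ : ∀ i, ψ i ∈ sub l)
    (G : MvPolynomial κ ℤ) : aeval ψ G ∈ sub l := by
  induction G using MvPolynomial.induction_on with
  | C z =>
    rw [aeval_C]
    exact C_mem l z
  | add p q hp hq =>
    rw [map_add]
    exact (sub l).add_mem hp hq
  | mul_X p i hp =>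
    rw [map_mul, aeval_X]
    exact (sub l).mul_mem hp (hψ i)

theorem eval_aeval {κ : Type*} (u : Fin 1 → ℤ) (ψ : κ → MvPolynomial (Fin 1) ℤ)
    (G : MvPolynomial κ ℤ) : eval u (aeval ψ G) = eval (fun i => eval u (ψ i)) G := by
  induction G using MvPolynomial.induction_on with
  | C z => simp
  | add p q hp hq => rw [map_add, map_add, map_add, hp, hq]
  | mul_X p i hp => rw [map_mul, map_mul, map_mul, hp, aeval_X, eval_X]

end PigAux

open MvPolynomial Finset PigAux in
/-- (1) -/
theorem stPig : StPig := by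
  classical
  intro l b V E S hl hb hcard hS hV hsize
  have hE : 0 < E.card := by omega
  have hlpos : 0 < l := hl.pos
  set m : ℕ := 4 * b with hm
  have : NeZero (l ^ m) := ⟨(Nat.pow_pos hlpos).ne'⟩
  obtain ⟨Φ, hΦ⟩ := hS m
  -- the substitution
  set ψ : Fin 3 → MvPolynomial (Fin 1) ℤ := fun i => aeval (fun j => C (l : ℤ) * X j) (Φ i)
    with hψ
  have hψmem : ∀ i, ψ i ∈ sub l := fun i => aeval_mem l _ (fun j => lX_mem l j) (Φ i)
  -- the coefficients
  let vv : (E → Fin (l ^ b + 1)) → (Fin 3 →₀ ℕ) → ℤ :=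
    fun v d => if h : d ∈ E then ((v ⟨d, h⟩ : ℕ) : ℤ) else 0
  let f : (E → Fin (l ^ b + 1)) → (Fin m → ZMod (l ^ m)) :=
    fun v a => (((aeval ψ (Sparse.Pig.gp E (vv v))).coeff (Finsupp.single 0 (a : ℕ)) : ℤ) :
      ZMod (l ^ m))
  have hlt : Fintype.card (Fin m → ZMod (l ^ m)) < Fintype.card (E → Fin (l ^ b + 1)) := by
    rw [Fintype.card_fun, Fintype.card_fun, ZMod.card, Fintype.card_fin,
      Fintype.card_fin, Fintype.card_coe]
    calc (l ^ m) ^ m = l ^ (m * m) := by rw [← pow_mul]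
      _ ≤ l ^ (b * E.card) := Nat.pow_le_pow_right hlpos (by
          rw [hm]
          calc 4 * b * (4 * b) = b * (16 * b) := by ring
            _ ≤ b * E.card := Nat.mul_le_mul_left _ hcard)
      _ = (l ^ b) ^ E.card := by rw [pow_mul]
      _ < (l ^ b + 1) ^ E.card := Nat.pow_lt_pow_left (Nat.lt_succ_self _) hE.ne'
  obtain ⟨v, w, hvw, hf⟩ := Fintype.exists_ne_map_eq_of_card_lt f hlt
  set G : Pol := Sparse.Pig.gp E (fun d => vv v d - vv w d) with hG
  have hGsub : Sparse.Pig.gp E (vv v) - Sparse.Pig.gp E (vv w) = G := Sparse.Pig.gp_sub E _ _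
  -- all coefficients of the composition are divisible
  have hcoef : ∀ d : Fin 1 →₀ ℕ, (l : ℤ) ^ m ∣ (aeval ψ G).coeff d := by
    intro d
    have h1 := mem_sub.1 (aeval_mem l ψ hψmem G) d
    have hd : d = Finsupp.single 0 (d 0) := by
      refine Finsupp.ext fun i => ?_
      have hi : i = 0 := Subsingleton.elim _ _
      subst hi
      simp
    by_cases hall : d 0 < m
    · have hfa := congrFun hf (⟨d 0, hall⟩ : Fin m)
      have hfa' : (((aeval ψ (Sparse.Pig.gp E (vv v))).coeff d : ℤ) : ZMod (l ^ m)) =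
          (((aeval ψ (Sparse.Pig.gp E (vv w))).coeff d : ℤ) : ZMod (l ^ m)) := by
        rw [hd]
        exact hfa
      have h3 := (ZMod.intCast_eq_intCast_iff_dvd_sub _ _ _).1 hfa'
      rw [← hGsub, map_sub, coeff_sub]
      have h4 : ((l ^ m : ℕ) : ℤ) ∣ (aeval ψ (Sparse.Pig.gp E (vv v))).coeff d -
          (aeval ψ (Sparse.Pig.gp E (vv w))).coeff d := by
        rw [← dvd_neg, neg_sub]
        exact h3
      simpa using h4
    · have h5 : m ≤ d.degree := by
        rw [hd]
        simp only [Finsupp.degree_single]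
        omega
      exact (pow_dvd_pow _ h5).trans h1
  have hcoefG : ∀ d, |G.coeff d| ≤ (l : ℤ) ^ b := by
    intro d
    rw [hG, Sparse.Pig.coeff_gp]
    split_ifs with h
    · simp only [vv, dif_pos h]
      have h1 : ((v ⟨d, h⟩ : ℕ) : ℤ) ≤ (l : ℤ) ^ b := by
        have := Nat.lt_succ_iff.1 (v ⟨d, h⟩).2
        exact_mod_cast this
      have h2 : ((w ⟨d, h⟩ : ℕ) : ℤ) ≤ (l : ℤ) ^ b := by
        have := Nat.lt_succ_iff.1 (w ⟨d, h⟩).2
        exact_mod_cast this
      have h3 : (0 : ℤ) ≤ ((v ⟨d, h⟩ : ℕ) : ℤ) := Int.natCast_nonneg _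
      have h4 : (0 : ℤ) ≤ ((w ⟨d, h⟩ : ℕ) : ℤ) := Int.natCast_nonneg _
      rw [abs_le]
      constructor <;> linarith
    · simp
  have hsupp : G.support ⊆ E := by
    intro d hd
    by_contra hdE
    rw [mem_support_iff, hG, Sparse.Pig.coeff_gp, if_neg hdE] at hd
    exact hd rfl
  refine ⟨G, ?_, hsupp, hcoefG, ?_⟩
  · -- nonzero
    intro h0
    apply hvw
    funext d
    have h1 : G.coeff d.1 = 0 := by rw [h0]; simp
    rw [hG, Sparse.Pig.coeff_gp, if_pos d.2] at h1
    have h2 : vv v d.1 = vv w d.1 := sub_eq_zero.1 h1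
    simp only [vv, dif_pos d.2] at h2
    apply Fin.ext
    exact_mod_cast h2
  · -- vanishing
    intro P hP
    obtain ⟨t, ht⟩ := hΦ P hP
    have hψe : ∀ i, eval t (ψ i) = eval (fun j => (l : ℤ) * t j) (Φ i) := by
      intro i
      rw [hψ]
      show eval t (aeval (fun j => C (l : ℤ) * X j) (Φ i)) = _
      rw [eval_aeval]
      simp
    have h1 := Sparse.Pig.eval_cong ((l : ℤ) ^ m) P (fun i => eval t (ψ i))
      (fun i => by rw [hψe]; exact ht i) G
    have h3 : (l : ℤ) ^ m ∣ eval (fun i => eval t (ψ i)) G := by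
      rw [← eval_aeval, MvPolynomial.eval_eq]
      apply Finset.dvd_sum
      intro d _
      exact (hcoef d).mul_right _
    have h4 : (l : ℤ) ^ m ∣ eval P G := by
      have := dvd_add h1 h3
      simpa using this
    have h5 : |eval P G| ≤ (E.card : ℤ) * (l : ℤ) ^ b * V := by
      rw [MvPolynomial.eval_eq']
      calc |∑ d ∈ G.support, G.coeff d * ∏ i, P i ^ d i| ≤
            ∑ d ∈ G.support, |G.coeff d * ∏ i, P i ^ d i| := Finset.abs_sum_le_sum_abs _ _
        _ ≤ ∑ d ∈ G.support, (l : ℤ) ^ b * V := by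
            refine Finset.sum_le_sum fun d hd => ?_
            rw [abs_mul]
            exact mul_le_mul (hcoefG d) (hV P hP d (hsupp hd)) (abs_nonneg _) (by positivity)
        _ = (G.support.card : ℤ) * ((l : ℤ) ^ b * V) := by
            rw [Finset.sum_const, nsmul_eq_mul]
        _ ≤ (E.card : ℤ) * ((l : ℤ) ^ b * V) := by
            refine mul_le_mul_of_nonneg_right ?_ (by positivity)
            exact_mod_cast Finset.card_le_card hsupp
        _ = (E.card : ℤ) * (l : ℤ) ^ b * V := by ring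
    have h6 : (E.card : ℤ) * (l : ℤ) ^ b * V < (l : ℤ) ^ m := by
      exact_mod_cast hsize
    exact Int.eq_zero_of_abs_lt_dvd h4 (h5.trans_lt h6)

end Pool.Agent.Lib.MP_509488_nt.Wt
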