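import Pool.Agent.Lib.MP_509488_nt.Wt.Stmts
import Pool.Agent.Lib.MP_509488_nt.Sparse.Wei

/-!
# One small base, few solutions: the Euler operator separates (modules Sep, Inj)
-/

namespace Pool.Agent.Lib.MP_509488_nt.Wt

open MvPolynomial Finset

theorem stSep : StSep := by
  classical
  intro e G P h0
  by_cases hex : ∃ k < G.support.card, eval P (Sparse.eulk e k G) = 0 ∧
      Sparse.eul e (Sparse.eulk e k G) P ≠ 0
  · exact Or.inl hex
  · right
    push Not at hex
    have hS : ∀ k ≤ G.support.card,
        ∑ m ∈ G.support, G.coeff m * (Sparse.wt e m : ℤ) ^ k * Sparse.mv P m = 0 := by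
      intro k
      induction k with
      | zero =>
        intro _
        have : eval P G = ∑ m ∈ G.support, G.coeff m * Sparse.mv P m := by
          rw [MvPolynomial.eval_eq']
          rfl
        rw [← h0, this]
        refine Finset.sum_congr rfl fun m _ => ?_
        rw [pow_zero, mul_one]
      | succ k ih =>
        intro hk
        have h1 := ih (by omega)
        have h2 := hex k (by omega) (by rw [Sparse.eval_eulk]; exact h1)
        rwa [Sparse.eul_eulk] at h2
    exact Sparse.comp_eq_zero e G P _ le_rfl hS

theorem stInj : StInj := by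
  classical
  intro e G P hG hP hinj hall
  obtain ⟨m, hm⟩ : G.support.Nonempty := support_nonempty.mpr hG
  have h1 := hall (Sparse.wt e m)
  have h2 : Finset.filter (fun m' => Sparse.wt e m' = Sparse.wt e m) G.support = {m} := by
    ext m'
    simp only [Finset.mem_filter, Finset.mem_singleton]
    constructor
    · rintro ⟨ha, hb⟩
      exact hinj (Finset.mem_coe.mpr ha) (Finset.mem_coe.mpr hm) hb
    · rintro rfl
      exact ⟨hm, rfl⟩
  rw [Sparse.comp, h2, Finset.sum_singleton] at h1
  rcases mul_eq_zero.mp h1 with h | h
  · exact (mem_support_iff.mp hm) h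
  · rw [Finset.prod_eq_zero_iff] at h
    obtain ⟨i, _, hi⟩ := h
    exact pow_ne_zero _ (hP i) hi

end Pool.Agent.Lib.MP_509488_nt.Wt
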