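import Pool.Agent.Lib.MP_509488_nt.Wt.Stmts
import Pool.Agent.Lib.MP_509488_nt.Surf.Two

/-! Module (15) of Wt: the two-logarithms bound for prime exponents which are not all equal. -/

namespace Pool.Agent.Lib.MP_509488_nt.Wt

open Finset

namespace TwoPAux

lemma cast_one {a : ℤ} (h : Odd a) : (a : ZMod 2) = 1 := by
  obtain ⟨k, rfl⟩ := h
  have h2 : (2 : ZMod 2) = 0 := rfl
  push_cast
  rw [h2]
  ring

/-- the cofactor of `a - b` in `a ^ p - b ^ p` is odd -/
lemma dvd_sub {a b : ℤ} {p n : ℕ} (ha : Odd a) (hb : Odd b) (hp : Odd p)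
    (h : (2 : ℤ) ^ n ∣ a ^ p - b ^ p) : (2 : ℤ) ^ n ∣ a - b := by
  rw [← geom_sum₂_mul a b p] at h
  set s := ∑ i ∈ range p, a ^ i * b ^ (p - 1 - i) with hs
  have h1 : (s : ZMod 2) = 1 := by
    rw [hs]
    push_cast
    rw [cast_one ha, cast_one hb]
    simp only [one_pow, mul_one, sum_const, card_range, nsmul_eq_mul]
    have := cast_one (a := (p : ℤ)) (by exact_mod_cast hp)
    exact_mod_cast this
  have h2 : ¬ (2 : ℤ) ∣ s := by
    intro h3
    have h4 : ((s : ℤ) : ZMod 2) = 0 := by
      rw [ZMod.intCast_zmod_eq_zero_iff_dvd]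
      exact_mod_cast h3
    rw [h1] at h4
    exact one_ne_zero h4
  have h3 : IsCoprime ((2 : ℤ) ^ n) s :=
    (Int.prime_two.coprime_iff_not_dvd.2 h2).pow_left
  exact h3.dvd_of_dvd_mul_left h

lemma two_pow_le {n : ℕ} {a : ℕ} (h : 2 ^ n ≤ a) : (n : ℝ) * Real.log 2 ≤ Real.log a := by
  rw [← Real.log_pow]
  exact Real.log_le_log (by positivity) (by exact_mod_cast h)

/-- equal exponents, `z ^ p - x ^ p = y ^ q` -/
lemma eqB {x y z p q : ℕ} (hy : 2 ≤ y) (hp : Odd p) (h : x ^ p + y ^ q = z ^ p)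
    (hye : Even y) (hxo : Odd x) (hzo : Odd z) : (q : ℝ) ≤ 2 * Real.log z := by
  have hd : (2 : ℤ) ^ q ∣ (z : ℤ) ^ p - (x : ℤ) ^ p := by
    have h1 : (z : ℤ) ^ p - (x : ℤ) ^ p = (y : ℤ) ^ q := by
      have : (x : ℤ) ^ p + (y : ℤ) ^ q = (z : ℤ) ^ p := by exact_mod_cast h
      linarith
    rw [h1]
    exact pow_dvd_pow_of_dvd (by exact_mod_cast hye.two_dvd) q
  have h2 := dvd_sub (by exact_mod_cast hzo) (by exact_mod_cast hxo) hp hd
  have h3 : x < z := by
    by_contra hcon
    have h4 : z ^ p ≤ x ^ p := Nat.pow_le_pow_left (not_lt.1 hcon) p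
    have h5 : 0 < y ^ q := by positivity
    omega
  have h4 : (2 : ℤ) ^ q ≤ (z : ℤ) - x := Int.le_of_dvd (by omega) h2
  have h5 : 2 ^ q ≤ z := by
    have : ((2 ^ q : ℕ) : ℤ) ≤ z := by
      push_cast
      omega
    exact_mod_cast this
  have h6 := two_pow_le h5
  have h7 := Real.log_two_gt_d9
  nlinarith [(Nat.cast_nonneg q : (0 : ℝ) ≤ q)]

/-- equal exponents, `x ^ p + y ^ p = z ^ r`, `x ≤ y` -/
lemma eqA {x y z p r : ℕ} (hxy : x ≤ y) (hy : 2 ≤ y) (hp : Odd p) (hr : 2 ≤ r)
    (h : x ^ p + y ^ p = z ^ r)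
    (hze : Even z) (hxo : Odd x) (hyo : Odd y) (hz : 2 ≤ z) : (p : ℝ) ≤ 3 * Real.log z := by
  have hd : (2 : ℤ) ^ r ∣ (x : ℤ) ^ p - (-(y : ℤ)) ^ p := by
    have h1 : (x : ℤ) ^ p - (-(y : ℤ)) ^ p = (z : ℤ) ^ r := by
      rw [hp.neg_pow]
      have : (x : ℤ) ^ p + (y : ℤ) ^ p = (z : ℤ) ^ r := by exact_mod_cast h
      linarith
    rw [h1]
    exact pow_dvd_pow_of_dvd (by exact_mod_cast hze.two_dvd) r
  have h2 := dvd_sub (by exact_mod_cast hxo) (Odd.neg (by exact_mod_cast hyo)) hp hd
  rw [sub_neg_eq_add] at h2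
  have h4 : (2 : ℤ) ^ r ≤ (x : ℤ) + y := Int.le_of_dvd (by omega) h2
  obtain ⟨s, rfl⟩ : ∃ s, r = s + 1 := ⟨r - 1, by omega⟩
  have h5 : 2 ^ s ≤ y := by
    have h6 : ((2 ^ (s + 1) : ℕ) : ℤ) ≤ x + y := by exact_mod_cast h4
    have h7 : 2 ^ (s + 1) ≤ x + y := by exact_mod_cast h6
    rw [pow_succ] at h7
    omega
  have h6 := two_pow_le h5
  have h7 := Real.log_two_gt_d9
  have h8 : (p : ℝ) * Real.log y ≤ (s + 1 : ℕ) * Real.log z := by
    rw [← Real.log_pow, ← Real.log_pow]
    refine Real.log_le_log (by positivity) ?_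
    have : y ^ p ≤ z ^ (s + 1) := by omega
    exact_mod_cast this
  have hs : (1 : ℝ) ≤ s := by
    have : 1 ≤ s := by omega
    exact_mod_cast this
  have hz0 : 0 < Real.log z := Real.log_pos (by exact_mod_cast (by omega : 1 < z))
  have hp0 : (0 : ℝ) ≤ p := Nat.cast_nonneg p
  -- `p s log 2 ≤ (s + 1) log z ≤ 2 s log z`
  have h9 : (p : ℝ) * (s * Real.log 2) ≤ 2 * s * Real.log z := by
    calc (p : ℝ) * (s * Real.log 2) ≤ p * Real.log y := by gcongr
      _ ≤ (s + 1 : ℕ) * Real.log z := h8
      _ ≤ 2 * s * Real.log z := by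
        push_cast
        gcongr
        linarith
  have h10 : (p : ℝ) * Real.log 2 ≤ 2 * Real.log z := by
    have : (s : ℝ) * (p * Real.log 2) ≤ s * (2 * Real.log z) := by linarith
    exact le_of_mul_le_mul_left this (by linarith)
  nlinarith

end TwoPAux

open TwoPAux Surf.TwoAux in
/-- (15) -/
theorem stTwoP : StTwoP := by
  refine ⟨26000, by norm_num, fun x y z p q r hx hy hxy pp pq pr hp hq hne h => ?_⟩
  have hr : 2 ≤ r := pr.two_le
  have hp2 : 2 ≤ p := by omega
  have hq2 : 2 ≤ q := by omega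
  have hz : 2 ≤ z := by
    by_contra hz
    have h1 : z ≤ 1 := by omega
    have h2 : z ^ r ≤ 1 := pow_le_one₀ (by omega) h1
    have h3 : 2 ^ 2 ≤ x ^ p :=
      (Nat.pow_le_pow_left hx 2).trans (Nat.pow_le_pow_right (by omega) hp2)
    omega
  have hxz : x ^ p ≤ z ^ r := by omega
  have hyz : y ^ q ≤ z ^ r := by omega
  have hxl : (p : ℝ) * Real.log x ≤ r * Real.log z := by
    rw [← Real.log_pow, ← Real.log_pow]
    exact Real.log_le_log (by positivity) (by exact_mod_cast hxz)
  have hyl : (q : ℝ) * Real.log y ≤ r * Real.log z := by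
    rw [← Real.log_pow, ← Real.log_pow]
    exact Real.log_le_log (by positivity) (by exact_mod_cast hyz)
  have hΛ1 : (17 / 10 : ℝ) ≤ Real.log (p + q + r) := by
    have h1 : (6 : ℝ) ≤ p + q + r := by
      have : 6 ≤ p + q + r := by omega
      exact_mod_cast this
    refine le_trans ?_ (Real.log_le_log (by norm_num) h1)
    have h6 : Real.log 6 = Real.log 2 + Real.log 3 := by
      rw [← Real.log_mul (by norm_num) (by norm_num)]; norm_num
    have h2 := Real.log_two_gt_d9
    have h4 : (1.01 : ℝ) ≤ Real.log 3 := by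
      rw [Real.le_log_iff_exp_le (by norm_num)]
      have h5 := Real.exp_one_lt_d9
      have h7 : Real.exp (0.01 : ℝ) ≤ 1.02 := by
        have := Real.exp_bound_div_one_sub_of_interval (x := 0.01) (by norm_num) (by norm_num)
        refine this.trans ?_
        norm_num
      calc Real.exp 1.01 = Real.exp 1 * Real.exp 0.01 := by rw [← Real.exp_add]; norm_num
        _ ≤ 2.7182818286 * 1.02 := by gcongr
        _ ≤ 3 := by norm_num
    rw [h6]
    linarith
  have lz0 : 0 < Real.log z := Real.log_pos (by exact_mod_cast (by omega : 1 < z))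
  have hr0 : (2 : ℝ) ≤ r := by exact_mod_cast hr
  -- the case of equal exponents of the two odd bases, one of which is `z`
  have fin : ∀ b : ℕ, 3 ≤ z → (b : ℝ) ≤ 2 * Real.log z →
      (r * b : ℝ) ≤ 26000 * r * Real.log z ^ 2 * Real.log (p + q + r) ^ 2 := by
    intro b hz3 hb
    have lz := one_le_log hz3
    calc (r * b : ℝ) ≤ r * (2 * Real.log z) := by gcongr
      _ = 2 * (r * Real.log z) * (1 * (1 * 1)) := by ring
      _ ≤ 26000 * (r * Real.log z) *
          (Real.log z * (Real.log (p + q + r) * Real.log (p + q + r))) := by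
        gcongr <;> linarith
      _ = _ := by ring
  have op : Odd p := pp.odd_of_ne_two (by omega)
  have oq : Odd q := pq.odd_of_ne_two (by omega)
  have hodd : ∀ a n : ℕ, Odd a → Odd (a ^ n) := fun a n h => h.pow
  rcases Nat.even_or_odd x with ex | ox
  · -- `x` even, `y` odd, `z` odd
    have oy : Odd y := by
      rw [← Nat.not_even_iff_odd]
      intro h2
      have := Nat.dvd_gcd ex.two_dvd h2.two_dvd
      rw [hxy] at this
      omega
    have oz : Odd z := by
      rw [← Nat.not_even_iff_odd]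
      intro h2
      have e1 : Even (x ^ p) := ex.pow_of_ne_zero (by omega)
      have e2 : Even (z ^ r) := h2.pow_of_ne_zero (by omega)
      rw [← h, Nat.even_add] at e2
      exact (Nat.not_even_iff_odd.2 (hodd y q oy)) (e2.1 e1)
    by_cases hqr : q = r
    · have h1 := eqB (x := y) (y := x) (z := z) (p := q) (q := p) hx oq
        (by rw [add_comm]; rw [hqr] at h ⊢; exact h) ex oy oz
      have h2 := fin p (three_le hz oz) h1
      calc (p * q : ℝ) = r * p := by rw [hqr]; ring
        _ ≤ _ := h2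
    · have hc : Nat.Coprime q r := (Nat.coprime_primes pq pr).2 hqr
      have := caseB (Λ := Real.log (p + q + r)) hy hx hq2 hr hc (by rw [← h]; ring) ex oy oz
        (three_le hz oz) (by rw [add_comm (q : ℝ) p]) hΛ1 hyl hxl
      calc (p * q : ℝ) = q * p := by ring
        _ ≤ _ := this
        _ = _ := by ring
  · rcases Nat.even_or_odd y with ey | oy
    · have oz : Odd z := by
        rw [← Nat.not_even_iff_odd]
        intro h2
        have e1 : Even (y ^ q) := ey.pow_of_ne_zero (by omega)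
        have e2 : Even (z ^ r) := h2.pow_of_ne_zero (by omega)
        rw [← h, Nat.even_add] at e2
        exact (Nat.not_even_iff_odd.2 (hodd x p ox)) (e2.2 e1)
      by_cases hpr : p = r
      · have h1 := eqB (x := x) (y := y) (z := z) (p := p) (q := q) hy op
          (by rw [hpr] at h ⊢; exact h) ey ox oz
        have h2 := fin q (three_le hz oz) h1
        calc (p * q : ℝ) = r * q := by rw [hpr]
          _ ≤ _ := h2
      · have hc : Nat.Coprime p r := (Nat.coprime_primes pp pr).2 hpr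
        exact caseB (Λ := Real.log (p + q + r)) hx hy hp2 hr hc h ey ox oz
          (three_le hz oz) le_rfl hΛ1 hxl hyl
    · have ez : Even z := by
        have e1 : Even (z ^ r) := by
          rw [← h]
          exact (hodd x p ox).add_odd (hodd y q oy)
        exact (Nat.even_pow.1 e1).1
      by_cases hpq : p = q
      · have h1 : (p : ℝ) ≤ 3 * Real.log z := by
          rcases le_total x y with hle | hle
          · exact eqA (r := r) hle hy op hr (by rw [← hpq] at h; exact h) ez ox oy hz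
          · exact eqA (x := y) (y := x) (r := r) hle hx op hr
              (by rw [← hpq, add_comm] at h; exact h) ez oy ox hz
        have hp0 : (0 : ℝ) ≤ p := Nat.cast_nonneg p
        calc (p * q : ℝ) = p * p := by rw [hpq]
          _ ≤ (3 * Real.log z) * (3 * Real.log z) := by gcongr
          _ = 9 * (1 * Real.log z ^ 2) * (1 * 1) := by ring
          _ ≤ 26000 * (r * Real.log z ^ 2) *
              (Real.log (p + q + r) * Real.log (p + q + r)) := by
            gcongr <;> linarith
          _ = _ := by ring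
      · have hc : Nat.Coprime p q := (Nat.coprime_primes pp pq).2 hpq
        exact caseA (Λ := Real.log (p + q + r)) hx hy hp2 hq2 hr hc h ez ox oy hz le_rfl hΛ1
          hxl hyl

end Pool.Agent.Lib.MP_509488_nt.Wt
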