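import Pool.Agent.Lib.MP_509488_nt.Surf.All
import Pool.Agent.Lib.MP_509488_nt.Wt.Pig
import Pool.Agent.Lib.MP_509488_nt.Wt.Sep
import Pool.Agent.Lib.MP_509488_nt.Wt.Comp
import Pool.Agent.Lib.MP_509488_nt.Wt.Mult
import Pool.Agent.Lib.MP_509488_nt.Wt.Der
import Pool.Agent.Lib.MP_509488_nt.Wt.Jac
import Pool.Agent.Lib.MP_509488_nt.Wt.Cls
import Pool.Agent.Lib.MP_509488_nt.Wt.LocFix
import Pool.Agent.Lib.MP_509488_nt.Wt.Fix
import Pool.Agent.Lib.MP_509488_nt.Wt.Crv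
import Pool.Agent.Lib.MP_509488_nt.Wt.Cnt
import Pool.Agent.Lib.MP_509488_nt.Wt.FixA
import Pool.Agent.Lib.MP_509488_nt.Wt.AllA
import Pool.Agent.Lib.MP_509488_nt.Wt.TwoP
import Pool.Agent.Lib.MP_509488_nt.Wt.Main4

/-!
# Assembly of folder Wt
-/

namespace Pool.Agent.Lib.MP_509488_nt.Wt

theorem stFix' : StFix := stFix stPig stSep (stComp stInj) stDer stJac stLocFix

theorem stFixA' : StFixA := stFixA stFix' Surf.stPrimes

theorem stCls' : StCls := stCls stPig stSep stInj stMult stDer stJac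

theorem stCnt' : StCnt :=
  stCnt (Surf.stLocSurf Surf.stHensel) (Surf.stSurf Surf.stDet Surf.stRel) Surf.stElim
    (stCrv (Surf.stLocCurve Surf.stHensel))

theorem stAllA' : StAllA := stAllA stCnt' stCls' stFixA' Surf.stPrimes

theorem stMain' : StMain := stMain stFixA' stAllA' stTwoP

end Pool.Agent.Lib.MP_509488_nt.Wt
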