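import Pool.Agent.Lib.MP_509488_nt.Wt.Stmts
import Pool.Agent.Lib.MP_509488_nt.Surf.Curve

/-!
# Module Crv: the points on a curve `H(y, z) = 0` of the surface
-/

namespace Pool.Agent.Lib.MP_509488_nt.Wt

open Finset Polynomial

namespace CrvAux

theorem pb_mono {S T : Set Pt} {b : ℕ} (h : S ⊆ T) (hT : PB T b) : PB S b :=
  fun F hF => hT F fun P hP => h (hF P hP)

theorem pb_le {S : Set Pt} {a b : ℕ} (h : a ≤ b) (hS : PB S a) : PB S b :=
  fun F hF => (hS F hF).trans h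

theorem pb_biUnion {ι : Type*} (J : Finset ι) (T : ι → Set Pt) (b : ℕ) (S : Set Pt)
    (hS : ∀ P ∈ S, ∃ i ∈ J, P ∈ T i) (hT : ∀ i ∈ J, PB (T i) b) : PB S (J.card * b) := by
  classical
  intro F hF
  have h1 : F ⊆ J.biUnion fun i => F.filter fun P => P ∈ T i := by
    intro P hP
    obtain ⟨i, hi, hPi⟩ := hS P (hF P hP)
    simp only [mem_biUnion, mem_filter]
    exact ⟨i, hi, hP, hPi⟩
  calc F.card ≤ _ := card_le_card h1
    _ ≤ ∑ i ∈ J, (F.filter fun P => P ∈ T i).card := card_biUnion_le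
    _ ≤ ∑ i ∈ J, b := sum_le_sum fun i hi => hT i hi _ (fun P hP => (mem_filter.mp hP).2)
    _ = J.card * b := by simp

theorem pb_union {A B : Set Pt} {a b : ℕ} (S : Set Pt) (hS : ∀ P ∈ S, P ∈ A ∨ P ∈ B)
    (hA : PB A a) (hB : PB B b) : PB S (a + b) := by
  classical
  intro F hF
  have h1 : F ⊆ (F.filter fun P => P ∈ A) ∪ F.filter fun P => P ∈ B := by
    intro P hP
    simp only [mem_union, mem_filter]
    rcases hS P (hF P hP) with h | h
    · exact Or.inl ⟨hP, h⟩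
    · exact Or.inr ⟨hP, h⟩
  calc F.card ≤ _ := card_le_card h1
    _ ≤ _ := card_union_le _ _
    _ ≤ a + b := Nat.add_le_add (hA _ fun P hP => (mem_filter.mp hP).2)
        (hB _ fun P hP => (mem_filter.mp hP).2)

theorem pb_empty {S : Set Pt} (h : ∀ P, P ∉ S) (b : ℕ) : PB S b := by
  intro F hF
  have : F = ∅ := by
    rw [Finset.eq_empty_iff_forall_notMem]
    exact fun P hP => h P (hF P hP)
  rw [this]
  simp

/-- Residue classes modulo `ℓ ≤ L`: there are at most `L ^ 3` of them. -/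
theorem pb_res {ℓ L b : ℕ} (hℓ : ℓ.Prime) (hL : ℓ ≤ L) (T : Set Pt)
    (hT : ∀ P₀ ∈ T, PB {P | P ∈ T ∧ ∀ i, (ℓ : ℤ) ∣ P i - P₀ i} b) : PB T (L ^ 3 * b) := by
  classical
  have : Fact ℓ.Prime := ⟨hℓ⟩
  have hcard : (univ : Finset (Fin 3 → ZMod ℓ)).card ≤ L ^ 3 := by
    rw [Finset.card_univ, Fintype.card_fun, ZMod.card, Fintype.card_fin]
    exact Nat.pow_le_pow_left hL 3
  refine pb_le (Nat.mul_le_mul_right _ hcard) ?_
  refine pb_biUnion univ (fun Q : Fin 3 → ZMod ℓ =>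
    {P | P ∈ T ∧ ∀ i, ((P i : ℤ) : ZMod ℓ) = Q i}) _ _ ?_ ?_
  · intro P hP
    exact ⟨fun i => ((P i : ℤ) : ZMod ℓ), mem_univ _, hP, fun i => rfl⟩
  · intro Q _
    by_cases hq : ∃ P : Pt, P ∈ T ∧ ∀ i, ((P i : ℤ) : ZMod ℓ) = Q i
    swap
    · exact pb_empty (fun P hP => hq ⟨P, hP⟩) _
    obtain ⟨P₀, hP₀, hQ₀⟩ := hq
    refine pb_mono ?_ (hT P₀ hP₀)
    rintro P ⟨hP, hPQ⟩
    refine ⟨hP, fun i => ?_⟩
    have h3 : ((P₀ i : ℤ) : ZMod ℓ) = ((P i : ℤ) : ZMod ℓ) := (hQ₀ i).trans (hPQ i).symm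
    exact (ZMod.intCast_eq_intCast_iff_dvd_sub _ _ _).1 h3

theorem exps_coprime {p q r : ℕ} {s₁ s₂ : ℤ} (hx : Exps p q r s₁ s₂) : Nat.Coprime q r :=
  (Nat.coprime_primes hx.hq hx.hr).2 hx.qr

/-- The size of the first coordinate. -/
theorem abs_le_of_pow {N τ k : ℕ} {a : ℤ} (hk : 1 ≤ k) (ha : 1 ≤ a)
    (h : a ^ k ≤ (N : ℤ) ^ τ) : |a| ≤ (N : ℤ) ^ τ := by
  rw [abs_of_nonneg (by omega)]
  calc a = a ^ 1 := (pow_one _).symm
    _ ≤ a ^ k := pow_le_pow_right₀ ha hk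
    _ ≤ _ := h

end CrvAux

open CrvAux in
theorem stCrv (hE : Surf.StLocCurve) : StCrv := by
  classical
  intro p q r s₁ s₂ hx N τ h D₁ D₂ Ev L M C H LL S hN hSG hH0 hD₁ hD₂ hLL hprod hval hS hfib
  set e := H.natDegree with he
  have hp1 : 1 ≤ p := hx.hp.one_lt.le
  -- the points with all derivatives equal to zero
  have hA : PB {P | P ∈ S ∧ ∀ k, k ≤ e → evalEval (P 2) (P 1) (derivative^[k] H) = 0}
      (D₂ * M) := by
    have hlc : H.leadingCoeff ≠ 0 := leadingCoeff_ne_zero.mpr hH0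
    have hcard : H.leadingCoeff.roots.toFinset.card ≤ D₂ :=
      calc H.leadingCoeff.roots.toFinset.card ≤ Multiset.card H.leadingCoeff.roots :=
          Multiset.toFinset_card_le _
        _ ≤ H.leadingCoeff.natDegree := card_roots' _
        _ ≤ D₂ := hD₂ _
    refine pb_le (Nat.mul_le_mul_right _ hcard) ?_
    refine pb_biUnion _ (fun z => Fib S z) M _ ?_ (fun z _ => hfib z)
    rintro P ⟨hPS, hP⟩
    refine ⟨P 2, ?_, hPS, rfl⟩
    rw [Multiset.mem_toFinset, mem_roots hlc, IsRoot.def]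
    have h2 := hP e le_rfl
    have h3 : derivative^[e] H = Polynomial.C (e.factorial • H.leadingCoeff) := by
      have h4 : (derivative^[e] H).natDegree ≤ 0 := by
        have := natDegree_iterate_derivative H e
        omega
      rw [eq_C_of_natDegree_le_zero h4, coeff_iterate_derivative]
      simp only [zero_add, Nat.descFactorial_self]
      rfl
    rw [h3, evalEval_C, eval_smul, smul_eq_zero] at h2
    rcases h2 with h2 | h2
    · exact absurd h2 (Nat.factorial_ne_zero _)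
    · exact h2
  -- the other points
  have hB : PB {P | P ∈ S ∧ ∃ k, k ≤ e ∧ evalEval (P 2) (P 1) (derivative^[k] H) ≠ 0}
      ((range e).card * (LL.card * (L ^ 3 * C))) := by
    refine pb_biUnion (range e) (fun k => {P | P ∈ S ∧
      evalEval (P 2) (P 1) (derivative^[k] H) = 0 ∧
      evalEval (P 2) (P 1) (derivative^[k + 1] H) ≠ 0}) _ _ ?_ ?_
    · rintro P ⟨hP, hk⟩
      have hmin := Nat.find_spec hk
      set k := Nat.find hk with hkdef
      have hk0 : k ≠ 0 := by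
        intro h0
        rw [h0] at hmin
        exact hmin.2 (hS P hP)
      obtain ⟨j, hj⟩ := Nat.exists_eq_succ_of_ne_zero hk0
      refine ⟨j, by rw [mem_range]; omega, hP, ?_, ?_⟩
      · by_contra hne
        have := Nat.find_min hk (m := j) (by rw [← hkdef]; omega)
        exact this ⟨by omega, hne⟩
      · have h3 := hmin.2
        rw [hj] at h3
        exact h3
    · intro k hk
      have hk' : k < e := mem_range.mp hk
      set F := derivative^[k] H with hF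
      have hFd : derivative^[k + 1] H = derivative F := by
        rw [hF, Function.iterate_succ_apply']
      refine pb_biUnion LL (fun ℓ => {P | P ∈ S ∧ evalEval (P 2) (P 1) F = 0 ∧
        ¬ (ℓ : ℤ) ∣ p * P 0 ∧ ¬ (ℓ : ℤ) ∣ evalEval (P 2) (P 1) (derivative F)}) _ _ ?_ ?_
      · rintro P ⟨hP, h1, h2⟩
        rw [hFd] at h2
        obtain ⟨g1, g2, g3, g4, g5, g6, g7⟩ := hSG hP
        have hv := hval P hP (k + 1)
        rw [hFd] at hv
        set a := evalEval (P 2) (P 1) (derivative F) with ha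
        have hp0 : (p : ℤ) ≠ 0 := by omega
        have g20 : P 0 ≠ 0 := by have := g2 0; omega
        have hne : (p : ℤ) * P 0 * a ≠ 0 := mul_ne_zero (mul_ne_zero hp0 g20) h2
        have hlt : |(p : ℤ) * P 0 * a| < ((∏ ℓ ∈ LL, ℓ : ℕ) : ℤ) := by
          have h3 : |(p : ℤ) * P 0 * a| ≤ (p : ℤ) * (N : ℤ) ^ τ * Ev := by
            rw [abs_mul, abs_mul, Nat.abs_cast]
            have h4 : (p : ℤ) * |P 0| ≤ p * (N : ℤ) ^ τ :=
              mul_le_mul_of_nonneg_left (abs_le_of_pow hp1 (g2 0) g4) (by positivity)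
            exact mul_le_mul h4 hv (abs_nonneg _) (by positivity)
          have h5 : ((Ev * p * N ^ τ : ℕ) : ℤ) < ((∏ ℓ ∈ LL, ℓ : ℕ) : ℤ) := by
            exact_mod_cast hprod
          have h6 : ((Ev * p * N ^ τ : ℕ) : ℤ) = (p : ℤ) * (N : ℤ) ^ τ * Ev := by
            push_cast
            ring
          rw [h6] at h5
          exact lt_of_le_of_lt h3 h5
        obtain ⟨ℓ, hℓ, hnd⟩ := Surf.CurveAux.exists_not_dvd LL (fun ℓ hℓ => (hLL ℓ hℓ).1) _ hne hlt
        exact ⟨ℓ, hℓ, hP, h1, fun hd => hnd (hd.mul_right _), fun hd => hnd (hd.mul_left _)⟩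
      · intro ℓ hℓ
        obtain ⟨l1, l2, l3⟩ := hLL ℓ hℓ
        refine pb_res l1 l2 _ ?_
        intro P₀ hP₀
        refine l3 _ (fun P hP => hP.1.1) ?_
        refine hE ℓ p q r s₁ s₂ _ P₀ F l1 ?_ (fun P hP => hP.2) hP₀.2.2.1 hP₀.2.2.2
        rintro P ⟨⟨hP, h1, h2, h3⟩, -⟩
        exact ⟨(hSG hP).1, h1⟩
  rw [card_range] at hB
  have hU := pb_union S (fun P hP => ?_) hA hB
  · refine pb_le ?_ hU
    refine Nat.add_le_add_left ?_ _
    exact Nat.mul_le_mul_right _ hD₁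
  · by_cases h : ∀ k, k ≤ e → evalEval (P 2) (P 1) (derivative^[k] H) = 0
    · exact Or.inl ⟨hP, h⟩
    · push Not at h
      exact Or.inr ⟨hP, h⟩

end Pool.Agent.Lib.MP_509488_nt.Wt
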