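import Pool.Agent.Lib.MP_509488_nt.Wt.Stmts
import Pool.Agent.Lib.MP_509488_nt.Surf.Main

/-!
# One small base, few solutions: the union over all exponents
-/

namespace Pool.Agent.Lib.MP_509488_nt.Wt

open Finset

namespace MainAux

theorem pb_mono {S T : Set Pt} {b : ℕ} (h : S ⊆ T) (hT : PB T b) : PB S b :=
  fun U hU => hT U fun P hP => h (hU P hP)

theorem pb_le {S : Set Pt} {a b : ℕ} (h : a ≤ b) (hS : PB S a) : PB S b :=
  fun U hU => (hS U hU).trans h

theorem pb_biUnion {ι : Type*} (J : Finset ι) (T : ι → Set Pt) (b : ℕ) (S : Set Pt)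
    (hS : ∀ P ∈ S, ∃ i ∈ J, P ∈ T i) (hT : ∀ i ∈ J, PB (T i) b) : PB S (J.card * b) := by
  classical
  intro U hU
  have h1 : U ⊆ J.biUnion fun i => U.filter fun P => P ∈ T i := by
    intro P hP
    obtain ⟨i, hi, hPi⟩ := hS P (hU P hP)
    simp only [mem_biUnion, mem_filter]
    exact ⟨i, hi, hP, hPi⟩
  calc U.card ≤ _ := card_le_card h1
    _ ≤ ∑ i ∈ J, (U.filter fun P => P ∈ T i).card := card_biUnion_le
    _ ≤ ∑ i ∈ J, b := sum_le_sum fun i hi => hT i hi _ (fun P hP => (mem_filter.mp hP).2)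
    _ = J.card * b := by simp

theorem pb_union {A B : Set Pt} {a b : ℕ} (S : Set Pt) (hS : ∀ P ∈ S, P ∈ A ∨ P ∈ B)
    (hA : PB A a) (hB : PB B b) : PB S (a + b) := by
  classical
  intro U hU
  have h1 : U ⊆ (U.filter fun P => P ∈ A) ∪ U.filter fun P => P ∈ B := by
    intro P hP
    simp only [mem_union, mem_filter]
    rcases hS P (hU P hP) with h | h
    · exact Or.inl ⟨hP, h⟩
    · exact Or.inr ⟨hP, h⟩
  calc U.card ≤ _ := card_le_card h1
    _ ≤ _ := card_union_le _ _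
    _ ≤ a + b := Nat.add_le_add (hA _ fun P hP => (mem_filter.mp hP).2)
        (hB _ fun P hP => (mem_filter.mp hP).2)

/-- Few points with small first two coordinates on a fibre. -/
theorem pb_triv (S : Set Pt) (z : ℤ) (T : ℕ) (hS : ∀ P ∈ S, 1 ≤ P 0 ∧ P 0 ≤ T ∧ 1 ≤ P 1 ∧
    P 1 ≤ T ∧ P 2 = z) : PB S (T ^ 2) := by
  classical
  intro U hU
  have h1 : U.card ≤ ((Finset.Icc (1 : ℤ) T) ×ˢ (Finset.Icc (1 : ℤ) T)).card := by
    refine Finset.card_le_card_of_injOn (fun P : Pt => (P 0, P 1)) ?_ ?_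
    · intro P hP
      obtain ⟨a1, a2, a3, a4, -⟩ := hS P (hU P (Finset.mem_coe.1 hP))
      simp only [Finset.coe_product, Set.mem_prod, Finset.coe_Icc, Set.mem_Icc]
      exact ⟨⟨a1, a2⟩, a3, a4⟩
    · intro P hP R hR hPR
      have e1 := (hS P (hU P (Finset.mem_coe.1 hP))).2.2.2.2
      have e2 := (hS R (hU R (Finset.mem_coe.1 hR))).2.2.2.2
      simp only [Prod.mk.injEq] at hPR
      funext i
      fin_cases i
      · exact hPR.1
      · exact hPR.2
      · exact e1.trans e2.symm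
  refine h1.trans ?_
  rw [Finset.card_product]
  simp [sq]

/-- The solutions of one signature without the lower bound for the size. -/
def Raw (p q r : ℕ) (s₁ s₂ : ℤ) (N a : ℕ) : Set Pt :=
  {P | Surf.Eqn p q r s₁ s₂ P ∧ (∀ i, 1 ≤ P i) ∧ Sparse.Cop P ∧ P 0 ^ p ≤ (N : ℤ) ^ a ∧
    P 1 ^ q ≤ (N : ℤ) ^ a ∧ 2 ≤ P 2 ∧ P 2 ≤ N}

theorem z_le {p q r : ℕ} {s₁ s₂ : ℤ} {P : Pt} (h1 : s₁ = 1 ∨ s₁ = -1) (h2 : s₂ = 1 ∨ s₂ = -1)
    (he : Surf.Eqn p q r s₁ s₂ P) (hP : ∀ i, 1 ≤ P i) :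
    P 2 ^ r ≤ 2 * max (P 0 ^ p) (P 1 ^ q) := by
  unfold Surf.Eqn at he
  have a0 : 0 < P 0 ^ p := pow_pos (by have := hP 0; omega) _
  have a1 : 0 < P 1 ^ q := pow_pos (by have := hP 1; omega) _
  have a2 : 0 < P 2 ^ r := pow_pos (by have := hP 2; omega) _
  have b0 := le_max_left (P 0 ^ p) (P 1 ^ q)
  have b1 := le_max_right (P 0 ^ p) (P 1 ^ q)
  rcases h1 with rfl | rfl <;> rcases h2 with rfl | rfl <;> linarith

theorem raw_bound {p q r N a A Z h b TK : ℕ} {s₁ s₂ : ℤ} (hx : Exps p q r s₁ s₂) (hN : 2 ≤ N)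
    (hh : 2 ≤ h) (hZ : N ≤ (Z + 1) ^ h) (hA : h * (a + 1) ≤ A)
    (hbig : ∀ τ, r ≤ τ → τ ≤ A → PB (Good p q r s₁ s₂ N τ h) b)
    (hsmall : ∀ τ z, τ ≤ A → PB (Fib (Good p q r s₁ s₂ N τ h) z) b)
    (hp : ∀ x : ℤ, 1 ≤ x → x ^ p ≤ N → x ≤ TK) (hq : ∀ x : ℤ, 1 ≤ x → x ^ q ≤ N → x ≤ TK)
    (hTK : TK ^ 2 ≤ b) :
    PB (Raw p q r s₁ s₂ N a) ((A + 1) * b + Z * ((A + 1) * b + b)) := by
  classical
  have hNZ : (2 : ℤ) ≤ N := by exact_mod_cast hN
  have hN1 : (1 : ℤ) ≤ N := by linarith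
  -- the least exponent
  have hτ : ∀ P ∈ Raw p q r s₁ s₂ N a, ∃ τ₀ ≤ a, max (P 0 ^ p) (P 1 ^ q) ≤ (N : ℤ) ^ τ₀ ∧
      (τ₀ = 0 ∨ (N : ℤ) ^ (τ₀ - 1) < max (P 0 ^ p) (P 1 ^ q)) := by
    intro P hP
    have hex : ∃ τ, max (P 0 ^ p) (P 1 ^ q) ≤ (N : ℤ) ^ τ := ⟨a, max_le hP.2.2.2.1 hP.2.2.2.2.1⟩
    refine ⟨Nat.find hex, Nat.find_min' hex (max_le hP.2.2.2.1 hP.2.2.2.2.1), Nat.find_spec hex, ?_⟩
    rcases Nat.eq_zero_or_pos (Nat.find hex) with h0 | h0
    · exact Or.inl h0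
    · right
      have := Nat.find_min hex (m := Nat.find hex - 1) (by omega)
      push Not at this
      exact this
  refine pb_union (A := {P | P ∈ Raw p q r s₁ s₂ N a ∧ (Z : ℤ) + 1 ≤ P 2})
    (B := {P | P ∈ Raw p q r s₁ s₂ N a ∧ P 2 ≤ Z}) _ ?_ ?_ ?_
  · intro P hP
    rcases le_or_gt ((Z : ℤ) + 1) (P 2) with h1 | h1
    · exact Or.inl ⟨hP, h1⟩
    · exact Or.inr ⟨hP, by omega⟩
  · -- large z
    have h1 : (range (A + 1)).card = A + 1 := card_range _
    rw [← h1]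
    refine pb_biUnion (range (A + 1)) (fun τ => {P | r ≤ τ ∧ P ∈ Good p q r s₁ s₂ N τ h}) b _ ?_ ?_
    · rintro P ⟨hP, hz⟩
      obtain ⟨τ₀, ha, hM, hl⟩ := hτ P hP
      have hPi := hP.2.1
      have hzr := z_le hx.e₁ hx.e₂ hP.1 hPi
      set M := max (P 0 ^ p) (P 1 ^ q) with hMdef
      have hM1 : 1 ≤ M := by
        have : 0 < P 0 ^ p := pow_pos (by have := hPi 0; omega) _
        have := le_max_left (P 0 ^ p) (P 1 ^ q)
        omega
      have hNz : (N : ℤ) ≤ P 2 ^ h := by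
        calc (N : ℤ) ≤ ((Z : ℤ) + 1) ^ h := by exact_mod_cast hZ
          _ ≤ P 2 ^ h := pow_le_pow_left₀ (by positivity) hz _
      have hr : r ≤ A := by
        have h2 : P 2 ^ r ≤ P 2 ^ (h * (a + 1)) := by
          calc P 2 ^ r ≤ 2 * M := hzr
            _ ≤ 2 * (N : ℤ) ^ a := by
                have := max_le hP.2.2.2.1 hP.2.2.2.2.1
                linarith
            _ ≤ (N : ℤ) * (N : ℤ) ^ a := mul_le_mul_of_nonneg_right hNZ (by positivity)
            _ = (N : ℤ) ^ (a + 1) := by rw [pow_succ]; ring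
            _ ≤ (P 2 ^ h) ^ (a + 1) := pow_le_pow_left₀ (by positivity) hNz _
            _ = P 2 ^ (h * (a + 1)) := by rw [← pow_mul]
        have h3 : (1 : ℤ) < P 2 := by have := hP.2.2.2.2.2.1; omega
        exact ((pow_le_pow_iff_right₀ h3).1 h2).trans hA
      have haA : a ≤ A := by nlinarith
      refine ⟨max r τ₀, ?_, le_max_left _ _, hP.1, hPi, hP.2.2.1, ?_, ?_, hP.2.2.2.2.2.2, ?_⟩
      · rw [mem_range]
        have := max_le hr (ha.trans haA)
        omega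
      · exact ((le_max_left _ _).trans hM).trans (pow_le_pow_right₀ hN1 (le_max_right _ _))
      · exact ((le_max_right _ _).trans hM).trans (pow_le_pow_right₀ hN1 (le_max_right _ _))
      · rw [← hMdef]
        rcases le_total τ₀ r with h4 | h4
        · rw [max_eq_left h4]
          calc (N : ℤ) ^ r ≤ (P 2 ^ h) ^ r := pow_le_pow_left₀ (by positivity) hNz _
            _ = (P 2 ^ r) ^ h := by rw [← pow_mul, ← pow_mul, mul_comm]
            _ ≤ (2 * M) ^ h :=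
                pow_le_pow_left₀ (pow_nonneg (by have := hPi 2; omega) _) hzr _
        · rw [max_eq_right h4]
          have hr2 := hx.hr.two_le
          have h5 : (N : ℤ) ^ (τ₀ - 1) < M := by
            rcases hl with h6 | h6
            · omega
            · exact h6
          calc (N : ℤ) ^ τ₀ ≤ (N : ℤ) ^ ((τ₀ - 1) * 2) := pow_le_pow_right₀ hN1 (by omega)
            _ = ((N : ℤ) ^ (τ₀ - 1)) ^ 2 := by rw [pow_mul]
            _ ≤ M ^ 2 := pow_le_pow_left₀ (by positivity) h5.le _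
            _ ≤ (2 * M) ^ 2 := pow_le_pow_left₀ (by linarith) (by linarith) _
            _ ≤ (2 * M) ^ h := pow_le_pow_right₀ (by linarith) hh
    · intro τ hτ'
      rw [mem_range] at hτ'
      by_cases hr : r ≤ τ
      · exact pb_mono (fun P hP => hP.2) (hbig τ hr (by omega))
      · intro U hU
        have : U = ∅ := by
          rw [Finset.eq_empty_iff_forall_notMem]
          intro P hP
          exact hr (hU P hP).1
        rw [this]; simp
  · -- small z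
    have h1 : (Finset.Icc (1 : ℤ) Z).card = Z := by simp
    refine pb_le (a := (Finset.Icc (1 : ℤ) Z).card * ((A + 1) * b + b)) (by rw [h1]) ?_
    refine pb_biUnion (Finset.Icc (1 : ℤ) Z)
      (fun z => {P | P ∈ Raw p q r s₁ s₂ N a ∧ P 2 = z}) _ _ ?_ ?_
    · rintro P ⟨hP, hz⟩
      refine ⟨P 2, ?_, hP, rfl⟩
      rw [Finset.mem_Icc]
      exact ⟨hP.2.1 2, hz⟩
    · intro z _
      refine pb_union (A := {P | (∃ τ ≤ A, P ∈ Fib (Good p q r s₁ s₂ N τ h) z)})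
        (B := {P | (P ∈ Raw p q r s₁ s₂ N a ∧ P 2 = z) ∧ P 0 ^ p ≤ N ∧ P 1 ^ q ≤ N}) _ ?_ ?_ ?_
      · rintro P ⟨hP, hz⟩
        obtain ⟨τ₀, ha, hM, hl⟩ := hτ P hP
        have hPi := hP.2.1
        set M := max (P 0 ^ p) (P 1 ^ q) with hMdef
        have hM1 : 1 ≤ M := by
          have : 0 < P 0 ^ p := pow_pos (by have := hPi 0; omega) _
          have := le_max_left (P 0 ^ p) (P 1 ^ q)
          omega
        have haA : a ≤ A := by nlinarith
        by_cases h2 : 2 ≤ τ₀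
        · left
          refine ⟨τ₀, ha.trans haA, ⟨hP.1, hPi, hP.2.2.1, (le_max_left _ _).trans hM,
            (le_max_right _ _).trans hM, hP.2.2.2.2.2.2, ?_⟩, hz⟩
          rw [← hMdef]
          have h5 : (N : ℤ) ^ (τ₀ - 1) < M := by
            rcases hl with h6 | h6
            · omega
            · exact h6
          calc (N : ℤ) ^ τ₀ ≤ (N : ℤ) ^ ((τ₀ - 1) * 2) := pow_le_pow_right₀ hN1 (by omega)
            _ = ((N : ℤ) ^ (τ₀ - 1)) ^ 2 := by rw [pow_mul]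
            _ ≤ M ^ 2 := pow_le_pow_left₀ (by positivity) h5.le _
            _ ≤ (2 * M) ^ 2 := pow_le_pow_left₀ (by linarith) (by linarith) _
            _ ≤ (2 * M) ^ h := pow_le_pow_right₀ (by linarith) hh
        · right
          have h3 : M ≤ N := by
            calc M ≤ (N : ℤ) ^ τ₀ := hM
              _ ≤ (N : ℤ) ^ 1 := pow_le_pow_right₀ hN1 (by omega)
              _ = N := pow_one _
          exact ⟨⟨hP, hz⟩, (le_max_left _ _).trans h3, (le_max_right _ _).trans h3⟩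
      · have h1 : (range (A + 1)).card = A + 1 := card_range _
        rw [← h1]
        refine pb_biUnion (range (A + 1)) (fun τ => Fib (Good p q r s₁ s₂ N τ h) z) b _ ?_ ?_
        · rintro P ⟨τ, hτ', hP⟩
          exact ⟨τ, by rw [mem_range]; omega, hP⟩
        · intro τ hτ'
          rw [mem_range] at hτ'
          exact hsmall τ z (by omega)
      · refine pb_le hTK (pb_triv _ z TK ?_)
        rintro P ⟨⟨hP, hz⟩, h1, h2⟩
        exact ⟨hP.2.1 0, hp _ (hP.2.1 0) h1, hP.2.1 1, hq _ (hP.2.1 1) h2, hz⟩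

end MainAux

end Pool.Agent.Lib.MP_509488_nt.Wt
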