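import Pool.Agent.Lib.MP_509488_nt.Wt.Main

/-!
# One small base, few solutions: the bound for one signature
-/

namespace Pool.Agent.Lib.MP_509488_nt.Wt

open Finset

namespace MainAux

theorem eventually_pow_ge (α C : ℝ) (hα : 0 < α) : ∃ N₀ : ℕ, 1 ≤ N₀ ∧ ∀ N : ℕ, N₀ ≤ N →
    C ≤ (N : ℝ) ^ α := by
  have h1 : Filter.Tendsto (fun N : ℕ => (N : ℝ) ^ α) Filter.atTop Filter.atTop :=
    (tendsto_rpow_atTop hα).comp tendsto_natCast_atTop_atTop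
  obtain ⟨N₀, h2⟩ := Filter.eventually_atTop.1 (h1.eventually_ge_atTop C)
  exact ⟨N₀ + 1, by omega, fun N hN => h2 N (by omega)⟩

theorem root_le {x : ℤ} {p K N : ℕ} (hx : 1 ≤ x) (hK : 1 ≤ K) (hKp : K ≤ p) (hN : 1 ≤ N)
    (h : x ^ p ≤ N) : x ≤ (⌊(N : ℝ) ^ (1 / (K : ℝ))⌋₊ : ℤ) := by
  obtain ⟨n, rfl⟩ : ∃ n : ℕ, x = n := ⟨x.toNat, by omega⟩
  have h1 : (n : ℝ) ^ K ≤ N := by
    have h2 : (n : ℤ) ^ K ≤ (n : ℤ) ^ p := pow_le_pow_right₀ hx hKp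
    have h3 : (n : ℤ) ^ K ≤ N := h2.trans h
    exact_mod_cast h3
  have h2 : (n : ℝ) ≤ (N : ℝ) ^ (1 / (K : ℝ)) := by
    have h3 : ((n : ℝ) ^ K) ^ (1 / (K : ℝ)) ≤ (N : ℝ) ^ (1 / (K : ℝ)) :=
      Real.rpow_le_rpow (by positivity) h1 (by positivity)
    rwa [one_div, Real.pow_rpow_inv_natCast (by positivity) (by omega), ← one_div] at h3
  exact_mod_cast Nat.le_floor h2

theorem raw_asym (hF : StFixA) (hA : StAllA) (ε : ℝ) (hε : 0 < ε) (hε1 : ε ≤ 1) :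
    ∃ c₁ : ℝ, 0 < c₁ ∧ c₁ ≤ ε / 100 ∧ ∃ K N₀ : ℕ, 4 ≤ K ∧ ∀ N : ℕ, N₀ ≤ N →
      ∀ (p q r : ℕ) (s₁ s₂ : ℤ), Exps p q r s₁ s₂ → K ≤ p → K ≤ q → (p : ℝ) ≤ (N : ℝ) ^ c₁ →
      (q : ℝ) ≤ (N : ℝ) ^ c₁ → (r : ℝ) ≤ (N : ℝ) ^ (4 * c₁) →
      PB (Raw p q r s₁ s₂ N (⌊c₁ * (p * q : ℝ)⌋₊ + 1)) ⌊(N : ℝ) ^ (ε / 2)⌋₊ := by
  obtain ⟨h, hh⟩ : ∃ h : ℕ, h = ⌈8 / ε⌉₊ + 2 := ⟨_, rfl⟩
  have hh8 : 8 / ε ≤ h := by
    rw [hh]
    push_cast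
    have := Nat.le_ceil (8 / ε)
    linarith
  have hh2 : 2 ≤ h := by omega
  have hhε : 8 ≤ h * ε := by
    rwa [div_le_iff₀ hε] at hh8
  have hhR : (2 : ℝ) ≤ h := by exact_mod_cast hh2
  obtain ⟨KF, cF, δF, hcF, hδF, NF, HF⟩ := hF (ε / 8) h (by positivity) (by omega)
  obtain ⟨KA, cA, δA, hcA, hδA, NA, HA⟩ := hA (ε / 8) h (by positivity) (by omega)
  obtain ⟨c₂, hc₂⟩ : ∃ c₂ : ℝ, c₂ = min 1 (min cF cA) := ⟨_, rfl⟩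
  obtain ⟨δ, hδ⟩ : ∃ δ : ℝ, δ = min δF δA := ⟨_, rfl⟩
  have hc₂0 : 0 < c₂ := by rw [hc₂]; positivity
  have hδ0 : 0 < δ := by rw [hδ]; positivity
  have hc₂1 : c₂ ≤ 1 := by rw [hc₂]; exact min_le_left _ _
  have hc₂F : c₂ ≤ cF := by rw [hc₂]; exact (min_le_right _ _).trans (min_le_left _ _)
  have hc₂A : c₂ ≤ cA := by rw [hc₂]; exact (min_le_right _ _).trans (min_le_right _ _)
  have hδF' : δ ≤ δF := by rw [hδ]; exact min_le_left _ _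
  have hδA' : δ ≤ δA := by rw [hδ]; exact min_le_right _ _
  obtain ⟨c₁, hc₁⟩ : ∃ c₁ : ℝ, c₁ = min (ε / 100) (min (c₂ / (2 * h)) (δ / 4)) := ⟨_, rfl⟩
  have hc₁0 : 0 < c₁ := by rw [hc₁]; positivity
  have hc₁ε : c₁ ≤ ε / 100 := by rw [hc₁]; exact min_le_left _ _
  have hc₁h : c₁ ≤ c₂ / (2 * h) := by rw [hc₁]; exact (min_le_right _ _).trans (min_le_left _ _)
  have hc₁δ : c₁ ≤ δ / 4 := by rw [hc₁]; exact (min_le_right _ _).trans (min_le_right _ _)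
  obtain ⟨K, hK⟩ : ∃ K : ℕ, K = KF + KA + 4 + ⌈4 * h / c₂⌉₊ + ⌈16 / ε⌉₊ := ⟨_, rfl⟩
  have hK1 : 4 * h / c₂ ≤ K := by
    rw [hK]; push_cast
    have := Nat.le_ceil (4 * h / c₂)
    have : (0 : ℝ) ≤ ⌈16 / ε⌉₊ := by positivity
    have : (0 : ℝ) ≤ (KF : ℝ) := by positivity
    have : (0 : ℝ) ≤ (KA : ℝ) := by positivity
    linarith
  have hK2 : 16 / ε ≤ K := by
    rw [hK]; push_cast
    have := Nat.le_ceil (16 / ε)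
    have : (0 : ℝ) ≤ (⌈4 * h / c₂⌉₊ : ℝ) := by positivity
    have : (0 : ℝ) ≤ (KF : ℝ) := by positivity
    have : (0 : ℝ) ≤ (KA : ℝ) := by positivity
    linarith
  obtain ⟨N₁, hN₁1, hN₁⟩ := eventually_pow_ge (ε / 8) 6 (by positivity)
  refine ⟨c₁, hc₁0, hc₁ε, K, NF + NA + N₁ + 2, by omega, ?_⟩
  intro N hN p q r s₁ s₂ hx hKp hKq hp hq hr
  have hNR : (1 : ℝ) ≤ N := by exact_mod_cast (by omega : 1 ≤ N)
  have hN0 : (0 : ℝ) < N := by linarith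
  have hKR : (4 : ℝ) ≤ K := by exact_mod_cast (by omega : 4 ≤ K)
  have hpK : (K : ℝ) ≤ p := by exact_mod_cast hKp
  have hqK : (K : ℝ) ≤ q := by exact_mod_cast hKq
  have hpq : (K : ℝ) ≤ p * q := by nlinarith
  obtain ⟨a, ha⟩ : ∃ a : ℕ, a = ⌊c₁ * (p * q : ℝ)⌋₊ + 1 := ⟨_, rfl⟩
  have haR : (a : ℝ) ≤ c₁ * (p * q) + 1 := by
    rw [ha]; push_cast
    have := Nat.floor_le (show 0 ≤ c₁ * (p * q : ℝ) by positivity)
    linarith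
  obtain ⟨A, hA'⟩ : ∃ A : ℕ, A = h * (a + 1) := ⟨_, rfl⟩
  have hAR : (A : ℝ) ≤ c₂ * (p * q) := by
    rw [hA']; push_cast
    have h1 : (h : ℝ) * (c₁ * (p * q)) ≤ c₂ / 2 * (p * q) := by
      have h2 : (h : ℝ) * c₁ ≤ c₂ / 2 := by
        calc (h : ℝ) * c₁ ≤ h * (c₂ / (2 * h)) := by gcongr
          _ = c₂ / 2 := by field_simp
      calc (h : ℝ) * (c₁ * (p * q)) = (h * c₁) * (p * q) := by ring
        _ ≤ c₂ / 2 * (p * q) := by gcongr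
    have h3 : (2 : ℝ) * h ≤ c₂ / 2 * (p * q) := by
      have h4 : 4 * h / c₂ ≤ p * q := hK1.trans hpq
      rw [div_le_iff₀ hc₂0] at h4
      linarith
    calc (h : ℝ) * (a + 1) ≤ h * ((c₁ * (p * q) + 1) + 1) := by gcongr
      _ = h * (c₁ * (p * q)) + 2 * h := by ring
      _ ≤ c₂ / 2 * (p * q) + c₂ / 2 * (p * q) := by linarith
      _ = c₂ * (p * q) := by ring
  have hpow : ∀ {u v : ℝ}, u ≤ v → (N : ℝ) ^ u ≤ (N : ℝ) ^ v :=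
    fun h => Real.rpow_le_rpow_of_exponent_le hNR h
  have hτ : ∀ τ : ℕ, τ ≤ A → (τ : ℝ) ≤ c₂ * (p * q) := fun τ h1 => by
    have : (τ : ℝ) ≤ A := by exact_mod_cast h1
    linarith
  rw [← ha]
  have key := raw_bound (p := p) (q := q) (r := r) (N := N) (a := a) (A := A)
    (Z := ⌊(N : ℝ) ^ (ε / 8)⌋₊) (h := h) (b := ⌊(N : ℝ) ^ (ε / 8)⌋₊)
    (TK := ⌊(N : ℝ) ^ (1 / (K : ℝ))⌋₊) (s₁ := s₁) (s₂ := s₂) hx (by omega) hh2 ?_ hA'.ge ?_ ?_ ?_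
    ?_ ?_
  · refine pb_le ?_ key
    apply Nat.le_floor
    push_cast
    have hb : (⌊(N : ℝ) ^ (ε / 8)⌋₊ : ℝ) ≤ (N : ℝ) ^ (ε / 8) := Nat.floor_le (by positivity)
    have hA2 : (A : ℝ) ≤ (N : ℝ) ^ (2 * c₁) := by
      calc (A : ℝ) ≤ c₂ * (p * q) := hAR
        _ ≤ 1 * ((N : ℝ) ^ c₁ * (N : ℝ) ^ c₁) := by gcongr
        _ = (N : ℝ) ^ (2 * c₁) := by rw [one_mul, ← Real.rpow_add hN0]; ring_nf
    have hX : (1 : ℝ) ≤ (N : ℝ) ^ (2 * c₁) := Real.one_le_rpow hNR (by positivity)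
    have hY : (1 : ℝ) ≤ (N : ℝ) ^ (ε / 8) := Real.one_le_rpow hNR (by positivity)
    have h6 := hN₁ N (by omega)
    have hfin : 6 * ((N : ℝ) ^ (2 * c₁) * ((N : ℝ) ^ (ε / 8) * (N : ℝ) ^ (ε / 8))) ≤
        (N : ℝ) ^ (ε / 2) := by
      calc 6 * ((N : ℝ) ^ (2 * c₁) * ((N : ℝ) ^ (ε / 8) * (N : ℝ) ^ (ε / 8))) ≤
          (N : ℝ) ^ (ε / 8) * ((N : ℝ) ^ (2 * c₁) * ((N : ℝ) ^ (ε / 8) * (N : ℝ) ^ (ε / 8))) := by
            gcongr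
        _ = (N : ℝ) ^ (ε / 8 + (2 * c₁ + (ε / 8 + ε / 8))) := by
            rw [Real.rpow_add hN0, Real.rpow_add hN0, Real.rpow_add hN0]
        _ ≤ (N : ℝ) ^ (ε / 2) := hpow (by linarith)
    set B : ℝ := (⌊(N : ℝ) ^ (ε / 8)⌋₊ : ℝ) with hB
    have hB0 : 0 ≤ B := by positivity
    set Y : ℝ := (N : ℝ) ^ (ε / 8) with hYdef
    set X : ℝ := (N : ℝ) ^ (2 * c₁) with hXdef
    have hA0 : (0 : ℝ) ≤ A := by positivity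
    have g1 : (0 : ℝ) ≤ (X - 1) * (Y * Y) := mul_nonneg (by linarith) (by positivity)
    have g2 : (0 : ℝ) ≤ (X * Y) * (Y - 1) := mul_nonneg (by positivity) (by linarith)
    calc ((A : ℝ) + 1) * B + B * ((A + 1) * B + B) ≤ (2 * X) * Y + Y * ((2 * X) * Y + Y) := by
          gcongr <;> linarith
      _ ≤ 6 * (X * (Y * Y)) := by nlinarith
      _ ≤ _ := hfin
  · have h1 : (N : ℝ) ^ (ε / 8) ≤ ⌊(N : ℝ) ^ (ε / 8)⌋₊ + 1 := (Nat.lt_floor_add_one _).le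
    have h2 : (N : ℝ) ≤ ((⌊(N : ℝ) ^ (ε / 8)⌋₊ : ℝ) + 1) ^ h := by
      calc (N : ℝ) = (N : ℝ) ^ (1 : ℝ) := (Real.rpow_one _).symm
        _ ≤ (N : ℝ) ^ (ε / 8 * h) := hpow (by linarith)
        _ = ((N : ℝ) ^ (ε / 8)) ^ h := by rw [Real.rpow_mul hN0.le, Real.rpow_natCast]
        _ ≤ _ := by gcongr
    exact_mod_cast h2
  · intro τ h1 h2
    refine HA N (by omega) p q r τ s₁ s₂ hx (by omega) (by omega) h1 ((hτ τ h2).trans ?_) ?_ ?_ ?_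
    · gcongr
    · exact hp.trans (hpow (by linarith))
    · exact hq.trans (hpow (by linarith))
    · exact hr.trans (hpow (by linarith))
  · intro τ z h2
    refine HF N (by omega) p q r τ s₁ s₂ z hx (by omega) (by omega) ((hτ τ h2).trans ?_) ?_ ?_ ?_
    · gcongr
    · exact hp.trans (hpow (by linarith))
    · exact hq.trans (hpow (by linarith))
    · exact hr.trans (hpow (by linarith))
  · intro x h1 h2
    exact root_le h1 (by omega) hKp (by omega) h2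
  · intro x h1 h2
    exact root_le h1 (by omega) hKq (by omega) h2
  · apply Nat.le_floor
    push_cast
    have h1 : (⌊(N : ℝ) ^ (1 / (K : ℝ))⌋₊ : ℝ) ≤ (N : ℝ) ^ (1 / (K : ℝ)) :=
      Nat.floor_le (by positivity)
    have h3 : (1 / (K : ℝ)) * 2 ≤ ε / 8 := by
      rw [div_le_iff₀ hε] at hK2
      rw [one_div, ← div_eq_inv_mul, div_le_iff₀ (by linarith)]
      linarith
    calc (⌊(N : ℝ) ^ (1 / (K : ℝ))⌋₊ : ℝ) ^ 2 ≤ ((N : ℝ) ^ (1 / (K : ℝ))) ^ 2 := by gcongr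
      _ = (N : ℝ) ^ ((1 / (K : ℝ)) * 2) := by
          rw [Real.rpow_mul hN0.le]; norm_cast
      _ ≤ (N : ℝ) ^ (ε / 8) := hpow h3

end MainAux

end Pool.Agent.Lib.MP_509488_nt.Wt
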