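import Pool.Agent.Lib.MP_509488_nt.Wt.Main2

/-!
# One small base, few solutions: the main theorem
-/

namespace Pool.Agent.Lib.MP_509488_nt.Wt

open Finset

namespace MainAux

/-- The solutions with bounded sizes. -/
def Sols2 (c : ℝ) (K N : ℕ) : Set (ℕ × ℕ × ℕ × ℕ × ℕ × ℕ) :=
  {v | ∃ x y z p q r : ℕ, v = (x, y, z, p, q, r) ∧ 1 ≤ x ∧ 1 ≤ y ∧ 2 ≤ z ∧ z ≤ N ∧
    Nat.Coprime x y ∧ p.Prime ∧ q.Prime ∧ r.Prime ∧ ¬ (p = q ∧ q = r) ∧ K ≤ p ∧ K ≤ q ∧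
    (x ^ p + y ^ q = z ^ r ∨ x ^ p + z ^ r = y ^ q ∨ y ^ q + z ^ r = x ^ p) ∧
    (p : ℝ) ≤ (N : ℝ) ^ c ∧ (q : ℝ) ≤ (N : ℝ) ^ c ∧ (x : ℝ) ^ p ≤ (N : ℝ) ^ (c * (p * q)) ∧
    (y : ℝ) ^ q ≤ (N : ℝ) ^ (c * (p * q))}

theorem red (hT : StTwoP) (c₁ : ℝ) (h1 : 0 < c₁) : ∃ c : ℝ, 0 < c ∧
    ∀ K N : ℕ, 3 ≤ K → 1 ≤ N → Sols c K N ⊆ Sols2 c₁ K N := by
  obtain ⟨C, hC, H⟩ := hT
  obtain ⟨c, hc⟩ : ∃ c : ℝ, c = min c₁ (min (1 / 100) (c₁ ^ 2 / (4 * C))) := ⟨_, rfl⟩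
  have hc0 : 0 < c := by rw [hc]; positivity
  have hcc : c ≤ c₁ := by rw [hc]; exact min_le_left _ _
  have hc2 : c ≤ 1 / 100 := by rw [hc]; exact (min_le_right _ _).trans (min_le_left _ _)
  have hc3 : 4 * C * c ≤ c₁ ^ 2 := by
    have h2 : c ≤ c₁ ^ 2 / (4 * C) := by
      rw [hc]; exact (min_le_right _ _).trans (min_le_right _ _)
    rw [le_div_iff₀ (by positivity)] at h2
    linarith
  refine ⟨c, hc0, ?_⟩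
  rintro K N hK hN v ⟨x, y, z, p, q, r, rfl, hx, hy, hz, hzN, hxy, hp, hq, hr, hne, hKp, hKq, h⟩
  have hNR : (1 : ℝ) ≤ N := by exact_mod_cast hN
  have hpow : ∀ {u v : ℝ}, u ≤ v → (N : ℝ) ^ u ≤ (N : ℝ) ^ v :=
    fun h => Real.rpow_le_rpow_of_exponent_le hNR h
  have hp0 : (1 : ℝ) ≤ p := by exact_mod_cast hp.one_lt.le
  have hq0 : (1 : ℝ) ≤ q := by exact_mod_cast hq.one_lt.le
  refine ⟨x, y, z, p, q, r, rfl, hx, hy, hz, hzN, hxy, hp, hq, hr, hne, hKp, hKq, ?_⟩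
  rcases h with ⟨hx2, hy2, he, hl⟩ | ⟨he, hpN, hqN, hxs, hys⟩
  · have h2 := H x y z p q r hx2 hy2 hxy hp hq hr (by omega) (by omega) hne he
    obtain ⟨h3, h4⟩ := Surf.MainAux.exps_small (η := c₁) hC hc0 hc2 h1 hc3 hx2 hp.two_le
      hq.two_le hr.two_le he hl h2
    have hzR : (1 : ℝ) ≤ z := by exact_mod_cast (by omega : 1 ≤ z)
    have hzN' : (z : ℝ) ≤ N := by exact_mod_cast hzN
    have h5 : (p * q : ℝ) ≤ (N : ℝ) ^ c₁ :=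
      h4.trans (Real.rpow_le_rpow (by positivity) hzN' h1.le)
    have h6 : (z : ℝ) ^ r ≤ (N : ℝ) ^ (c₁ * (p * q)) := by
      calc (z : ℝ) ^ r ≤ (N : ℝ) ^ r := by gcongr
        _ = (N : ℝ) ^ (r : ℝ) := (Real.rpow_natCast _ _).symm
        _ ≤ (N : ℝ) ^ (c₁ * (p * q)) := by
            apply hpow
            refine h3.trans ?_
            gcongr
    have hsum : (x : ℝ) ^ p + (y : ℝ) ^ q = (z : ℝ) ^ r := by exact_mod_cast he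
    have hx0 : (0 : ℝ) ≤ (x : ℝ) ^ p := by positivity
    have hy0 : (0 : ℝ) ≤ (y : ℝ) ^ q := by positivity
    refine ⟨Or.inl he, ?_, ?_, by linarith, by linarith⟩
    · exact le_trans (by nlinarith) h5
    · exact le_trans (by nlinarith) h5
  · refine ⟨he, hpN.trans (hpow hcc), hqN.trans (hpow hcc), hxs.trans (hpow ?_),
      hys.trans (hpow ?_)⟩
    · gcongr
    · gcongr

theorem cop_of {X Y Z : ℤ} (h : IsCoprime X Y) (hz : Z = X + Y ∨ Z = Y - X ∨ Z = X - Y) :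
    IsCoprime X Z ∧ IsCoprime Y Z := by
  obtain ⟨u, v, huv⟩ := h
  rcases hz with rfl | rfl | rfl
  · exact ⟨⟨u - v, v, by linear_combination huv⟩, ⟨v - u, u, by linear_combination huv⟩⟩
  · exact ⟨⟨u + v, v, by linear_combination huv⟩, ⟨u + v, -u, by linear_combination huv⟩⟩
  · exact ⟨⟨u + v, -v, by linear_combination huv⟩, ⟨u + v, u, by linear_combination huv⟩⟩

theorem cop3 {x y z : ℤ} (h1 : IsCoprime x y) (h2 : IsCoprime x z) (h3 : IsCoprime y z) :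
    Sparse.Cop ![x, y, z] := by
  intro i j hij
  fin_cases i <;> fin_cases j <;> first | exact absurd rfl hij | assumption | (apply IsCoprime.symm; assumption)

theorem orient {x y z p q r N a : ℕ} (hx : 1 ≤ x) (hy : 1 ≤ y) (hz : 2 ≤ z) (hzN : z ≤ N)
    (hxy : Nat.Coprime x y) (hp : p.Prime) (hq : q.Prime) (hr : r.Prime) (hne : ¬ (p = q ∧ q = r))
    (hp4 : 4 ≤ p) (hq4 : 4 ≤ q)
    (he : x ^ p + y ^ q = z ^ r ∨ x ^ p + z ^ r = y ^ q ∨ y ^ q + z ^ r = x ^ p)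
    (hxs : (x : ℤ) ^ p ≤ (N : ℤ) ^ a) (hys : (y : ℤ) ^ q ≤ (N : ℤ) ^ a) :
    ∃ s₁ s₂ : ℤ, (s₁ = 1 ∨ s₁ = -1) ∧ (s₂ = 1 ∨ s₂ = -1) ∧
      ((Exps p q r s₁ s₂ ∧ (![(x : ℤ), y, z] : Pt) ∈ Raw p q r s₁ s₂ N a) ∨
       (Exps q p r s₁ s₂ ∧ (![(y : ℤ), x, z] : Pt) ∈ Raw q p r s₁ s₂ N a)) := by
  have hc : IsCoprime (x : ℤ) (y : ℤ) := Nat.isCoprime_iff_coprime.2 hxy
  have hcXY : IsCoprime ((x : ℤ) ^ p) ((y : ℤ) ^ q) := hc.pow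
  have hZ : (z : ℤ) ^ r = (x : ℤ) ^ p + (y : ℤ) ^ q ∨ (z : ℤ) ^ r = (y : ℤ) ^ q - (x : ℤ) ^ p ∨
      (z : ℤ) ^ r = (x : ℤ) ^ p - (y : ℤ) ^ q := by
    rcases he with h | h | h
    · left; exact_mod_cast h.symm
    · right; left
      have : (x : ℤ) ^ p + (z : ℤ) ^ r = (y : ℤ) ^ q := by exact_mod_cast h
      linarith
    · right; right
      have : (y : ℤ) ^ q + (z : ℤ) ^ r = (x : ℤ) ^ p := by exact_mod_cast h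
      linarith
  obtain ⟨h1, h2⟩ := cop_of hcXY hZ
  have hcx : IsCoprime (x : ℤ) (z : ℤ) := (IsCoprime.pow_iff hp.pos hr.pos).1 h1
  have hcy : IsCoprime (y : ℤ) (z : ℤ) := (IsCoprime.pow_iff hq.pos hr.pos).1 h2
  have hxZ : (1 : ℤ) ≤ x := by exact_mod_cast hx
  have hyZ : (1 : ℤ) ≤ y := by exact_mod_cast hy
  have hzZ : (2 : ℤ) ≤ z := by exact_mod_cast hz
  have hzNZ : (z : ℤ) ≤ N := by exact_mod_cast hzN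
  have hA : ∀ s₁ s₂ : ℤ, (x : ℤ) ^ p = s₁ * (z : ℤ) ^ r + s₂ * (y : ℤ) ^ q →
      (![(x : ℤ), y, z] : Pt) ∈ Raw p q r s₁ s₂ N a := by
    intro s₁ s₂ h
    refine ⟨h, ?_, cop3 hc hcx hcy, hxs, hys, hzZ, hzNZ⟩
    intro i
    fin_cases i
    · exact hxZ
    · exact hyZ
    · exact le_trans (by norm_num) hzZ
  have hB : ∀ s₁ s₂ : ℤ, (y : ℤ) ^ q = s₁ * (z : ℤ) ^ r + s₂ * (x : ℤ) ^ p →
      (![(y : ℤ), x, z] : Pt) ∈ Raw q p r s₁ s₂ N a := by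
    intro s₁ s₂ h
    refine ⟨h, ?_, cop3 hc.symm hcy hcx, hys, hxs, hzZ, hzNZ⟩
    intro i
    fin_cases i
    · exact hyZ
    · exact hxZ
    · exact le_trans (by norm_num) hzZ
  by_cases hqr : q = r
  · have hpr : p ≠ r := fun h => hne ⟨h.trans hqr.symm, hqr⟩
    rcases hZ with h | h | h
    · exact ⟨1, -1, Or.inl rfl, Or.inr rfl, Or.inr ⟨⟨hq, hp, hr, hq4, hp4, hpr, Or.inl rfl,
        Or.inr rfl⟩, hB _ _ (by linarith)⟩⟩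
    · exact ⟨1, 1, Or.inl rfl, Or.inl rfl, Or.inr ⟨⟨hq, hp, hr, hq4, hp4, hpr, Or.inl rfl,
        Or.inl rfl⟩, hB _ _ (by linarith)⟩⟩
    · exact ⟨-1, 1, Or.inr rfl, Or.inl rfl, Or.inr ⟨⟨hq, hp, hr, hq4, hp4, hpr, Or.inr rfl,
        Or.inl rfl⟩, hB _ _ (by linarith)⟩⟩
  · rcases hZ with h | h | h
    · exact ⟨1, -1, Or.inl rfl, Or.inr rfl, Or.inl ⟨⟨hp, hq, hr, hp4, hq4, hqr, Or.inl rfl,
        Or.inr rfl⟩, hA _ _ (by linarith)⟩⟩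
    · exact ⟨-1, 1, Or.inr rfl, Or.inl rfl, Or.inl ⟨⟨hp, hq, hr, hp4, hq4, hqr, Or.inr rfl,
        Or.inl rfl⟩, hA _ _ (by linarith)⟩⟩
    · exact ⟨1, 1, Or.inl rfl, Or.inl rfl, Or.inl ⟨⟨hp, hq, hr, hp4, hq4, hqr, Or.inl rfl,
        Or.inl rfl⟩, hA _ _ (by linarith)⟩⟩

/-- The point of a solution. -/
def pt (o : Bool) (v : ℕ × ℕ × ℕ × ℕ × ℕ × ℕ) : Pt :=
  if o then ![(v.2.1 : ℤ), v.1, v.2.2.1] else ![(v.1 : ℤ), v.2.1, v.2.2.1]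

theorem pt_inj (o : Bool) {v w : ℕ × ℕ × ℕ × ℕ × ℕ × ℕ} (h : pt o v = pt o w)
    (h2 : v.2.2.2 = w.2.2.2) : v = w := by
  obtain ⟨a, b, c, d⟩ := v
  obtain ⟨a', b', c', d'⟩ := w
  simp only at h2
  subst h2
  have e0 := congrFun h 0
  have e1 := congrFun h 1
  have e2 := congrFun h 2
  cases o <;> simp [pt] at e0 e1 e2 <;> simp [e0, e1, e2]

/-- The index set. -/
def J (T : ℕ) : Finset (ℕ × ℕ × ℕ × ℤ × ℤ × Bool) :=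
  range (T + 1) ×ˢ range (T + 1) ×ˢ range (T ^ 3 + 1) ×ˢ ({1, -1} : Finset ℤ) ×ˢ
    ({1, -1} : Finset ℤ) ×ˢ (univ : Finset Bool)

theorem card_J (T : ℕ) : (J T).card = 8 * ((T + 1) ^ 2 * (T ^ 3 + 1)) := by
  unfold J
  rw [Finset.card_product, Finset.card_product, Finset.card_product, Finset.card_product,
    Finset.card_product]
  have : ({1, -1} : Finset ℤ).card = 2 := rfl
  rw [this]
  simp only [Finset.card_range, Finset.card_univ, Fintype.card_bool]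
  ring

/-- The set of solutions of a given index. -/
def V (c₁ : ℝ) (K N : ℕ) (j : ℕ × ℕ × ℕ × ℤ × ℤ × Bool) : Set (ℕ × ℕ × ℕ × ℕ × ℕ × ℕ) :=
  {v | v.2.2.2 = (if j.2.2.2.2.2 then (j.2.1, j.1, j.2.2.1) else (j.1, j.2.1, j.2.2.1)) ∧
    Exps j.1 j.2.1 j.2.2.1 j.2.2.2.1 j.2.2.2.2.1 ∧ K ≤ j.1 ∧ K ≤ j.2.1 ∧
    (j.1 : ℝ) ≤ (N : ℝ) ^ c₁ ∧ (j.2.1 : ℝ) ≤ (N : ℝ) ^ c₁ ∧ (j.2.2.1 : ℝ) ≤ (N : ℝ) ^ (4 * c₁) ∧
    pt j.2.2.2.2.2 v ∈ Raw j.1 j.2.1 j.2.2.1 j.2.2.2.1 j.2.2.2.2.1 N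
      (⌊c₁ * (j.1 * j.2.1 : ℝ)⌋₊ + 1)}

theorem V_bound {c₁ : ℝ} {K N B : ℕ}
    (H : ∀ (p q r : ℕ) (s₁ s₂ : ℤ), Exps p q r s₁ s₂ → K ≤ p → K ≤ q → (p : ℝ) ≤ (N : ℝ) ^ c₁ →
      (q : ℝ) ≤ (N : ℝ) ^ c₁ → (r : ℝ) ≤ (N : ℝ) ^ (4 * c₁) →
      PB (Raw p q r s₁ s₂ N (⌊c₁ * (p * q : ℝ)⌋₊ + 1)) B)
    (j : ℕ × ℕ × ℕ × ℤ × ℤ × Bool) (U : Finset (ℕ × ℕ × ℕ × ℕ × ℕ × ℕ))
    (hU : ∀ v ∈ U, v ∈ V c₁ K N j) : U.card ≤ B := by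
  classical
  rcases U.eq_empty_or_nonempty with h0 | ⟨w, hw⟩
  · rw [h0]; simp
  · obtain ⟨-, h1, h2, h3, h4, h5, h6, -⟩ := hU w hw
    have h7 := H _ _ _ _ _ h1 h2 h3 h4 h5 h6 (U.image (pt j.2.2.2.2.2)) (by
      intro P hP
      obtain ⟨v, hv, rfl⟩ := Finset.mem_image.1 hP
      exact (hU v hv).2.2.2.2.2.2.2)
    rwa [Finset.card_image_of_injOn] at h7
    intro v hv w hw hvw
    exact pt_inj _ hvw ((hU v hv).1.trans (hU w hw).1.symm)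

end MainAux

end Pool.Agent.Lib.MP_509488_nt.Wt
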