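import Pool.Agent.Lib.MP_509488_nt.Surf.Stmts
import Pool.Agent.Lib.MP_509488_nt.Sparse.Stmts

/-!
# One small base, few solutions: definitions and statements

Combination of the folders `Surf` (a surface of large degree, points of very different sizes) and
`Sparse` (the Euler operator and the arithmetic lemma).  All statements are propositions `StX`;
module `X` proves `theorem stX : StX` (possibly with other statements as hypotheses).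
The exponents are primes, `p, q ≥ 4`, `q ≠ r`; the coordinates are positive and coprime.
-/

namespace Pool.Agent.Lib.MP_509488_nt.Wt

open Finset

/-- Integer points `(x, y, z) = (P 0, P 1, P 2)`. -/
abbrev Pt : Type := Fin 3 → ℤ

/-- Polynomials in three variables. -/
abbrev Pol : Type := MvPolynomial (Fin 3) ℤ

/-- The set `S` has at most `b` elements. -/
def PB (S : Set Pt) (b : ℕ) : Prop := ∀ T : Finset Pt, (∀ P ∈ T, P ∈ S) → T.card ≤ b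

/-- The exponents and signs. -/
structure Exps (p q r : ℕ) (s₁ s₂ : ℤ) : Prop where
  hp : p.Prime
  hq : q.Prime
  hr : r.Prime
  p4 : 4 ≤ p
  q4 : 4 ≤ q
  qr : q ≠ r
  e₁ : s₁ = 1 ∨ s₁ = -1
  e₂ : s₂ = 1 ∨ s₂ = -1

/-- The positive coprime solutions of `x ^ p = s₁ z ^ r + s₂ y ^ q` with `x ^ p, y ^ q ≤ N ^ τ`,
`z ≤ N` and `N ^ τ ≤ (2 max (x ^ p, y ^ q)) ^ h`. -/
def Good (p q r : ℕ) (s₁ s₂ : ℤ) (N τ h : ℕ) : Set Pt :=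
  {P | Surf.Eqn p q r s₁ s₂ P ∧ (∀ i, 1 ≤ P i) ∧ Sparse.Cop P ∧ P 0 ^ p ≤ (N : ℤ) ^ τ ∧
    P 1 ^ q ≤ (N : ℤ) ^ τ ∧ P 2 ≤ N ∧ (N : ℤ) ^ τ ≤ (2 * max (P 0 ^ p) (P 1 ^ q)) ^ h}

/-- The points with third coordinate `z`. -/
def Fib (S : Set Pt) (z : ℤ) : Set Pt := {P | P ∈ S ∧ P 2 = z}

/-- The exponents as a vector. -/
def ev (p q r : ℕ) : Fin 3 → ℕ := ![p, q, r]

/-- The signs as a vector: `- x ^ p + s₂ y ^ q + s₁ z ^ r`. -/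
def sg (s₁ s₂ : ℤ) : Fin 3 → ℤ := ![-1, s₂, s₁]

/-- The iterated derivative. -/
noncomputable def dit (t : Fin 3) (j : ℕ) (G : Pol) : Pol :=
  (fun F : Pol => MvPolynomial.pderiv t F)^[j] G

/-- The bound for the gradients. -/
def gB (E D I B V : ℕ) : ℕ := D * I * B * (E ^ 2 * (D + I)) ^ (D * I + 1) * V

/-- The condition which makes the arithmetic lemma work. -/
def Small (N τ h E X : ℕ) : Prop := (2 * (6 * E * X ^ 2) ^ 4) ^ h < N ^ τ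

/-- (1) Pigeonhole: a polynomial with small coefficients which vanishes on a one-dimensional
class. (`m = 4 b`; the coefficients of the composition with `Φ (ℓ t)` at `t ^ k`, `k < m`, modulo
`ℓ ^ m`.) -/
def StPig : Prop := ∀ (ℓ b V : ℕ) (E : Finset (Fin 3 →₀ ℕ)) (S : Set Pt), ℓ.Prime → 1 ≤ b →
  16 * b ≤ E.card → Surf.Loc 1 ℓ S → (∀ P ∈ S, ∀ m ∈ E, |∏ i, P i ^ m i| ≤ (V : ℤ)) →
  E.card * ℓ ^ b * V < ℓ ^ (4 * b) →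
  ∃ G : Pol, G ≠ 0 ∧ G.support ⊆ E ∧ (∀ d, |G.coeff d| ≤ (ℓ : ℤ) ^ b) ∧
    ∀ P ∈ S, MvPolynomial.eval P G = 0

/-- (2) Some power of the Euler operator separates. -/
def StSep : Prop := ∀ (e : Fin 3 → ℕ) (G : Pol) (P : Pt), MvPolynomial.eval P G = 0 →
  (∃ k < G.support.card, MvPolynomial.eval P (Sparse.eulk e k G) = 0 ∧
    Sparse.eul e (Sparse.eulk e k G) P ≠ 0) ∨ ∀ w, Sparse.comp e w G P = 0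

/-- (3) If the weights are different, the components do not all vanish. -/
def StInj : Prop := ∀ (e : Fin 3 → ℕ) (G : Pol) (P : Pt), G ≠ 0 → (∀ i, P i ≠ 0) →
  Set.InjOn (Sparse.wt e) (G.support : Set (Fin 3 →₀ ℕ)) → ¬ ∀ w, Sparse.comp e w G P = 0

/-- (4) Few points of given `z` at which all components of a polynomial in `x, y` vanish. -/
def StComp : Prop := ∀ (p q r : ℕ), p.Prime → q.Prime → r.Prime → ∀ (D : ℕ) (G : Pol), G ≠ 0 →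
  (∀ m ∈ G.support, m 0 < D ∧ m 2 = 0) → D ≤ p → ∀ z : ℤ,
  PB {P | (∀ i, 1 ≤ P i) ∧ Sparse.Cop P ∧ P 2 = z ∧ ∀ w, Sparse.comp (ev p q r) w G P = 0} D

/-- (5) A derivative of `G` with respect to `x` vanishes at `P` to the order one exactly, unless
`z` is one of at most `I` values. -/
def StMult : Prop := ∀ (D I : ℕ) (G : Pol), G ≠ 0 →
  (∀ m ∈ G.support, m 0 < D ∧ m 1 = 0 ∧ m 2 < I) →
  ∃ Z : Finset ℤ, Z.card ≤ I ∧ ∀ P : Pt, MvPolynomial.eval P G = 0 → P 2 ∉ Z →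
    ∃ j < D, MvPolynomial.eval P (dit 0 j G) = 0 ∧
      MvPolynomial.eval P (MvPolynomial.pderiv 0 (dit 0 j G)) ≠ 0

/-- (6) Bounds for the gradients. -/
def StDer : Prop := ∀ (E : Finset (Fin 3 →₀ ℕ)) (B V D : ℕ) (G : Pol) (P : Pt),
  G.support ⊆ E → (∀ d, |G.coeff d| ≤ (B : ℤ)) → (∀ m ∈ E, ∀ i, m i ≤ D) → (∀ i, 1 ≤ P i) →
  (∀ m ∈ E, ∏ i, P i ^ m i ≤ (V : ℤ)) →
  (∀ (t i : Fin 3) (j : ℕ), |MvPolynomial.eval P (MvPolynomial.pderiv i (dit t j G))| ≤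
    ((E.card * B * D ^ (j + 1) * V : ℕ) : ℤ)) ∧
  ∀ (e : Fin 3 → ℕ) (W k : ℕ) (i : Fin 3), (∀ m ∈ E, Sparse.wt e m ≤ W) →
    |MvPolynomial.eval P (MvPolynomial.pderiv i (Sparse.eulk e k G))| ≤
      ((E.card * B * W ^ k * D * V : ℕ) : ℤ)

/-- (7) The Jacobian is different from zero and bounded. (From `Sparse.arith`; `P j ^ 2 ≤ 2 M`,
`M = max (x ^ p, y ^ q)`, `(6 E X ^ 2) ^ 4 < M`, `4 ≤ p, q`.) -/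
def StJac : Prop := ∀ (p q r : ℕ) (s₁ s₂ : ℤ), Exps p q r s₁ s₂ →
  ∀ (N τ h E X : ℕ) (P : Pt) (t : Fin 3) (g H : Pol), P ∈ Good p q r s₁ s₂ N τ h →
  p ≤ E → q ≤ E → r ≤ E → Small N τ h E X →
  (∀ i, |MvPolynomial.eval P (MvPolynomial.pderiv i g)| ≤ (X : ℤ)) →
  (∀ i, |MvPolynomial.eval P (MvPolynomial.pderiv i H)| ≤ (X : ℤ)) →
  Sparse.eul (ev p q r) H P ≠ 0 → MvPolynomial.eval P (MvPolynomial.pderiv t g) ≠ 0 →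
  t ∉ H.vars →
  Sparse.jac ![Sparse.fpoly (sg s₁ s₂) (ev p q r), g, H] P ≠ 0 ∧
    |Sparse.jac ![Sparse.fpoly (sg s₁ s₂) (ev p q r), g, H] P| < (N : ℤ) ^ (2 * τ)

/-- (8) The points of a one-dimensional class, if those of each fibre are few. -/
def StCls : Prop := ∀ (p q r : ℕ) (s₁ s₂ : ℤ), Exps p q r s₁ s₂ →
  ∀ (N τ h E ℓ b D I A M R : ℕ) (LL : Finset ℕ) (S : Set Pt), 1 ≤ N → p ≤ E → q ≤ E → r ≤ E →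
  ℓ.Prime → 1 ≤ b → 16 * b ≤ D * I → D ≤ q → Surf.Loc 1 ℓ S → S ⊆ Good p q r s₁ s₂ N τ h →
  (∀ P ∈ S, P 0 ^ D ≤ (N : ℤ) ^ A ∧ P 1 ^ D ≤ (N : ℤ) ^ A) →
  D * I * ℓ ^ b * N ^ (A + I) < ℓ ^ (4 * b) →
  Small N τ h E (gB E D I (ℓ ^ b) (N ^ (A + I))) →
  (∀ l ∈ LL, l.Prime ∧ l ≤ R) → N ^ (2 * τ) ≤ ∏ l ∈ LL, l → (∀ z, PB (Fib S z) M) →
  PB S (I * M + D * (D * I * (LL.card * R ^ 3)))

/-- (9) The points of a class with given `z` are one-dimensional. -/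
def StLocFix : Prop := ∀ (ℓ p q r : ℕ) (s₁ s₂ z : ℤ) (S : Set Pt) (P₀ : Pt), ℓ.Prime →
  (∀ P ∈ S, Surf.Eqn p q r s₁ s₂ P ∧ P 2 = z) → (∀ P ∈ S, ∀ i, (ℓ : ℤ) ∣ P i - P₀ i) →
  ¬ (ℓ : ℤ) ∣ p * P₀ 0 → Surf.Loc 1 ℓ S

/-- (10) The solutions with given `z`. -/
def StFix : Prop := ∀ (p q r : ℕ) (s₁ s₂ : ℤ), Exps p q r s₁ s₂ →
  ∀ (N τ h E b D I A R R' : ℕ) (LL LL' : Finset ℕ) (z : ℤ), 1 ≤ N → p ≤ E → q ≤ E → r ≤ E →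
  1 ≤ b → 16 * b ≤ D * I → D ≤ p →
  (∀ P ∈ Fib (Good p q r s₁ s₂ N τ h) z, P 0 ^ D * P 1 ^ I ≤ (N : ℤ) ^ A) →
  (∀ l ∈ LL', l.Prime ∧ l ≤ R' ∧ D * I * l ^ b * N ^ A < l ^ (4 * b) ∧
    Small N τ h E (gB E D I (l ^ b) (N ^ A))) →
  p * N ^ τ < ∏ l ∈ LL', l →
  (∀ l ∈ LL, l.Prime ∧ l ≤ R) → N ^ (2 * τ) ≤ ∏ l ∈ LL, l →
  PB (Fib (Good p q r s₁ s₂ N τ h) z) (LL'.card * (R' ^ 3 * (D + D * I * (LL.card * R ^ 3))))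

/-- (11) The points on a curve `H(y, z) = 0` of the surface. -/
def StCrv : Prop := ∀ (p q r : ℕ) (s₁ s₂ : ℤ), Exps p q r s₁ s₂ →
  ∀ (N τ h D₁ D₂ Ev L M C : ℕ) (H : Polynomial (Polynomial ℤ)) (LL : Finset ℕ) (S : Set Pt),
  1 ≤ N → S ⊆ Good p q r s₁ s₂ N τ h → H ≠ 0 → H.natDegree ≤ D₁ →
  (∀ k, (H.coeff k).natDegree ≤ D₂) →
  (∀ l ∈ LL, l.Prime ∧ l ≤ L ∧ ∀ S' : Set Pt, S' ⊆ S → Surf.Loc 1 l S' → PB S' C) →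
  Ev * p * N ^ τ < ∏ l ∈ LL, l →
  (∀ P ∈ S, ∀ k, |Polynomial.evalEval (P 2) (P 1) (Polynomial.derivative^[k] H)| ≤ (Ev : ℤ)) →
  (∀ P ∈ S, Polynomial.evalEval (P 2) (P 1) H = 0) → (∀ z, PB (Fib S z) M) →
  PB S (D₂ * M + D₁ * (LL.card * (L ^ 3 * C)))

/-- (12) All solutions for one signature, non-asymptotic form. -/
def StCnt : Prop := ∀ (p q r : ℕ) (s₁ s₂ : ℤ), Exps p q r s₁ s₂ →
  ∀ (N τ h M C K L₁ L₂ : ℕ) (LL₁ LL₂ : Finset ℕ), r ≤ τ → 1 ≤ N →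
  (∀ l ∈ LL₁, l.Prime ∧ l ≤ L₁ ∧ (p * q * τ).factorial ^ 2 * N ^ (3 * τ * (p * q * τ)) <
    l ^ (2 * Surf.expo 2 (p * q * τ) K)) →
  (∀ l ∈ LL₂, l.Prime ∧ l ≤ L₂ ∧
    ∀ S' : Set Pt, S' ⊆ Good p q r s₁ s₂ N τ h → Surf.Loc 1 l S' → PB S' C) →
  p * N ^ τ < ∏ l ∈ LL₁, l →
  Surf.eB p q τ (Surf.hB p q τ N) (N ^ τ) * p * N ^ τ < ∏ l ∈ LL₂, l →
  (∀ z, PB (Fib (Good p q r s₁ s₂ N τ h) z) M) →
  PB (Good p q r s₁ s₂ N τ h)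
    (LL₁.card * (L₁ ^ 3 * (2 * p * τ * M + 2 * p * q * (LL₂.card * (L₂ ^ 3 * C)))))

/-- (13) Asymptotic form of (10). -/
def StFixA : Prop := ∀ (ε : ℝ) (h : ℕ), 0 < ε → 1 ≤ h → ∃ (K : ℕ) (c δ : ℝ), 0 < c ∧ 0 < δ ∧
  ∃ N₀ : ℕ, ∀ N : ℕ, N₀ ≤ N → ∀ (p q r τ : ℕ) (s₁ s₂ z : ℤ), Exps p q r s₁ s₂ → K ≤ p → K ≤ q →
  (τ : ℝ) ≤ c * (p * q) → (p : ℝ) ≤ (N : ℝ) ^ δ → (q : ℝ) ≤ (N : ℝ) ^ δ →
  (r : ℝ) ≤ (N : ℝ) ^ δ → PB (Fib (Good p q r s₁ s₂ N τ h) z) ⌊(N : ℝ) ^ ε⌋₊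

/-- (14) Asymptotic form of (12). -/
def StAllA : Prop := ∀ (ε : ℝ) (h : ℕ), 0 < ε → 1 ≤ h → ∃ (K : ℕ) (c δ : ℝ), 0 < c ∧ 0 < δ ∧
  ∃ N₀ : ℕ, ∀ N : ℕ, N₀ ≤ N → ∀ (p q r τ : ℕ) (s₁ s₂ : ℤ), Exps p q r s₁ s₂ → K ≤ p → K ≤ q →
  r ≤ τ → (τ : ℝ) ≤ c * (p * q) → (p : ℝ) ≤ (N : ℝ) ^ δ → (q : ℝ) ≤ (N : ℝ) ^ δ →
  (r : ℝ) ≤ (N : ℝ) ^ δ → PB (Good p q r s₁ s₂ N τ h) ⌊(N : ℝ) ^ ε⌋₊

/-- (15) The two-logarithms bound for prime exponents which are not all equal. -/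
def StTwoP : Prop := ∃ C : ℝ, 0 < C ∧ ∀ x y z p q r : ℕ, 2 ≤ x → 2 ≤ y → Nat.Coprime x y →
  p.Prime → q.Prime → r.Prime → 3 ≤ p → 3 ≤ q → ¬ (p = q ∧ q = r) → x ^ p + y ^ q = z ^ r →
  (p * q : ℝ) ≤ C * r * Real.log z ^ 2 * Real.log (p + q + r) ^ 2

/-- The solutions `(x, y, z, p, q, r)` with `z ≤ N`. -/
def Sols (c : ℝ) (K N : ℕ) : Set (ℕ × ℕ × ℕ × ℕ × ℕ × ℕ) :=
  {v | ∃ x y z p q r : ℕ, v = (x, y, z, p, q, r) ∧ 1 ≤ x ∧ 1 ≤ y ∧ 2 ≤ z ∧ z ≤ N ∧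
    Nat.Coprime x y ∧ p.Prime ∧ q.Prime ∧ r.Prime ∧ ¬ (p = q ∧ q = r) ∧ K ≤ p ∧ K ≤ q ∧
    ((2 ≤ x ∧ 2 ≤ y ∧ x ^ p + y ^ q = z ^ r ∧
        (r : ℝ) * Real.log (p * q) ^ 4 ≤ c * (p * q)) ∨
     ((x ^ p + y ^ q = z ^ r ∨ x ^ p + z ^ r = y ^ q ∨ y ^ q + z ^ r = x ^ p) ∧
        (p : ℝ) ≤ (N : ℝ) ^ c ∧ (q : ℝ) ≤ (N : ℝ) ^ c ∧ (x : ℝ) ^ p ≤ (N : ℝ) ^ (c * (p * q)) ∧
        (y : ℝ) ^ q ≤ (N : ℝ) ^ (c * (p * q))))}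

/-- (16) The main theorem. -/
def StMain : Prop := ∀ ε : ℝ, 0 < ε → ∃ c : ℝ, 0 < c ∧ ∃ K N₀ : ℕ, ∀ N : ℕ, N₀ ≤ N →
  (Sols c K N).Finite ∧ ((Sols c K N).ncard : ℝ) ≤ (N : ℝ) ^ ε

end Pool.Agent.Lib.MP_509488_nt.Wt
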